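import Mathlib

/-!
LEAF N10 (Mathlib only).  The primitive multiple is determined by the place.
Proof. `gcd (2 ^ i * 3 ^ j) (2 ^ i' * 3 ^ j') = 2 ^ min i i' * 3 ^ min j j' =: g` and `N g`.  If `i' < i` then `i ≥ 1` and `g` divides
`k = 2 ^ (i - 1) * 3 ^ j`, so `N k`, but `2 ^ i * 3 ^ j = 2 * k`, a contradiction with `h2`.  So `i ≤ i'`, by symmetry `i' ≤ i`.
The same for `j`.
-/

namespace FB

private theorem N10_le (N : ℕ → Prop) (hmul : ∀ k m, N m → N (k * m)) (hgcd : ∀ a b, N a → N b → N (Nat.gcd a b))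
    {i j i' j' : ℕ} (h : N (2 ^ i * 3 ^ j)) (h' : N (2 ^ i' * 3 ^ j')) (h2 : ∀ k, 2 ^ i * 3 ^ j = 2 * k → ¬ N k)
    (h3 : ∀ k, 2 ^ i * 3 ^ j = 3 * k → ¬ N k) : i ≤ i' ∧ j ≤ j' := by
  have hg := hgcd _ _ h h'
  have hN : ∀ k, Nat.gcd (2 ^ i * 3 ^ j) (2 ^ i' * 3 ^ j') ∣ k → N k := by
    rintro k ⟨c, rfl⟩
    rw [mul_comm]
    exact hmul c _ hg
  have hc : Nat.Coprime (2 ^ i') (3 ^ j') := Nat.Coprime.pow _ _ (by norm_num)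
  have hgm : Nat.gcd (2 ^ i * 3 ^ j) (2 ^ i' * 3 ^ j') =
      Nat.gcd (2 ^ i * 3 ^ j) (2 ^ i') * Nat.gcd (2 ^ i * 3 ^ j) (3 ^ j') := Nat.Coprime.gcd_mul _ hc
  rw [hgm] at hN
  have e2 : Nat.gcd (2 ^ i * 3 ^ j) (2 ^ i') ∣ 2 ^ i := by
    have hcop : Nat.Coprime (Nat.gcd (2 ^ i * 3 ^ j) (2 ^ i')) (3 ^ j) :=
      Nat.Coprime.coprime_dvd_left (Nat.gcd_dvd_right _ _) (Nat.Coprime.pow _ _ (by norm_num))
    exact hcop.dvd_of_dvd_mul_right (Nat.gcd_dvd_left _ _)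
  have e3 : Nat.gcd (2 ^ i * 3 ^ j) (3 ^ j') ∣ 3 ^ j := by
    have hcop : Nat.Coprime (Nat.gcd (2 ^ i * 3 ^ j) (3 ^ j')) (2 ^ i) :=
      Nat.Coprime.coprime_dvd_left (Nat.gcd_dvd_right _ _) (Nat.Coprime.pow _ _ (by norm_num))
    exact hcop.dvd_of_dvd_mul_left (Nat.gcd_dvd_left _ _)
  constructor
  · by_contra hlt
    rw [not_le] at hlt
    obtain ⟨t, ht⟩ : ∃ t, i = t + 1 := ⟨i - 1, by omega⟩
    refine h2 (2 ^ t * 3 ^ j) (by rw [ht, pow_succ]; ring) (hN _ (mul_dvd_mul ?_ e3))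
    exact (Nat.gcd_dvd_right _ _).trans (pow_dvd_pow 2 (by omega))
  · by_contra hlt
    rw [not_le] at hlt
    obtain ⟨t, ht⟩ : ∃ t, j = t + 1 := ⟨j - 1, by omega⟩
    refine h3 (2 ^ i * 3 ^ t) (by rw [ht, pow_succ]; ring) (hN _ (mul_dvd_mul e2 ?_))
    exact (Nat.gcd_dvd_right _ _).trans (pow_dvd_pow 3 (by omega))

theorem prim_inj (N : ℕ → Prop) (hmul : ∀ k m, N m → N (k * m)) (hgcd : ∀ a b, N a → N b → N (Nat.gcd a b))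
    {i j i' j' : ℕ} (h : N (2 ^ i * 3 ^ j)) (h' : N (2 ^ i' * 3 ^ j')) (h2 : ∀ k, 2 ^ i * 3 ^ j = 2 * k → ¬ N k)
    (h3 : ∀ k, 2 ^ i * 3 ^ j = 3 * k → ¬ N k) (h2' : ∀ k, 2 ^ i' * 3 ^ j' = 2 * k → ¬ N k)
    (h3' : ∀ k, 2 ^ i' * 3 ^ j' = 3 * k → ¬ N k) : i = i' ∧ j = j' := by
  obtain ⟨a, b⟩ := N10_le N hmul hgcd h h' h2 h3
  obtain ⟨c, d⟩ := N10_le N hmul hgcd h' h h2' h3'
  exact ⟨le_antisymm a c, le_antisymm b d⟩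

end FB
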