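import Pool.Agent.Lib.MP_17a322_ntFB.NI

/-!
Multiples of a point in the kernel of reduction.
-/

namespace FB

open VK

theorem inK_mul {K : Type} [Field K] [CharZero K] [DecidableEq K] (V : ValuationSubring K) {A B : K} (hA : A ∈ V)
    (hB : B ∈ V) {P : Pt A B} (k m : ℕ) (h : inK V (m • P)) : inK V ((k * m) • P) := by
  have h1 := inK_nsmul V hA hB h k
  rw [smul_smul] at h1
  exact h1

theorem inK_gcd {K : Type} [Field K] [CharZero K] [DecidableEq K] (V : ValuationSubring K) {A B : K} (hA : A ∈ V)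
    (hB : B ∈ V) {P : Pt A B} (a b : ℕ) (ha : inK V (a • P)) (hb : inK V (b • P)) : inK V (Nat.gcd a b • P) := by
  have h1 := inK_add V hA hB (inK_zsmul V hA hB ha (Nat.gcdA a b)) (inK_zsmul V hA hB hb (Nat.gcdB a b))
  have h2 : Nat.gcd a b • P = Nat.gcdA a b • (a • P) + Nat.gcdB a b • (b • P) := by
    rw [← natCast_zsmul P (Nat.gcd a b), Nat.gcd_eq_gcd_ab a b, add_smul, mul_comm (a : ℤ), mul_comm (b : ℤ), mul_smul,
      mul_smul, natCast_zsmul, natCast_zsmul]
  rw [h2]
  exact h1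

end FB
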