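import Pool.Agent.Lib.MP_17a322_ntFB.NDefs

/-!
LEAF N12.  Finite places.
Proof. `v x = ‖FinitePlace.embedding v.maximalIdeal x‖ = adicAbv K v.maximalIdeal x = toNNReal _ (v.maximalIdeal.valuation K x)`
(`FinitePlace.norm_embedding_eq`, `FinitePlace.norm_embedding`, `HeightOneSpectrum.adicAbv_def`; file
`Mathlib/NumberTheory/NumberField/Completion/FinitePlace.lean`).  `fp_in`: `Valuation.mem_valuationSubring_iff` and
`toNNReal _ y ≤ 1 ↔ y ≤ 1` (`WithZeroMulInt.toNNReal_strictMono`, base `absNorm > 1`: `HeightOneSpectrum.one_lt_absNorm`).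
`fp_log`: `toNNReal _ y` is a power `(absNorm) ^ n`, `n : ℤ`, for `y ≠ 0`; it is `> 1`, so `n ≥ 1` and it is `≥ absNorm`.
`fp_int`: `FinitePlace.norm_le_one`.  `fp_add`: `FinitePlace.add_le`.  `fp_six`: `v 6 = v 2 * v 3`, both factors at most `1` by
`fp_int`, so both are `1` if `¬ v 6 < 1`.  `fp_rat`: `fp_int` for the integer `4`, and `v 4 ≠ 0`.
-/

namespace FB

open NumberField VK

private theorem N12_eq {K : Type} [Field K] [NumberField K] (v : FinitePlace K) (x : K) :
    v x = ((WithZeroMulInt.toNNReal (NumberField.HeightOneSpectrum.absNorm_ne_zero v.maximalIdeal)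
      (v.maximalIdeal.valuation K x) : NNReal) : ℝ) := by
  rw [← FinitePlace.norm_embedding_eq v x, FinitePlace.norm_embedding']

theorem fp_in {K : Type} [Field K] [NumberField K] (v : FinitePlace K) (x : K) :
    x ∈ (v.maximalIdeal.valuation K).valuationSubring ↔ v x ≤ 1 := by
  rw [Valuation.mem_valuationSubring_iff, N12_eq, ← NNReal.coe_one, NNReal.coe_le_coe]
  exact (WithZeroMulInt.toNNReal_le_one_iff
    (NumberField.HeightOneSpectrum.one_lt_absNorm_nnreal v.maximalIdeal)).symm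

theorem fp_log {K : Type} [Field K] [NumberField K] (v : FinitePlace K) {x : K} (hx : 1 < v x) :
    Real.log (Ideal.absNorm v.maximalIdeal.asIdeal) ≤ Real.log (v x) := by
  have h1 : (1 : ℝ) < Ideal.absNorm v.maximalIdeal.asIdeal := by
    exact_mod_cast NumberField.HeightOneSpectrum.one_lt_absNorm v.maximalIdeal
  refine Real.log_le_log (by linarith) ?_
  have hx0 : x ≠ 0 := by
    rintro rfl
    rw [map_zero] at hx
    linarith
  have hv : v.maximalIdeal.valuation K x ≠ 0 := by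
    rw [Ne, map_eq_zero]
    exact hx0
  rw [N12_eq, WithZeroMulInt.toNNReal_neg_apply _ hv] at hx ⊢
  rw [NNReal.coe_zpow, NNReal.coe_natCast] at hx ⊢
  have h2 : 0 < (WithZero.unzero hv).toAdd := by
    by_contra hn
    have h3 := zpow_le_one_of_nonpos₀ h1.le (not_lt.1 hn)
    linarith
  calc ((Ideal.absNorm v.maximalIdeal.asIdeal : ℕ) : ℝ)
      = ((Ideal.absNorm v.maximalIdeal.asIdeal : ℕ) : ℝ) ^ (1 : ℤ) := (zpow_one _).symm
    _ ≤ _ := zpow_le_zpow_right₀ h1.le h2

theorem fp_int {K : Type} [Field K] [NumberField K] (v : FinitePlace K) (a : 𝓞 K) : v (a : K) ≤ 1 := by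
  rw [← FinitePlace.norm_embedding_eq v (a : K)]
  exact FinitePlace.norm_le_one K v.maximalIdeal a

theorem fp_add {K : Type} [Field K] [NumberField K] (v : FinitePlace K) (x y : K) :
    v.1 (x + y) ≤ max (v.1 x) (v.1 y) := by
  exact FinitePlace.add_le v x y

theorem fp_six {K : Type} [Field K] [NumberField K] (v : FinitePlace K) (h : ¬ v (6 : K) < 1) :
    v.1 (2 : K) = 1 ∧ v.1 (3 : K) = 1 := by
  have h2 : v (2 : K) ≤ 1 := by
    have := fp_int v (2 : 𝓞 K)
    have e : ((2 : 𝓞 K) : K) = 2 := map_ofNat (algebraMap (𝓞 K) K) 2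
    rwa [e] at this
  have h3 : v (3 : K) ≤ 1 := by
    have := fp_int v (3 : 𝓞 K)
    have e : ((3 : 𝓞 K) : K) = 3 := map_ofNat (algebraMap (𝓞 K) K) 3
    rwa [e] at this
  have h6 : v (6 : K) = v (2 : K) * v (3 : K) := by
    rw [← map_mul]
    norm_num
  have h20 : 0 ≤ v (2 : K) := apply_nonneg v _
  have h30 : 0 ≤ v (3 : K) := apply_nonneg v _
  rw [not_lt, h6] at h
  constructor
  · change v (2 : K) = 1
    nlinarith
  · change v (3 : K) = 1
    nlinarith

theorem fp_four {K : Type} [Field K] [NumberField K] (v : FinitePlace K) : 0 < v.1 (4 : K) ∧ v.1 (4 : K) ≤ 1 := by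
  constructor
  · exact FinitePlace.pos_iff.2 (by norm_num)
  · have := fp_int v (4 : 𝓞 K)
    have e : ((4 : 𝓞 K) : K) = 4 := map_ofNat (algebraMap (𝓞 K) K) 4
    rwa [e] at this

end FB
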