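import Pool.Agent.Lib.MP_17a322_ntFB.NDefs

/-!
LEAF N6.  Duplication at an archimedean place.
Proof. `R = 8 + 4 (w A + w B) + 4 (2 w A + 8 w B + (w A) ^ 2)`.  Let `R ≤ w x`, `E = x ^ 3 + A x + B`,
`N = x ^ 4 - 2 A x ^ 2 - 8 B x + A ^ 2`.  `w (A x + B) ≤ (w A + w B) w x ≤ (w x) ^ 3 / 4` and
`w (- 2 A x ^ 2 - 8 B x + A ^ 2) ≤ (2 w A + 8 w B + (w A) ^ 2) (w x) ^ 2 ≤ (w x) ^ 4 / 4` (`w 2 ≤ 2`, `w 8 ≤ 8` by the triangle
inequality), so `3 / 4 (w x) ^ 3 ≤ w E ≤ 5 / 4 (w x) ^ 3`, `3 / 4 (w x) ^ 4 ≤ w N ≤ 5 / 4 (w x) ^ 4`; `w X * (4 * w E) = w N`.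
So `w X ≤ (5 / 4) (w x) ^ 4 / (3 (w x) ^ 3) ≤ w x` and `w X ≥ (3 / 4) (w x) ^ 4 / (5 (w x) ^ 3) ≥ w x / 8`.
-/

namespace FB

theorem ar_dup {F : Type} [Field F] (w : AbsoluteValue F ℝ) (h4 : w 4 = 4) (A B : F) :
    ∃ R : ℝ, 8 ≤ R ∧ ∀ x X : F, Dup A B x X → R ≤ w x → w x / 8 ≤ w X ∧ w X ≤ w x := by
  have ha : 0 ≤ w A := w.nonneg A
  have hb : 0 ≤ w B := w.nonneg B
  refine ⟨8 + 4 * (w A + w B) + 4 * (2 * w A + 8 * w B + (w A) ^ 2), by nlinarith [sq_nonneg (w A)], fun x X h hx => ?_⟩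
  have h2 : w 2 ≤ 2 := by
    have h1 : (2 : F) = 1 + 1 := by norm_num
    rw [h1]
    refine (w.add_le 1 1).trans ?_
    rw [w.map_one]
    norm_num
  have h8 : w 8 ≤ 8 := by
    have h1 : (8 : F) = 2 * 4 := by norm_num
    rw [h1, w.map_mul, h4]
    linarith
  have ht : 8 ≤ w x := by nlinarith [sq_nonneg (w A)]
  have ht1 : 4 * (w A + w B) ≤ w x := by nlinarith [sq_nonneg (w A)]
  have ht2 : 4 * (2 * w A + 8 * w B + (w A) ^ 2) ≤ w x := by nlinarith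
  have e1 : w (A * x + B) ≤ w A * w x + w B := by
    refine (w.add_le _ _).trans ?_
    rw [w.map_mul]
  have e2 : w (-(2 * A * x ^ 2) - 8 * B * x + A ^ 2) ≤ 2 * w A * w x ^ 2 + 8 * w B * w x + w A ^ 2 := by
    have h1 : w (-(2 * A * x ^ 2) - 8 * B * x + A ^ 2) ≤
        w (-(2 * A * x ^ 2)) + w (-(8 * B * x)) + w (A ^ 2) := by
      rw [sub_eq_add_neg]
      refine (w.add_le _ _).trans ?_
      exact add_le_add_left (w.add_le _ _) _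
    refine h1.trans ?_
    rw [w.map_neg, w.map_neg, w.map_mul, w.map_mul, w.map_mul, w.map_mul, w.map_pow, w.map_pow]
    have h3 : w 2 * w A * w x ^ 2 ≤ 2 * w A * w x ^ 2 := by
      have : 0 ≤ w A * w x ^ 2 := by positivity
      nlinarith
    have h5 : w 8 * w B * w x ≤ 8 * w B * w x := by
      have : 0 ≤ w B * w x := by positivity
      nlinarith
    linarith
  have e3 : w x ^ 3 ≤ w (x ^ 3 + A * x + B) + w (A * x + B) := by
    have h1 : x ^ 3 = (x ^ 3 + A * x + B) + -(A * x + B) := by ring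
    calc w x ^ 3 = w ((x ^ 3 + A * x + B) + -(A * x + B)) := by rw [← h1, w.map_pow]
      _ ≤ w (x ^ 3 + A * x + B) + w (-(A * x + B)) := w.add_le _ _
      _ = _ := by rw [w.map_neg]
  have e4 : w (x ^ 3 + A * x + B) ≤ w x ^ 3 + w (A * x + B) := by
    rw [add_assoc]
    refine (w.add_le _ _).trans ?_
    rw [w.map_pow]
  have e5 : w x ^ 4 ≤ w (x ^ 4 - 2 * A * x ^ 2 - 8 * B * x + A ^ 2) + w (-(2 * A * x ^ 2) - 8 * B * x + A ^ 2) := by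
    have h1 : x ^ 4 = (x ^ 4 - 2 * A * x ^ 2 - 8 * B * x + A ^ 2) + -(-(2 * A * x ^ 2) - 8 * B * x + A ^ 2) := by ring
    calc w x ^ 4 = w ((x ^ 4 - 2 * A * x ^ 2 - 8 * B * x + A ^ 2) + -(-(2 * A * x ^ 2) - 8 * B * x + A ^ 2)) := by
          rw [← h1, w.map_pow]
      _ ≤ w (x ^ 4 - 2 * A * x ^ 2 - 8 * B * x + A ^ 2) + w (-(-(2 * A * x ^ 2) - 8 * B * x + A ^ 2)) := w.add_le _ _
      _ = _ := by rw [w.map_neg (-(2 * A * x ^ 2) - 8 * B * x + A ^ 2)]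
  have e6 : w (x ^ 4 - 2 * A * x ^ 2 - 8 * B * x + A ^ 2) ≤ w x ^ 4 + w (-(2 * A * x ^ 2) - 8 * B * x + A ^ 2) := by
    have h1 : x ^ 4 - 2 * A * x ^ 2 - 8 * B * x + A ^ 2 = x ^ 4 + (-(2 * A * x ^ 2) - 8 * B * x + A ^ 2) := by ring
    rw [h1]
    refine (w.add_le _ _).trans ?_
    rw [w.map_pow]
  have e7 : w X * (4 * w (x ^ 3 + A * x + B)) = w (x ^ 4 - 2 * A * x ^ 2 - 8 * B * x + A ^ 2) := by
    rw [← h, w.map_mul, w.map_mul, h4]
  have hX : 0 ≤ w X := w.nonneg X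
  generalize w (x ^ 4 - 2 * A * x ^ 2 - 8 * B * x + A ^ 2) = N at *
  generalize w (x ^ 3 + A * x + B) = E at *
  generalize w (-(2 * A * x ^ 2) - 8 * B * x + A ^ 2) = p at *
  generalize w (A * x + B) = r at *
  generalize w x = t at *
  generalize w X = u at *
  generalize w A = a at *
  generalize w B = b at *
  have t0 : 0 < t := by linarith
  have f1 : r ≤ t ^ 3 / 4 := by
    have h1 : a * t + b ≤ (a + b) * t := by nlinarith
    have h3 : (a + b) * t ≤ t / 4 * t := mul_le_mul_of_nonneg_right (by linarith) t0.le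
    have h5 : t / 4 * t ≤ t ^ 3 / 4 := by nlinarith [mul_pos t0 t0]
    linarith
  have f2 : p ≤ t ^ 4 / 4 := by
    have h1 : 8 * b * t ≤ 8 * b * t ^ 2 := by nlinarith [mul_nonneg hb t0.le]
    have h3 : a ^ 2 ≤ a ^ 2 * t ^ 2 := le_mul_of_one_le_right (sq_nonneg a) (by nlinarith)
    have h5 : (2 * a + 8 * b + a ^ 2) * t ^ 2 ≤ t / 4 * t ^ 2 :=
      mul_le_mul_of_nonneg_right (by linarith) (sq_nonneg t)
    have h6 : t / 4 * t ^ 2 ≤ t ^ 4 / 4 := by nlinarith [pow_pos t0 3]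
    nlinarith
  have t3 : 0 < t ^ 3 := pow_pos t0 3
  have g1 : 3 / 4 * t ^ 3 ≤ E := by linarith
  have g2 : E ≤ 5 / 4 * t ^ 3 := by linarith
  have g3 : 3 / 4 * t ^ 4 ≤ N := by linarith
  have g4 : N ≤ 5 / 4 * t ^ 4 := by linarith
  have k1 : u * (3 * t ^ 3) ≤ u * (4 * E) := mul_le_mul_of_nonneg_left (by linarith) hX
  have k2 : u * (4 * E) ≤ u * (5 * t ^ 3) := mul_le_mul_of_nonneg_left (by linarith) hX
  have t4 : t ^ 4 = t * t ^ 3 := by ring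
  rw [t4] at g3 g4
  constructor
  · have h1 : 3 / 4 * (t * t ^ 3) ≤ u * (5 * t ^ 3) := by linarith
    have h3 : (3 / 4 * t) * t ^ 3 ≤ (5 * u) * t ^ 3 := by linarith
    have h5 := le_of_mul_le_mul_right h3 t3
    linarith
  · have h1 : u * (3 * t ^ 3) ≤ 5 / 4 * (t * t ^ 3) := by linarith
    have h3 : (3 * u) * t ^ 3 ≤ (5 / 4 * t) * t ^ 3 := by linarith
    have h5 := le_of_mul_le_mul_right h3 t3
    linarith

end FB
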