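import Pool.Agent.Lib.MP_17a322_ntFB.N4
import Pool.Agent.Lib.MP_17a322_ntFB.N6
import Pool.Agent.Lib.MP_17a322_ntFB.N12

/-!
LEAF N13.  The local heights of `P` and `2 P` at a bad place.
Proof. `s = inl w`: `ar_dup w.1` (`w 4 = 4`: `w 4 = ‖w.embedding 4‖`, `InfinitePlace.norm_embedding_eq`, `map_ofNat`) gives `R ≥ 8`.
`L = w.mult * Real.log R + 1`, `c = w.mult * Real.log 8`.  If `L ≤ gs s x` then `R ≤ w x` (otherwise
`posLog (w x) ≤ log R`), so `1 ≤ w x / 8 ≤ w X ≤ w x` and both local heights are `w.mult` times the logarithm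
(`Real.posLog_eq_log`), and `log (w x) - log 8 ≤ log (w X) ≤ log (w x)`.
`s = inr v`: `L = 1`, `c = - Real.log (v 4)`.  If `1 ≤ gs s x` then `1 < v x`, so `v X * v 4 = v x` (`na_dup0` with `fp_add`,
`fp_int`), `v X ≥ v x > 1` (`fp_four`), and `log (v X) = log (v x) - log (v 4)`.
-/

namespace FB

open NumberField VK

theorem gs_win {K : Type} [Field K] [NumberField K] (A B : 𝓞 K) (s : InfinitePlace K ⊕ Bd K) :
    ∃ L c : ℝ, ∀ x X : K, Dup (A : K) (B : K) x X → L ≤ gs s x → |gs s X - gs s x| ≤ c := by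
  rcases s with w | v
  · have h4 : w.1 (4 : K) = 4 := by
      have h1 : w (4 : K) = ‖w.embedding (4 : K)‖ := (InfinitePlace.norm_embedding_eq w 4).symm
      have h2 : w.embedding (4 : K) = 4 := map_ofNat _ 4
      have h3 : w (4 : K) = 4 := by
        rw [h1, h2]
        norm_num
      exact h3
    obtain ⟨R, hR, h⟩ := ar_dup w.1 h4 (A : K) (B : K)
    refine ⟨w.mult * Real.log R + 1, w.mult * Real.log 8, fun x X hd hL => ?_⟩
    have hm : (0 : ℝ) ≤ w.mult := Nat.cast_nonneg _
    have hRx : R ≤ w x := by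
      by_contra hcon
      push Not at hcon
      have h5 : Real.posLog (w x) ≤ Real.log R := by
        rw [← Real.posLog_eq_log (by rw [abs_of_nonneg (by linarith)]; linarith)]
        exact Real.monotoneOn_posLog (Set.mem_Ici.2 (apply_nonneg w x)) (Set.mem_Ici.2 (by linarith)) hcon.le
      have h6 : (w.mult : ℝ) * Real.posLog (w x) ≤ w.mult * Real.log R := mul_le_mul_of_nonneg_left h5 hm
      have h7 : (w.mult : ℝ) * Real.log R + 1 ≤ w.mult * Real.posLog (w x) := hL
      linarith
    obtain ⟨h8, h9⟩ : w x / 8 ≤ w X ∧ w X ≤ w x := h x X hd hRx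
    have h10 : 8 ≤ w x := hR.trans hRx
    have h11 : 1 ≤ w X := by linarith
    have h12 : Real.posLog (w x) = Real.log (w x) :=
      Real.posLog_eq_log (by rw [abs_of_nonneg (by linarith)]; linarith)
    have h13 : Real.posLog (w X) = Real.log (w X) :=
      Real.posLog_eq_log (by rw [abs_of_nonneg (by linarith)]; linarith)
    have h14 : Real.log (w X) ≤ Real.log (w x) := Real.log_le_log (by linarith) h9
    have h15 : Real.log (w x) - Real.log 8 ≤ Real.log (w X) := by
      rw [← Real.log_div (by linarith) (by norm_num)]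
      exact Real.log_le_log (by linarith) h8
    show |(w.mult : ℝ) * Real.posLog (w X) - w.mult * Real.posLog (w x)| ≤ w.mult * Real.log 8
    rw [h12, h13, ← mul_sub, abs_mul, abs_of_nonneg hm]
    refine mul_le_mul_of_nonneg_left ?_ hm
    rw [abs_le]
    constructor <;> linarith
  · refine ⟨1, -Real.log (v.1.1 (4 : K)), fun x X hd hL => ?_⟩
    have hL' : 1 ≤ Real.posLog (v.1.1 x) := hL
    have hx : 1 < v.1.1 x := by
      by_contra hcon
      push Not at hcon
      have h1 : Real.posLog (v.1.1 x) = 0 := by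
        rw [Real.posLog_eq_zero_iff, abs_of_nonneg (apply_nonneg v.1.1 x)]
        exact hcon
      rw [h1] at hL'
      linarith
    obtain ⟨h40, h41⟩ := fp_four v.1
    have h2 : v.1.1 X * v.1.1 4 = v.1.1 x := na_dup0 v.1.1 (fp_add v.1) (fp_int v.1 A) (fp_int v.1 B) hx hd
    have hX0 : 0 ≤ v.1.1 X := apply_nonneg v.1.1 X
    have hX : v.1.1 x ≤ v.1.1 X := by
      rw [← h2]
      exact mul_le_of_le_one_right hX0 h41
    have hX1 : 1 < v.1.1 X := lt_of_lt_of_le hx hX
    have h3 : Real.log (v.1.1 x) = Real.log (v.1.1 X) + Real.log (v.1.1 4) := by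
      rw [← h2, Real.log_mul (by linarith) h40.ne']
    have h4 : Real.posLog (v.1.1 x) = Real.log (v.1.1 x) :=
      Real.posLog_eq_log (by rw [abs_of_nonneg (by linarith)]; linarith)
    have h5 : Real.posLog (v.1.1 X) = Real.log (v.1.1 X) :=
      Real.posLog_eq_log (by rw [abs_of_nonneg (by linarith)]; linarith)
    have h6 : Real.log (v.1.1 (4 : K)) ≤ 0 := Real.log_nonpos h40.le h41
    show |Real.posLog (v.1.1 X) - Real.posLog (v.1.1 x)| ≤ -Real.log (v.1.1 (4 : K))
    rw [h4, h5, h3, abs_le]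
    constructor <;> linarith

end FB
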