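import Mathlib

/-!
LEAF N2 (Mathlib only).  A primitive place.
Proof. `m2 ≥ 1` with `5 / 36 * q * m2 ^ 2 > 3 C` (`C ≥ 0` by `hC 1`).  Let `m ≥ m2`, `a m ≤ q / 2 * m ^ 2` and suppose that there
is no such `v`.  Let `F2 v = f v (m / 2)` if `2 ∣ m` and `F2 v = 0` otherwise, `F3 v = f v (m / 3)` if `3 ∣ m` and `F3 v = 0`
otherwise.  Then `f v m ≤ F2 v + F3 v` for every `v`: this is clear if `f v m = 0`; otherwise `0 < f v m`, and there is `k` with
`m = 2 * k`, `f v k ≠ 0`, so `0 < f v k` and `f v m = f v k = F2 v` by `h2`, or `m = 3 * k` and the same with `h3`.  So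
`∑ᶠ v, f v m ≤ ∑ᶠ v, F2 v + ∑ᶠ v, F3 v` (finite supports), and `∑ᶠ v, F2 v ≤ h (m / 2) ≤ q (m / 2) ^ 2 + C` if `2 ∣ m` (`a ≥ 0`),
`= 0` otherwise; likewise `∑ᶠ v, F3 v ≤ q (m / 3) ^ 2 + C`.  Together `h m - a m ≤ 13 / 36 q m ^ 2 + 2 C`, while
`h m - a m ≥ q m ^ 2 - C - q / 2 m ^ 2`: a contradiction.
-/

namespace FB

theorem prim_place {ι : Type} {q C : ℝ} (hq : 0 < q) (f : ι → ℕ → ℝ) (a h : ℕ → ℝ) (hf : ∀ v m, 0 ≤ f v m)
    (hfin : ∀ m, (Function.support fun v => f v m).Finite) (ha : ∀ m, 0 ≤ a m)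
    (hh : ∀ m, 1 ≤ m → h m = a m + ∑ᶠ v, f v m) (hC : ∀ m : ℕ, 1 ≤ m → |h m - q * (m : ℝ) ^ 2| ≤ C)
    (h2 : ∀ v m, 1 ≤ m → 0 < f v m → f v (2 * m) = f v m) (h3 : ∀ v m, 1 ≤ m → 0 < f v m → f v (3 * m) = f v m) :
    ∃ m2 : ℕ, 1 ≤ m2 ∧ ∀ m : ℕ, m2 ≤ m → a m ≤ q / 2 * (m : ℝ) ^ 2 →
      ∃ v, 0 < f v m ∧ (∀ k, m = 2 * k → f v k = 0) ∧ (∀ k, m = 3 * k → f v k = 0) := by
  have hC0 : 0 ≤ C := (abs_nonneg _).trans (hC 1 le_rfl)
  obtain ⟨N, hN⟩ := exists_nat_gt (3 * C / (5 / 36 * q))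
  have hq' : 0 < 5 / 36 * q := by positivity
  refine ⟨N + 1, by omega, fun m hm ham => ?_⟩
  have hm1 : 1 ≤ m := by omega
  have hm0 : ((N : ℝ) + 1) ≤ (m : ℝ) := by exact_mod_cast hm
  have hN0 : (0 : ℝ) ≤ (N : ℝ) := Nat.cast_nonneg N
  have hbig : 3 * C < 5 / 36 * q * (m : ℝ) ^ 2 := by
    rw [div_lt_iff₀ hq'] at hN
    have h1 : (N : ℝ) ≤ (m : ℝ) ^ 2 := by nlinarith
    calc 3 * C < N * (5 / 36 * q) := hN
      _ ≤ (m : ℝ) ^ 2 * (5 / 36 * q) := mul_le_mul_of_nonneg_right h1 hq'.le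
      _ = 5 / 36 * q * (m : ℝ) ^ 2 := by ring
  by_contra hcon
  push Not at hcon
  have hle : ∀ v, f v m ≤ (if 2 ∣ m then f v (m / 2) else 0) + (if 3 ∣ m then f v (m / 3) else 0) := by
    intro v
    have n2 : 0 ≤ (if 2 ∣ m then f v (m / 2) else 0) := by
      split_ifs
      · exact hf _ _
      · exact le_rfl
    have n3 : 0 ≤ (if 3 ∣ m then f v (m / 3) else 0) := by
      split_ifs
      · exact hf _ _
      · exact le_rfl
    rcases (hf v m).eq_or_lt with h0 | h0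
    · rw [← h0]
      exact add_nonneg n2 n3
    · by_cases hk : ∀ k, m = 2 * k → f v k = 0
      · obtain ⟨k, hk1, hk2⟩ := hcon v h0 hk
        have hk3 : 0 < f v k := lt_of_le_of_ne (hf v k) hk2.symm
        have e1 : f v m = f v k := by
          rw [hk1]
          exact h3 v k (by omega) hk3
        have e2 : (if 3 ∣ m then f v (m / 3) else 0) = f v k := by
          rw [if_pos ⟨k, hk1⟩, hk1, Nat.mul_div_cancel_left k (by norm_num)]
        rw [e2, e1]
        linarith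
      · push Not at hk
        obtain ⟨k, hk1, hk2⟩ := hk
        have hk3 : 0 < f v k := lt_of_le_of_ne (hf v k) hk2.symm
        have e1 : f v m = f v k := by
          rw [hk1]
          exact h2 v k (by omega) hk3
        have e2 : (if 2 ∣ m then f v (m / 2) else 0) = f v k := by
          rw [if_pos ⟨k, hk1⟩, hk1, Nat.mul_div_cancel_left k (by norm_num)]
        rw [e2, e1]
        linarith
  have hfs : ∀ d : ℕ, (Function.support fun v => if d ∣ m then f v (m / d) else 0).Finite := by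
    intro d
    refine (hfin (m / d)).subset ?_
    intro v hv
    rw [Function.mem_support] at hv ⊢
    intro h0
    apply hv
    rw [h0, ite_self]
  have hsum : ∀ d : ℕ, 1 ≤ d → ∑ᶠ v, (if d ∣ m then f v (m / d) else 0) ≤ q * ((m : ℝ) / d) ^ 2 + C := by
    intro d hd
    by_cases hdm : d ∣ m
    · simp only [if_pos hdm]
      obtain ⟨k, hk⟩ := hdm
      have hk1 : m / d = k := by
        rw [hk, Nat.mul_div_cancel_left k (by omega)]
      have hk2 : 1 ≤ k := by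
        rcases Nat.eq_zero_or_pos k with h0 | h0
        · rw [h0, mul_zero] at hk
          omega
        · exact h0
      have hk3 : (m : ℝ) / d = k := by
        have hd0 : (d : ℝ) ≠ 0 := by
          have : 0 < d := hd
          positivity
        rw [hk]
        push_cast
        field_simp
      rw [hk1, hk3]
      have e1 := hh k hk2
      have e2 := ha k
      have e3 := abs_le.1 (hC k hk2)
      linarith [e3.2]
    · simp only [if_neg hdm, finsum_zero]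
      positivity
  have hmain : ∑ᶠ v, f v m ≤ (q * ((m : ℝ) / 2) ^ 2 + C) + (q * ((m : ℝ) / 3) ^ 2 + C) := by
    have h5 : ∑ᶠ v, f v m ≤ ∑ᶠ v, ((if 2 ∣ m then f v (m / 2) else 0) + (if 3 ∣ m then f v (m / 3) else 0)) := by
      refine finsum_le_finsum' (hfin m) ?_ hle
      exact ((hfs 2).union (hfs 3)).subset (Function.support_add _ _)
    rw [finsum_add_distrib (hfs 2) (hfs 3)] at h5
    have h6 := hsum 2 (by norm_num)
    have h7 := hsum 3 (by norm_num)
    push_cast at h6 h7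
    linarith
  have e1 := hh m hm1
  have e3 := (abs_le.1 (hC m hm1)).1
  have e4 : (q * ((m : ℝ) / 2) ^ 2 + C) + (q * ((m : ℝ) / 3) ^ 2 + C) = 13 / 36 * (q * (m : ℝ) ^ 2) + 2 * C := by
    ring
  rw [e4] at hmain
  have e5 : 5 / 36 * q * (m : ℝ) ^ 2 = 5 / 36 * (q * (m : ℝ) ^ 2) := by ring
  have e6 : q / 2 * (m : ℝ) ^ 2 = 1 / 2 * (q * (m : ℝ) ^ 2) := by ring
  rw [e5] at hbig
  rw [e6] at ham
  linarith

end FB
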