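import Mathlib

/-!
LEAF N3 (Mathlib only).  The count.
Proof. Let `i0 = m1` (so `2 ^ i0 ≥ m1`), `k < Q := (a + 1 - i0) / (s + 1)` (division of natural numbers) and `j' ≤ a`.  For
`i' = i0 + k (s + 1)` we have `i' + s ≤ a` and `m = 2 ^ i' * 3 ^ j' ≥ m1`, so there is `j = j (k, j') ≤ s` with
`G (2 ^ j * m)`, `2 ^ j * m = 2 ^ (i' + j) * 3 ^ j'`.  The map `(k, j') ↦ (i' + j, j')` is injective on
`range Q ×ˢ range (a + 1)` (`k = (i' + j - i0) / (s + 1)` since `j < s + 1`); let `S` be its image.  `card S = Q (a + 1)` and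
`Q (s + 1) + (s + 1) ≥ a + 1 - i0`, so `Q ≥ (a - i0 - s) / (s + 1)` in the reals, and `card S ≥ a (a - i0 - s) / (s + 1)` (if
`a ≥ i0 + s`; otherwise the right hand side of the claim is negative) `≥ (a ^ 2 / 2 - (i0 + s) ^ 2 / 2) / (s + 1)`.
`c₁ = 1 / (2 (s + 1))`, `C₁ = (i0 + s) ^ 2 + 1`.
-/

namespace FB

theorem count_good (s m1 : ℕ) (G : ℕ → Prop) (hG : ∀ m : ℕ, m1 ≤ m → ∃ j : ℕ, j ≤ s ∧ G (2 ^ j * m)) :
    ∃ c₁ C₁ : ℝ, 0 < c₁ ∧ 0 < C₁ ∧ ∀ a : ℕ, ∃ S : Finset (ℕ × ℕ), c₁ * (a : ℝ) ^ 2 - C₁ ≤ (S.card : ℝ) ∧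
      ∀ x ∈ S, x.1 ≤ a ∧ x.2 ≤ a ∧ G (2 ^ x.1 * 3 ^ x.2) := by
  classical
  have hJ : ∀ m : ℕ, ∃ j : ℕ, m1 ≤ m → j ≤ s ∧ G (2 ^ j * m) := by
    intro m
    by_cases h : m1 ≤ m
    · obtain ⟨j, h1, h2⟩ := hG m h
      exact ⟨j, fun _ => ⟨h1, h2⟩⟩
    · exact ⟨0, fun h' => absurd h' h⟩
  choose J hJ using hJ
  have hm : ∀ k j : ℕ, m1 ≤ 2 ^ (m1 + k * (s + 1)) * 3 ^ j := by
    intro k j
    have h1 : m1 ≤ 2 ^ m1 := Nat.lt_two_pow_self.le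
    have h2 : 2 ^ m1 ≤ 2 ^ (m1 + k * (s + 1)) := Nat.pow_le_pow_right (by norm_num) (Nat.le_add_right _ _)
    have h3 : 1 ≤ 3 ^ j := Nat.one_le_pow _ _ (by norm_num)
    calc m1 ≤ 2 ^ (m1 + k * (s + 1)) := h1.trans h2
      _ = 2 ^ (m1 + k * (s + 1)) * 1 := (mul_one _).symm
      _ ≤ _ := Nat.mul_le_mul le_rfl h3
  refine ⟨1 / (2 * ((s : ℝ) + 1)), ((m1 : ℝ) + s) ^ 2 + 1, by positivity, by positivity, fun a => ?_⟩
  obtain ⟨Q, hQ⟩ : ∃ Q, Q = (a + 1 - m1) / (s + 1) := ⟨_, rfl⟩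
  let φ : ℕ × ℕ → ℕ × ℕ := fun z =>
    (m1 + z.1 * (s + 1) + J (2 ^ (m1 + z.1 * (s + 1)) * 3 ^ z.2), z.2)
  have hφ : Function.Injective φ := by
    rintro ⟨k, j⟩ ⟨k', j'⟩ h
    have h1 : j = j' := congrArg Prod.snd h
    subst h1
    have h2 : m1 + k * (s + 1) + J (2 ^ (m1 + k * (s + 1)) * 3 ^ j) =
        m1 + k' * (s + 1) + J (2 ^ (m1 + k' * (s + 1)) * 3 ^ j) := congrArg Prod.fst h
    have h3 := (hJ _ (hm k j)).1
    have h4 := (hJ _ (hm k' j)).1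
    have h5 : k = k' := by
      have e1 : (k * (s + 1) + J (2 ^ (m1 + k * (s + 1)) * 3 ^ j)) / (s + 1) = k := by
        rw [add_comm, Nat.add_mul_div_right _ _ (Nat.succ_pos s), Nat.div_eq_of_lt (by omega), zero_add]
      have e2 : (k' * (s + 1) + J (2 ^ (m1 + k' * (s + 1)) * 3 ^ j)) / (s + 1) = k' := by
        rw [add_comm, Nat.add_mul_div_right _ _ (Nat.succ_pos s), Nat.div_eq_of_lt (by omega), zero_add]
      rw [← e1, ← e2]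
      congr 1
      omega
    rw [h5]
  refine ⟨(Finset.range Q ×ˢ Finset.range (a + 1)).image φ, ?_, ?_⟩
  · rw [Finset.card_image_of_injective _ hφ, Finset.card_product, Finset.card_range, Finset.card_range]
    have h1 : a + 1 - m1 < (s + 1) * (Q + 1) := by
      rw [hQ]
      exact Nat.lt_mul_div_succ _ (Nat.succ_pos s)
    have h2 : a + 1 < m1 + (s + 1) * (Q + 1) := by omega
    have h3 : (a : ℝ) + 1 < m1 + ((s : ℝ) + 1) * ((Q : ℝ) + 1) := by exact_mod_cast h2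
    have h4 : (a : ℝ) - (m1 + s) ≤ ((s : ℝ) + 1) * Q := by nlinarith
    have ha : (0 : ℝ) ≤ a := Nat.cast_nonneg a
    have hq : (0 : ℝ) ≤ Q := Nat.cast_nonneg Q
    have hs : (0 : ℝ) < (s : ℝ) + 1 := by positivity
    have h5 : ((a : ℝ) - (m1 + s)) * a ≤ ((s : ℝ) + 1) * Q * ((a : ℝ) + 1) := by
      have h6 := mul_le_mul_of_nonneg_right h4 ha
      have h7 : 0 ≤ ((s : ℝ) + 1) * Q := mul_nonneg hs.le hq
      nlinarith
    have h8 : (a : ℝ) ^ 2 / 2 - ((m1 : ℝ) + s) ^ 2 / 2 ≤ ((s : ℝ) + 1) * Q * ((a : ℝ) + 1) := by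
      nlinarith [sq_nonneg ((a : ℝ) - (m1 + s))]
    have h9 : 1 / (2 * ((s : ℝ) + 1)) * (a : ℝ) ^ 2 - (((m1 : ℝ) + s) ^ 2 + 1) =
        ((a : ℝ) ^ 2 / 2 - ((s : ℝ) + 1) * (((m1 : ℝ) + s) ^ 2 + 1)) / ((s : ℝ) + 1) := by
      field_simp
    push_cast
    rw [h9, div_le_iff₀ hs]
    have h10 : (0 : ℝ) ≤ s * ((m1 : ℝ) + s) ^ 2 := by positivity
    have h11 : (0 : ℝ) ≤ ((m1 : ℝ) + s) ^ 2 := sq_nonneg _
    nlinarith
  · intro x hx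
    obtain ⟨⟨k, j⟩, hz, rfl⟩ := Finset.mem_image.1 hx
    obtain ⟨hk, hj⟩ := Finset.mem_product.1 hz
    have hk' : k < Q := Finset.mem_range.1 hk
    have hj' : j < a + 1 := Finset.mem_range.1 hj
    obtain ⟨h3, h4⟩ := hJ _ (hm k j)
    have h5 : (k + 1) * (s + 1) ≤ a + 1 - m1 := by
      calc (k + 1) * (s + 1) ≤ Q * (s + 1) := Nat.mul_le_mul hk' le_rfl
        _ ≤ a + 1 - m1 := by
          rw [hQ]
          exact Nat.div_mul_le_self _ _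
    have h6 : (k + 1) * (s + 1) = k * (s + 1) + (s + 1) := by ring
    rw [h6] at h5
    refine ⟨?_, by change j ≤ a; omega, ?_⟩
    · change m1 + k * (s + 1) + J (2 ^ (m1 + k * (s + 1)) * 3 ^ j) ≤ a
      omega
    · change G (2 ^ (m1 + k * (s + 1) + J (2 ^ (m1 + k * (s + 1)) * 3 ^ j)) * 3 ^ j)
      have h7 : 2 ^ (m1 + k * (s + 1) + J (2 ^ (m1 + k * (s + 1)) * 3 ^ j)) * 3 ^ j =
          2 ^ J (2 ^ (m1 + k * (s + 1)) * 3 ^ j) * (2 ^ (m1 + k * (s + 1)) * 3 ^ j) := by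
        rw [pow_add]
        ring
      rw [h7]
      exact h4

end FB
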