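import Pool.Agent.Lib.MP_17a322_ntFB.NDefs

/-!
LEAF N7.  The duplication and triplication formulas.
Proof. `RO.A1_self (EK A B) P` and `RO.A1_exists (EK A B) (2 • P) P` (namespace `Pool.Agent.Lib.MP_17a322_nt.RO`), with
`RO.A1_eval0, A1_eval1, A1_eval2`; for `EK A B`: `b₂ = 0`, `b₄ = 2 A`, `b₆ = 4 B`, `b₈ = - A ^ 2`.  With `P = (x, y)`,
`2 • P = P + P = (X, Y)`: `Affine.Point.sym2x_some_some` gives the vector `(x ^ 2, 2 x, 1)`, `sym2x_some_zero` the vector `(X, 1, 0)`,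
so the entries 1 and 0 are `4 (x ^ 3 + A x + B) = c` and `x ^ 4 - 2 A x ^ 2 - 8 B x + A ^ 2 = c X`.
Tripling: the vector of `(2 • P, P)` is `(X x, X + x, 1)`, `2 • P + P = 3 • P`, `2 • P - P = P`; the entries 2 and 0 are
`(X + x) ^ 2 - 4 X x = c` and `(X x) ^ 2 - 2 A X x - 4 B (X + x) + A ^ 2 = c Y x`.
-/

namespace FB

open VK

private theorem N7_b2 {F : Type} [Field F] (A B : F) : (EK A B).b₂ = 0 := by
  simp [EK, WeierstrassCurve.b₂]

private theorem N7_b4 {F : Type} [Field F] (A B : F) : (EK A B).b₄ = 2 * A := by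
  simp [EK, WeierstrassCurve.b₄]

private theorem N7_b6 {F : Type} [Field F] (A B : F) : (EK A B).b₆ = 4 * B := by
  simp [EK, WeierstrassCurve.b₆]

private theorem N7_b8 {F : Type} [Field F] (A B : F) : (EK A B).b₈ = -A ^ 2 := by
  simp [EK, WeierstrassCurve.b₈]

theorem dup_pt {F : Type} [Field F] [DecidableEq F] {A B : F} (P : Pt A B) (h1 : P ≠ 0) (h2 : 2 • P ≠ 0) :
    Dup A B (xc P) (xc (2 • P)) := by
  obtain ⟨c, hc⟩ := Pool.Agent.Lib.MP_17a322_nt.RO.A1_self (EK A B) P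
  have e0 := hc 0
  have e1 := hc 1
  rw [Pool.Agent.Lib.MP_17a322_nt.RO.A1_eval0, N7_b4, N7_b6, N7_b8] at e0
  rw [Pool.Agent.Lib.MP_17a322_nt.RO.A1_eval1, N7_b2, N7_b4, N7_b6] at e1
  rw [two_nsmul] at h2 ⊢
  generalize P + P = R at h2 e0 e1 ⊢
  rcases P with _ | ⟨x, y, h⟩
  · exact absurd rfl h1
  rcases R with _ | ⟨X, Y, h'⟩
  · exact absurd rfl h2
  rw [WeierstrassCurve.Affine.Point.sym2x_some_some,
    WeierstrassCurve.Affine.Point.sym2x_some_zero] at e0 e1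
  simp at e0 e1
  simp only [Dup, xc]
  linear_combination X * e1 - e0

theorem trip_pt {F : Type} [Field F] [DecidableEq F] {A B : F} (P : Pt A B) (h1 : P ≠ 0) (h2 : 2 • P ≠ 0)
    (h3 : 3 • P ≠ 0) : Trip A B (xc P) (xc (2 • P)) (xc (3 • P)) := by
  obtain ⟨c, hc⟩ := Pool.Agent.Lib.MP_17a322_nt.RO.A1_exists (EK A B) (2 • P) P
  have e0 := hc 0
  have e2 := hc 2
  rw [Pool.Agent.Lib.MP_17a322_nt.RO.A1_eval0, N7_b4, N7_b6, N7_b8] at e0
  rw [Pool.Agent.Lib.MP_17a322_nt.RO.A1_eval2] at e2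
  have s3 : 2 • P + P = 3 • P := by
    rw [← succ_nsmul]
  have s1 : 2 • P - P = P := by
    rw [two_nsmul, add_sub_cancel_right]
  rw [s3, s1] at e0 e2
  generalize 3 • P = S at h3 e0 e2 ⊢
  generalize 2 • P = R at h2 e0 e2 ⊢
  rcases P with _ | ⟨x, y, h⟩
  · exact absurd rfl h1
  rcases R with _ | ⟨X, Y, h'⟩
  · exact absurd rfl h2
  rcases S with _ | ⟨Z, W, h''⟩
  · exact absurd rfl h3
  rw [WeierstrassCurve.Affine.Point.sym2x_some_some,
    WeierstrassCurve.Affine.Point.sym2x_some_some] at e0 e2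
  simp at e0 e2
  simp only [Trip, xc]
  linear_combination (Z * x) * e2 - e0

end FB
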