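import Pool.Agent.Lib.MP_17a322_ntFB.NDefs

/-!
LEAF N8.  The height of the multiples of a point of infinite order.
Proof. As `RO.height_growth` (`Lib/MP_17a322_nt/RO/A3`).  `(EK A B).IsElliptic` from `hd` as in `VK.mwK`
(`Lib/MP_17a322_ntVK/EB`).  `RO.parallelogram`, `RO.exists_quadratic` for `h P = logHeight P.xRep`, giving `q' : Pt A B → ℝ` and
`C'`; `q = q' P0`, `q' (m • P0) = m ^ 2 q` (`RO.quadratic_zsmul`).  `q ≥ 0`; if `q = 0` then all the points `m • P0` have height at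
most `C'`, so `RO.A3_finite`, `RO.A3_pigeon` give `n • P0 = 0` for some `n > 0`, against `hP`.  Finally
`logHeight (some x y h).xRep = logHeight ![x, 1] = logHeight₁ x` (`Affine.Point.xRep_some`, `Height.logHeight₁_eq_logHeight`).
-/

namespace FB

open NumberField VK

theorem quad {K : Type} [Field K] [NumberField K] [DecidableEq K] {A B : K} (hd : ds A B ≠ 0) {P0 : Pt A B}
    (hP : ∀ n : ℕ, 0 < n → n • P0 ≠ 0) :
    ∃ q C : ℝ, 0 < q ∧ ∀ m : ℕ, 1 ≤ m → |Height.logHeight₁ (xc (m • P0)) - q * (m : ℝ) ^ 2| ≤ C := by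
  have hΔ : (EK A B).Δ = -16 * ds A B := by
    simp only [EK, WeierstrassCurve.Δ, WeierstrassCurve.b₂, WeierstrassCurve.b₄,
      WeierstrassCurve.b₆, WeierstrassCurve.b₈, ds]
    ring
  have hΔ0 : (EK A B).Δ ≠ 0 := by
    rw [hΔ]
    exact mul_ne_zero (by norm_num) hd
  have : (EK A B).IsElliptic := ⟨isUnit_iff_ne_zero.2 hΔ0⟩
  obtain ⟨C0, hC0⟩ := Pool.Agent.Lib.MP_17a322_nt.RO.parallelogram (EK A B)
  obtain ⟨q, C', hq1, hq2, hq3⟩ := Pool.Agent.Lib.MP_17a322_nt.RO.exists_quadratic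
    (fun P : Pt A B => Height.logHeight P.xRep) ⟨0, fun P => Height.logHeight_nonneg _⟩ C0 hC0
  have hm : ∀ m : ℤ, q (m • P0) = (m : ℝ) ^ 2 * q P0 := fun m =>
    Pool.Agent.Lib.MP_17a322_nt.RO.quadratic_zsmul q hq3 P0 m
  rcases eq_or_lt_of_le (hq2 P0) with h0 | h0
  · exfalso
    have hfin := Pool.Agent.Lib.MP_17a322_nt.RO.A3_finite (EK A B) C'
    have hmem : ∀ m : ℤ, m • P0 ∈ {P : (EK A B).toAffine.Point | Height.logHeight P.xRep ≤ C'} := by
      intro m
      have h1 := hq1 (m • P0)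
      rw [hm m, ← h0, mul_zero, zero_sub, abs_neg] at h1
      exact (le_abs_self _).trans h1
    obtain ⟨a, b, hab, hne⟩ := Pool.Agent.Lib.MP_17a322_nt.RO.A3_pigeon hfin (fun m : ℤ => m • P0) hmem
    have h2 : (a - b) • P0 = 0 := by
      rw [sub_smul, sub_eq_zero]
      exact hne
    refine hP (a - b).natAbs (Int.natAbs_pos.2 (sub_ne_zero.2 hab)) ?_
    rcases Int.natAbs_eq (a - b) with h3 | h3
    · rw [h3, natCast_zsmul] at h2
      exact h2
    · rw [h3, neg_smul, natCast_zsmul, neg_eq_zero] at h2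
      exact h2
  · refine ⟨q P0, C', h0, fun m hm1 => ?_⟩
    have h1 : Height.logHeight₁ (xc (m • P0)) = Height.logHeight (m • P0).xRep := by
      have h2 := hP m (by omega)
      generalize m • P0 = R at h2 ⊢
      rcases R with _ | ⟨x, y, h⟩
      · exact absurd rfl h2
      · rw [WeierstrassCurve.Affine.Point.xRep_some, ← Height.logHeight₁_eq_logHeight]
        rfl
    have h3 := hq1 (m • P0)
    have h4 := hm (m : ℤ)
    rw [natCast_zsmul, Int.cast_natCast] at h4
    rw [h4] at h3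
    rw [h1, abs_sub_comm, mul_comm (q P0)]
    exact h3

end FB
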