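import Pool.Agent.Lib.MP_17a322_ntFB.NDefs

/-!
LEAF N9.  The decomposition of the height.
Proof. `bd_fin`: `v 6 < 1` gives `v 6 ≠ 1`, and `FinitePlace.hasFiniteMulSupport (x := 6)`.  `gd_fin`: `gd v x ≠ 0` gives
`Real.posLog (v x) ≠ 0`, so `1 < v x` (`x ≠ 0`), and `FinitePlace.hasFiniteMulSupport`.  `ht_split`:
`NumberField.logHeight₁_eq`, `Fintype.sum_sum_type`; `Real.posLog (v x) = gd v x + gb v x` with
`gb v x = if v 6 < 1 then Real.posLog (v x) else 0`, `finsum_add_distrib` (finite supports), and
`∑ᶠ v, gb v x = ∑ v : Bd K, Real.posLog (v.1 x)` (e.g. `finsum_mem_def` / `finsum_subtype_eq_finsum_mem`,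
`finsum_eq_sum_of_fintype`).
-/

namespace FB

open Finset NumberField VK

theorem bd_fin (K : Type) [Field K] [NumberField K] : Finite (Bd K) := by
  have h := FinitePlace.hasFiniteMulSupport (K := K) (x := (6 : K)) (by norm_num)
  refine Set.Finite.to_subtype (h.subset ?_)
  intro v hv
  rw [Function.mem_mulSupport]
  exact ne_of_lt hv

theorem gd_fin {K : Type} [Field K] [NumberField K] (x : K) :
    (Function.support fun v : FinitePlace K => gd v x).Finite := by
  rcases eq_or_ne x 0 with h0 | h0
  · refine Set.finite_empty.subset ?_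
    intro v hv
    rw [Function.mem_support] at hv
    refine (hv ?_).elim
    show gd v x = 0
    unfold gd
    split_ifs
    · rfl
    · rw [h0, map_zero, Real.posLog_zero]
  · have h := FinitePlace.hasFiniteMulSupport (K := K) h0
    refine h.subset ?_
    intro v hv
    rw [Function.mem_support] at hv
    rw [Function.mem_mulSupport]
    intro h1
    refine hv ?_
    show gd v x = 0
    unfold gd
    split_ifs
    · rfl
    · rw [h1, Real.posLog_one]

theorem ht_split {K : Type} [Field K] [NumberField K] [Fintype (Bd K)] (x : K) :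
    Height.logHeight₁ x = ∑ s, gs s x + ∑ᶠ v : FinitePlace K, gd v x := by
  classical
  rw [NumberField.logHeight₁_eq, Fintype.sum_sum_type]
  have e1 : ∀ v : FinitePlace K, Real.posLog (v x) = (if v (6 : K) < 1 then Real.posLog (v x) else 0) + gd v x := by
    intro v
    unfold gd
    split_ifs
    · rw [add_zero]
    · rw [zero_add]
  have hf : (Function.support fun v : FinitePlace K => if v (6 : K) < 1 then Real.posLog (v x) else 0).Finite := by
    have hfin : Finite (Bd K) := bd_fin K
    refine (@Set.toFinite _ {v : FinitePlace K | v (6 : K) < 1} hfin).subset ?_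
    intro v hv
    rw [Function.mem_support] at hv
    by_contra h
    exact hv (if_neg h)
  have e2 : ∑ᶠ v : FinitePlace K, Real.posLog (v x) =
      ∑ᶠ v : FinitePlace K, (if v (6 : K) < 1 then Real.posLog (v x) else 0) + ∑ᶠ v : FinitePlace K, gd v x := by
    rw [← finsum_add_distrib hf (gd_fin x)]
    exact finsum_congr e1
  have e3 : ∑ᶠ v : FinitePlace K, (if v (6 : K) < 1 then Real.posLog (v x) else 0) =
      ∑ v : Bd K, Real.posLog (v.1 x) := by
    rw [← finsum_eq_sum_of_fintype]
    refine Eq.trans ?_ (finsum_subtype_eq_finsum_cond (f := fun v : FinitePlace K => Real.posLog (v x))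
      (fun v : FinitePlace K => v (6 : K) < 1)).symm
    exact finsum_congr fun v => finsum_eq_if.symm
  rw [e2, e3, ← add_assoc]
  rfl

end FB
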