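import Pool.Agent.Lib.MP_17a322_ntFB.N1
import Pool.Agent.Lib.MP_17a322_ntFB.N2
import Pool.Agent.Lib.MP_17a322_ntFB.N3
import Pool.Agent.Lib.MP_17a322_ntFB.N7
import Pool.Agent.Lib.MP_17a322_ntFB.N8
import Pool.Agent.Lib.MP_17a322_ntFB.N9
import Pool.Agent.Lib.MP_17a322_ntFB.N10
import Pool.Agent.Lib.MP_17a322_ntFB.N11
import Pool.Agent.Lib.MP_17a322_ntFB.N13

/-!
# Many places at which a multiple of a point of infinite order reduces to the point at infinity
-/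

namespace FB

open Finset NumberField VK

private theorem NM_ds {K : Type} [Field K] [NumberField K] {A B : 𝓞 K} (hd : ds A B ≠ 0) : ds (A : K) (B : K) ≠ 0 := by
  have h : ds (A : K) (B : K) = algebraMap (𝓞 K) K (ds A B) := by
    simp only [ds, map_add, map_mul, map_pow, map_ofNat]
  rw [h]
  exact RingOfIntegers.coe_ne_zero_iff.2 hd

private theorem NM_gd_pos {K : Type} [Field K] [NumberField K] {v : FinitePlace K} {y : K} (h : 0 < gd v y) :
    ¬ v (6 : K) < 1 ∧ 1 < v y := by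
  unfold gd at h
  by_cases h6 : v (6 : K) < 1
  · rw [if_pos h6] at h
    exact absurd h (lt_irrefl _)
  · rw [if_neg h6] at h
    refine ⟨h6, ?_⟩
    by_contra h1
    have h2 : Real.posLog (v y) = 0 := by
      rw [Real.posLog_eq_zero_iff, abs_of_nonneg (apply_nonneg v y)]
      exact not_lt.1 h1
    rw [h2] at h
    exact absurd h (lt_irrefl _)

private theorem NM_gd_eq {K : Type} [Field K] [NumberField K] {v : FinitePlace K} {y : K} (h6 : ¬ v (6 : K) < 1) :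
    gd v y = Real.posLog (v y) := by
  unfold gd
  rw [if_neg h6]

private theorem NM_gd_zero {K : Type} [Field K] [NumberField K] {v : FinitePlace K} {y : K} (h6 : ¬ v (6 : K) < 1)
    (h : gd v y = 0) : v y ≤ 1 := by
  rw [NM_gd_eq h6, Real.posLog_eq_zero_iff, abs_of_nonneg (apply_nonneg v y)] at h
  exact h

private theorem NM_gd_nonneg {K : Type} [Field K] [NumberField K] (v : FinitePlace K) (y : K) : 0 ≤ gd v y := by
  unfold gd
  split_ifs
  · exact le_refl _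
  · exact Real.posLog_nonneg

private theorem NM_gs_nonneg {K : Type} [Field K] [NumberField K] (s : InfinitePlace K ⊕ Bd K) (y : K) : 0 ≤ gs s y := by
  rcases s with w | v
  · exact mul_nonneg (Nat.cast_nonneg _) Real.posLog_nonneg
  · exact Real.posLog_nonneg

/-- the data of the multiples of a point -/
private theorem NM_data {K : Type} [Field K] [NumberField K] [DecidableEq K] {A B : 𝓞 K} (hd : ds A B ≠ 0)
    {P0 : Pt (A : K) (B : K)} (hP : ∀ n : ℕ, 0 < n → n • P0 ≠ 0) :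
    ∃ (q C : ℝ) (m2 s m1 : ℕ), 0 < q ∧ 0 ≤ C ∧ 1 ≤ m2 ∧
      (∀ m : ℕ, 1 ≤ m → Height.logHeight₁ (xc (m • P0)) ≤ q * (m : ℝ) ^ 2 + C) ∧
      ∃ G : ℕ → Prop, (∀ m : ℕ, m1 ≤ m → ∃ j : ℕ, j ≤ s ∧ G (2 ^ j * m)) ∧
        ∀ m, 1 ≤ m → G m → ∃ v : FinitePlace K, 0 < gd v (xc (m • P0)) ∧ (∀ k, m = 2 * k → gd v (xc (k • P0)) = 0) ∧
          (∀ k, m = 3 * k → gd v (xc (k • P0)) = 0) := by
  classical
  have : Finite (Bd K) := bd_fin K
  have : Fintype (Bd K) := Fintype.ofFinite _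
  obtain ⟨q, C, hq, hC⟩ := quad (NM_ds hd) hP
  have hdup : ∀ m : ℕ, 1 ≤ m → Dup (A : K) (B : K) (xc (m • P0)) (xc ((2 * m) • P0)) := by
    intro m hm
    have h := dup_pt (m • P0) (hP m hm) (by rw [smul_smul]; exact hP _ (by omega))
    rw [smul_smul] at h
    exact h
  have htrip : ∀ m : ℕ, 1 ≤ m → Trip (A : K) (B : K) (xc (m • P0)) (xc ((2 * m) • P0)) (xc ((3 * m) • P0)) := by
    intro m hm
    have h := trip_pt (m • P0) (hP m hm) (by rw [smul_smul]; exact hP _ (by omega))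
      (by rw [smul_smul]; exact hP _ (by omega))
    rw [smul_smul, smul_smul] at h
    exact h
  choose L c hLc using fun s : InfinitePlace K ⊕ Bd K => gs_win A B s
  have hh : ∀ m : ℕ, 1 ≤ m → Height.logHeight₁ (xc (m • P0)) = ∑ s, gs s (xc (m • P0)) +
      ∑ᶠ v : FinitePlace K, gd v (xc (m • P0)) := fun m _ => ht_split _
  have hC0 : 0 ≤ C := (abs_nonneg _).trans (hC 1 le_rfl)
  have hfs : ∀ m : ℕ, 0 ≤ ∑ᶠ v : FinitePlace K, gd v (xc (m • P0)) := fun m =>
    finsum_nonneg fun v => NM_gd_nonneg v _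
  have hup : ∀ m : ℕ, 1 ≤ m → Height.logHeight₁ (xc (m • P0)) ≤ q * (m : ℝ) ^ 2 + C := by
    intro m hm
    have h := (abs_le.1 (hC m hm)).2
    linarith
  obtain ⟨m1, hm1, hwin⟩ := window (L := ∑ s, |L s|) (c := ∑ s, |c s|) (C := C) hq
    (fun s m => gs s (xc (m • P0))) (fun s m => NM_gs_nonneg s _) (fun m hm => by
      have h1 := hup m hm
      have h2 := hh m hm
      have h3 := hfs m
      linarith) (fun s m hm hL => by
      have h1 : L s ≤ gs s (xc (m • P0)) :=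
        ((le_abs_self _).trans (Finset.single_le_sum (fun s _ => abs_nonneg (L s)) (Finset.mem_univ s))).trans hL
      exact ((hLc s _ _ (hdup m hm) h1).trans (le_abs_self _)).trans
        (Finset.single_le_sum (fun s _ => abs_nonneg (c s)) (Finset.mem_univ s)))
  have hpl : ∀ (v : FinitePlace K) (m : ℕ), 1 ≤ m → 0 < gd v (xc (m • P0)) →
      v (xc ((2 * m) • P0)) = v (xc (m • P0)) ∧ v (xc ((3 * m) • P0)) = v (xc (m • P0)) ∧ ¬ v (6 : K) < 1 := by
    intro v m hm h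
    obtain ⟨h6, hx⟩ := NM_gd_pos h
    obtain ⟨e2, e3⟩ := fp_six v h6
    obtain ⟨a1, a2⟩ := na_dup v.1 (fp_add v) e2 e3 (fp_int v A) (fp_int v B) hx (hdup m hm)
    exact ⟨a1, na_trip v.1 (fp_add v) (fp_int v A) (fp_int v B) hx a1 a2 (htrip m hm), h6⟩
  obtain ⟨m2, hm2, hprim⟩ := prim_place (C := C) hq (fun (v : FinitePlace K) m => gd v (xc (m • P0)))
    (fun m => ∑ s, gs s (xc (m • P0))) (fun m => Height.logHeight₁ (xc (m • P0))) (fun v m => NM_gd_nonneg v _)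
    (fun m => gd_fin _) (fun m => Finset.sum_nonneg fun s _ => NM_gs_nonneg s _) hh hC
    (fun v m hm h => by
      obtain ⟨a1, a2, a3⟩ := hpl v m hm h
      rw [NM_gd_eq a3, NM_gd_eq a3, a1])
    (fun v m hm h => by
      obtain ⟨a1, a2, a3⟩ := hpl v m hm h
      rw [NM_gd_eq a3, NM_gd_eq a3, a2])
  refine ⟨q, C, m2, Fintype.card (InfinitePlace K ⊕ Bd K), max m1 m2, hq, hC0, hm2, hup,
    fun m => m2 ≤ m ∧ ∑ s, gs s (xc (m • P0)) ≤ q / 2 * (m : ℝ) ^ 2, fun m hm => ?_, fun m hm hG => ?_⟩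
  · obtain ⟨j, hj, h⟩ := hwin m ((le_max_left _ _).trans hm)
    refine ⟨j, hj, ?_, h⟩
    exact ((le_max_right _ _).trans hm).trans (Nat.le_mul_of_pos_left m (by positivity))
  · exact hprim m hG.1 hG.2

theorem prim {K : Type} [Field K] [NumberField K] [DecidableEq K] {A B : 𝓞 K} (hd : ds A B ≠ 0)
    {P0 : Pt (A : K) (B : K)} (hP : ∀ n : ℕ, 0 < n → n • P0 ≠ 0) :
    ∃ c₁ C₁ : ℝ, 0 < c₁ ∧ 0 < C₁ ∧ ∀ a : ℕ, ∃ T : Finset (IsDedekindDomain.HeightOneSpectrum (𝓞 K)),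
      c₁ * (a : ℝ) ^ 2 - C₁ ≤ T.card ∧ (∀ v ∈ T, inK (v.valuation K).valuationSubring ((6 ^ a) • P0)) ∧
      ∑ v ∈ T, Real.log (Ideal.absNorm v.asIdeal) ≤ C₁ * 36 ^ a := by
  classical
  obtain ⟨q, C, m2, s, m1, hq, hC0, hm2, hup, G, hG, hv⟩ := NM_data hd hP
  obtain ⟨c₁, C₁, hc, hC1, hcount⟩ := count_good s m1 G hG
  have : Finite (Bd K) := bd_fin K
  have : Fintype (Bd K) := Fintype.ofFinite _
  refine ⟨c₁, C₁ + q + C, hc, by linarith, fun a => ?_⟩
  obtain ⟨S, hS, hSG⟩ := hcount a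
  have hpos : ∀ x : ℕ × ℕ, 1 ≤ 2 ^ x.1 * 3 ^ x.2 := fun x => Nat.one_le_iff_ne_zero.2 (by positivity)
  have hex : ∀ x : ℕ × ℕ, ∃ v : FinitePlace K, x ∈ S → 0 < gd v (xc ((2 ^ x.1 * 3 ^ x.2) • P0)) ∧
      (∀ k, 2 ^ x.1 * 3 ^ x.2 = 2 * k → gd v (xc (k • P0)) = 0) ∧
      (∀ k, 2 ^ x.1 * 3 ^ x.2 = 3 * k → gd v (xc (k • P0)) = 0) := by
    intro x
    by_cases hx : x ∈ S
    · obtain ⟨v, h⟩ := hv _ (hpos x) (hSG x hx).2.2
      exact ⟨v, fun _ => h⟩
    · obtain ⟨v, -⟩ := hv (2 ^ (Classical.choose (hG (m1 + 1) (by omega))) * (m1 + 1))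
        (Nat.one_le_iff_ne_zero.2 (by positivity)) (Classical.choose_spec (hG (m1 + 1) (by omega))).2
      exact ⟨v, fun h => absurd h hx⟩
  choose V hV using hex
  -- the relation between `inK` and the local height
  have hin : ∀ (v : FinitePlace K) (m : ℕ), 1 ≤ m →
      (inK (v.maximalIdeal.valuation K).valuationSubring (m • P0) ↔ 1 < v (xc (m • P0))) := by
    intro v m hm
    rw [inK_xc _ (hP m hm), fp_in, not_le]
  have hA : ∀ (v : FinitePlace K) (D : 𝓞 K), (D : K) ∈ (v.maximalIdeal.valuation K).valuationSubring := fun v D =>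
    (fp_in v _).2 (fp_int v D)
  have hK1 : ∀ x ∈ S, inK ((V x).maximalIdeal.valuation K).valuationSubring ((2 ^ x.1 * 3 ^ x.2) • P0) := by
    intro x hx
    rw [hin _ _ (hpos x)]
    exact (NM_gd_pos (hV x hx).1).2
  have hK2 : ∀ x ∈ S, ∀ k, 1 ≤ k → gd (V x) (xc (k • P0)) = 0 →
      ¬ inK ((V x).maximalIdeal.valuation K).valuationSubring (k • P0) := by
    intro x hx k hk h
    rw [hin _ _ hk, not_lt]
    exact NM_gd_zero (NM_gd_pos (hV x hx).1).1 h
  have hinj : Set.InjOn (fun x => (V x).maximalIdeal) (S : Set (ℕ × ℕ)) := by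
    intro x hx y hy hxy
    have hxy' : V x = V y := FinitePlace.maximalIdeal_injective hxy
    have key := prim_inj (fun k => inK ((V x).maximalIdeal.valuation K).valuationSubring (k • P0))
      (fun k m h => inK_mul _ (hA _ A) (hA _ B) k m h) (fun k m h h' => inK_gcd _ (hA _ A) (hA _ B) k m h h')
      (i := x.1) (j := x.2) (i' := y.1) (j' := y.2) (hK1 x hx) (by rw [hxy']; exact hK1 y hy)
      (fun k hk => hK2 x hx k (by have := hpos x; omega) ((hV x hx).2.1 k hk))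
      (fun k hk => hK2 x hx k (by have := hpos x; omega) ((hV x hx).2.2 k hk))
      (fun k hk => by rw [hxy']; exact hK2 y hy k (by have := hpos y; omega) ((hV y hy).2.1 k hk))
      (fun k hk => by rw [hxy']; exact hK2 y hy k (by have := hpos y; omega) ((hV y hy).2.2 k hk))
    exact Prod.ext key.1 key.2
  have h6 : 1 ≤ 6 ^ a := Nat.one_le_iff_ne_zero.2 (by positivity)
  have hK6 : ∀ x ∈ S, inK ((V x).maximalIdeal.valuation K).valuationSubring ((6 ^ a) • P0) := by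
    intro x hx
    obtain ⟨h1, h2, -⟩ := hSG x hx
    have e : (6 : ℕ) ^ a = (2 ^ (a - x.1) * 3 ^ (a - x.2)) * (2 ^ x.1 * 3 ^ x.2) := by
      have e1 : (2 : ℕ) ^ a = 2 ^ (a - x.1) * 2 ^ x.1 := by rw [← pow_add]; congr 1; omega
      have e2 : (3 : ℕ) ^ a = 3 ^ (a - x.2) * 3 ^ x.2 := by rw [← pow_add]; congr 1; omega
      rw [show (6 : ℕ) = 2 * 3 from rfl, mul_pow, e1, e2]
      ring
    rw [e]
    exact inK_mul _ (hA _ A) (hA _ B) _ _ (hK1 x hx)
  refine ⟨S.image fun x => (V x).maximalIdeal, ?_, ?_, ?_⟩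
  · rw [Finset.card_image_of_injOn hinj]
    linarith
  · intro v hv'
    obtain ⟨x, hx, rfl⟩ := Finset.mem_image.1 hv'
    exact hK6 x hx
  · rw [Finset.sum_image hinj]
    have h1 : ∀ x ∈ S, Real.log (Ideal.absNorm (V x).maximalIdeal.asIdeal) ≤ gd (V x) (xc ((6 ^ a) • P0)) := by
      intro x hx
      have h2 : 1 < (V x) (xc ((6 ^ a) • P0)) := (hin _ _ h6).1 (hK6 x hx)
      rw [NM_gd_eq (NM_gd_pos (hV x hx).1).1, Real.posLog_eq_log (by rw [abs_of_pos (by linarith)]; exact h2.le)]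
      exact fp_log _ h2
    have h2 : ∑ x ∈ S, gd (V x) (xc ((6 ^ a) • P0)) ≤ ∑ᶠ v : FinitePlace K, gd v (xc ((6 ^ a) • P0)) := by
      have hinjV : Set.InjOn V (S : Set (ℕ × ℕ)) := fun x hx y hy h => hinj hx hy (by
        change (V x).maximalIdeal = (V y).maximalIdeal
        rw [h])
      rw [← Finset.sum_image (f := fun v => gd v (xc ((6 ^ a) • P0))) hinjV,
        finsum_eq_sum_of_support_subset _ (s := (gd_fin (xc ((6 ^ a) • P0))).toFinset ∪ S.image V)
          (by intro v hv'; simp only [coe_union, Set.Finite.coe_toFinset, Set.mem_union]; exact Or.inl hv')]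
      exact Finset.sum_le_sum_of_subset_of_nonneg Finset.subset_union_right fun v _ _ => NM_gd_nonneg v _
    have h3 := ht_split (xc ((6 ^ a) • P0))
    have h4 : 0 ≤ ∑ s, gs s (xc ((6 ^ a) • P0)) := Finset.sum_nonneg fun s _ => NM_gs_nonneg s _
    have h5 := hup (6 ^ a) h6
    have h7 : ((6 ^ a : ℕ) : ℝ) ^ 2 = 36 ^ a := by
      push_cast
      rw [← pow_mul, mul_comm, pow_mul]
      norm_num
    rw [h7] at h5
    have h8 := Finset.sum_le_sum h1
    have h9 : (1 : ℝ) ≤ 36 ^ a := one_le_pow₀ (by norm_num)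
    have h10 : C ≤ C * 36 ^ a := le_mul_of_one_le_right hC0 h9
    have h11 : 0 ≤ C₁ * 36 ^ a := by positivity
    nlinarith

end FB
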