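import Pool.Agent.Lib.MP_17a322_ntFB.PV2

/-!
# LEAF PL4: places with distinct residue characteristics

PROOF.  For `w ∈ T` let `ch w` be the residue characteristic (`char_RF`).  `S` = the image of `T` under `ch`, without the primes `< N0`; `v p` some `w ∈ T` with `ch w = p` (for `p ∈ S`, any place otherwise; `HeightOneSpectrum (𝓞 K)` is not empty: a maximal ideal containing `2`, or an element of `T`).
At most `Module.finrank ℚ K` elements of `T` have `ch w = p`: the product of these ideals divides `(p)`, so that `p ^ (their number) ≤ ∏ absNorm w ∣ absNorm (p) = p ^ finrank`; `p ∣ absNorm w`.  So `#T ≤ finrank * #(image)` and `#(image) ≤ #S + N0`.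
`log (∏ p ∈ S, p) = ∑ p ∈ S, log p ≤ ∑ p ∈ S, log (absNorm (v p)) ≤ ∑ w ∈ T, log (absNorm w)` (`v` injective on `S`, all terms `≥ 0`).
-/

namespace FB

open Finset NumberField VK IsDedekindDomain

private theorem PL4_absNorm_p (K : Type) [Field K] [NumberField K] (p : ℕ) :
    Ideal.absNorm (Ideal.span {(p : 𝓞 K)}) = p ^ Module.finrank ℚ K := by
  rw [Ideal.absNorm_span_natCast, RingOfIntegers.rank K]

private theorem PL4_dvd {K : Type} [Field K] [NumberField K] {p : ℕ} (hp : p.Prime)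
    (w : HeightOneSpectrum (𝓞 K)) (hw : (p : 𝓞 K) ∈ w.asIdeal) : p ∣ Ideal.absNorm w.asIdeal := by
  have h1 : w.asIdeal ∣ Ideal.span {(p : 𝓞 K)} := Ideal.dvd_span_singleton.2 hw
  have h2 : Ideal.absNorm w.asIdeal ∣ p ^ Module.finrank ℚ K := by
    rw [← PL4_absNorm_p K p]
    exact map_dvd Ideal.absNorm h1
  obtain ⟨k, _, hk⟩ := (Nat.dvd_prime_pow hp).1 h2
  rcases Nat.eq_zero_or_pos k with h0 | h0
  · exfalso
    rw [h0, pow_zero] at hk
    exact w.isPrime.ne_top (Ideal.absNorm_eq_one_iff.1 hk)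
  · rw [hk]
    exact dvd_pow_self p (by omega)

private theorem PL4_pos {K : Type} [Field K] [NumberField K] (w : HeightOneSpectrum (𝓞 K)) :
    0 < Ideal.absNorm w.asIdeal := by
  refine Nat.pos_of_ne_zero fun h => ?_
  exact w.ne_bot (Ideal.absNorm_eq_zero_iff.1 h)

private theorem PL4_card {K : Type} [Field K] [NumberField K] {p : ℕ} (hp : p.Prime)
    (U : Finset (HeightOneSpectrum (𝓞 K))) (hU : ∀ w ∈ U, (p : 𝓞 K) ∈ w.asIdeal) :
    U.card ≤ Module.finrank ℚ K := by
  classical
  have hinj : Function.Injective (HeightOneSpectrum.asIdeal : HeightOneSpectrum (𝓞 K) → Ideal (𝓞 K)) :=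
    fun a b h => HeightOneSpectrum.ext h
  have h1 : ∏ I ∈ U.image HeightOneSpectrum.asIdeal, I ∣ Ideal.span {(p : 𝓞 K)} := by
    refine Finset.prod_primes_dvd _ ?_ ?_
    · intro I hI
      obtain ⟨w, hw, rfl⟩ := Finset.mem_image.1 hI
      exact w.prime
    · intro I hI
      obtain ⟨w, hw, rfl⟩ := Finset.mem_image.1 hI
      exact Ideal.dvd_span_singleton.2 (hU w hw)
  rw [Finset.prod_image fun a _ b _ h => hinj h] at h1
  have h2 := map_dvd Ideal.absNorm h1
  rw [map_prod, PL4_absNorm_p] at h2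
  have h3 : p ^ U.card ∣ ∏ w ∈ U, Ideal.absNorm w.asIdeal := by
    rw [← Finset.prod_const]
    exact Finset.prod_dvd_prod_of_dvd _ _ fun w hw => PL4_dvd hp w (hU w hw)
  exact (Nat.pow_dvd_pow_iff_le_right hp.one_lt).1 (h3.trans h2)

theorem sel (K : Type) [Field K] [NumberField K] (T : Finset (HeightOneSpectrum (𝓞 K))) (N0 : ℕ) :
    ∃ (S : Finset ℕ) (v : ℕ → HeightOneSpectrum (𝓞 K)),
      (∀ p ∈ S, p.Prime ∧ N0 ≤ p ∧ CharP (RF (v p)) p ∧ v p ∈ T) ∧
      T.card ≤ Module.finrank ℚ K * (S.card + N0) ∧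
      Real.log (∏ p ∈ S, (p : ℝ)) ≤ ∑ w ∈ T, Real.log (Ideal.absNorm w.asIdeal) := by
  classical
  choose ch hch using fun w : HeightOneSpectrum (𝓞 K) => char_RF w
  obtain ⟨M, hM⟩ := Ideal.exists_maximal (𝓞 K)
  let w0 : HeightOneSpectrum (𝓞 K) :=
    ⟨M, hM.isPrime, Ring.ne_bot_of_isMaximal_of_not_isField hM (RingOfIntegers.not_isField K)⟩
  have hmem : ∀ w, (ch w : 𝓞 K) ∈ w.asIdeal := fun w => (char_mem (hch w).1).1 (hch w).2
  let v : ℕ → HeightOneSpectrum (𝓞 K) := fun p => if h : ∃ w ∈ T, ch w = p then h.choose else w0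
  have hv : ∀ p ∈ T.image ch, v p ∈ T ∧ ch (v p) = p := by
    intro p hp
    have h : ∃ w ∈ T, ch w = p := Finset.mem_image.1 hp
    have h1 : v p = h.choose := dif_pos h
    rw [h1]
    exact h.choose_spec
  refine ⟨(T.image ch).filter fun p => N0 ≤ p, v, ?_, ?_, ?_⟩
  · intro p hp
    obtain ⟨hp1, hp2⟩ := Finset.mem_filter.1 hp
    obtain ⟨h1, h2⟩ := hv p hp1
    have h3 := hch (v p)
    rw [h2] at h3
    exact ⟨h3.1, hp2, h3.2, h1⟩
  · have h1 : T.card ≤ Module.finrank ℚ K * (T.image ch).card := by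
      refine Finset.card_le_mul_card_image T _ fun p hp => ?_
      have hpp : p.Prime := by
        obtain ⟨w, _, rfl⟩ := Finset.mem_image.1 hp
        exact (hch w).1
      refine PL4_card hpp _ fun w hw => ?_
      obtain ⟨_, h2⟩ := Finset.mem_filter.1 hw
      rw [← h2]
      exact hmem w
    have h2 : (T.image ch).card ≤ ((T.image ch).filter fun p => N0 ≤ p).card + N0 := by
      rw [← Finset.card_filter_add_card_filter_not (s := T.image ch) (fun p => N0 ≤ p)]
      refine Nat.add_le_add_left ?_ _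
      calc ((T.image ch).filter fun p => ¬ N0 ≤ p).card ≤ (Finset.range N0).card :=
            Finset.card_le_card fun p hp => Finset.mem_range.2 (not_le.1 (Finset.mem_filter.1 hp).2)
        _ = N0 := Finset.card_range N0
    exact h1.trans (Nat.mul_le_mul_left _ h2)
  · set S := (T.image ch).filter fun p => N0 ≤ p with hS
    have hSi : ∀ p ∈ S, p ∈ T.image ch := fun p hp => (Finset.mem_filter.1 hp).1
    have hSp : ∀ p ∈ S, p.Prime := by
      intro p hp
      obtain ⟨w, _, rfl⟩ := Finset.mem_image.1 (hSi p hp)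
      exact (hch w).1
    rw [Real.log_prod fun p hp => by exact_mod_cast (hSp p hp).ne_zero]
    have hvi : Set.InjOn v S := by
      intro p hp q hq h
      rw [← (hv p (hSi p hp)).2, ← (hv q (hSi q hq)).2, h]
    have hsub : S.image v ⊆ T := by
      intro w hw
      obtain ⟨p, hp, rfl⟩ := Finset.mem_image.1 hw
      exact (hv p (hSi p hp)).1
    calc ∑ p ∈ S, Real.log (p : ℝ) ≤ ∑ p ∈ S, Real.log (Ideal.absNorm (v p).asIdeal) := by
          refine Finset.sum_le_sum fun p hp => ?_
          refine Real.log_le_log (by exact_mod_cast (hSp p hp).pos) ?_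
          have h1 := hmem (v p)
          rw [(hv p (hSi p hp)).2] at h1
          exact_mod_cast Nat.le_of_dvd (PL4_pos (v p)) (PL4_dvd (hSp p hp) (v p) h1)
      _ = ∑ w ∈ S.image v, Real.log (Ideal.absNorm w.asIdeal) :=
        (Finset.sum_image (f := fun w : HeightOneSpectrum (𝓞 K) => Real.log (Ideal.absNorm w.asIdeal)) hvi).symm
      _ ≤ ∑ w ∈ T, Real.log (Ideal.absNorm w.asIdeal) := by
        refine Finset.sum_le_sum_of_subset_of_nonneg hsub fun w _ _ => ?_
        exact Real.log_natCast_nonneg _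

end FB
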