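import Pool.Agent.Lib.MP_17a322_ntFB.PDefs
import Pool.Agent.Lib.MP_17a322_nt.VJ.MW4

/-!
# LEAF PL5: subgroups of rank at most one

PROOF.  `(EK A B).IsElliptic` (discriminant `-16 (4 A³ + 27 B²)`), `mordell_weil`: `Pt A B` is finitely generated, so `Γ` is a finitely generated abelian group, hence a finite `ℤ`-module.  The torsion subgroup is finite, `Γ / torsion` is free of rank `finrank ℤ Γ ≤ 1` (`Module.finrank` of the quotient by the torsion; `Module.Free`, `Submodule.torsion`): either trivial (`Γ` torsion, finite) or generated by the class of some `P0` of infinite order.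
-/

namespace FB

open Finset NumberField VK

private theorem PL5_gen {M : Type} [AddCommGroup M] [Module.Finite ℤ M] (h : Module.finrank ℤ M ≤ 1) :
    ∃ T : Finset M, (∀ P : M, P ∈ T) ∨
      ∃ P0 : M, (∀ n : ℕ, 0 < n → n • P0 ≠ 0) ∧ ∀ P : M, ∃ t ∈ T, ∃ n : ℤ, P = t + n • P0 := by
  classical
  rcases Nat.lt_or_ge (Module.finrank ℤ M) 1 with h0 | h1
  · have h2 : Module.finrank ℤ M = 0 := by omega
    have h3 : Module.IsTorsion ℤ M := Module.finrank_eq_zero_iff_isTorsion.1 h2
    have h4 : Finite M := Module.finite_of_fg_torsion M h3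
    have h5 : Fintype M := Fintype.ofFinite M
    exact ⟨Finset.univ, Or.inl fun P => Finset.mem_univ P⟩
  · have h2 : Module.finrank ℤ M = 1 := le_antisymm h h1
    have hn : IsNoetherian ℤ M := isNoetherian_of_isNoetherianRing_of_finite ℤ M
    have hT : Module.Finite ℤ (Submodule.torsion ℤ M) := inferInstance
    have hT2 : Module.IsTorsion ℤ (Submodule.torsion ℤ M) := Submodule.torsion_isTorsion
    have hT3 : Finite (Submodule.torsion ℤ M) := Module.finite_of_fg_torsion _ hT2
    have hT4 : (Submodule.torsion ℤ M : Set M).Finite := hT3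
    have hq : Module.finrank ℤ (M ⧸ Submodule.torsion ℤ M) = 1 := by
      rw [finrank_quotient_eq_of_le_torsion le_rfl]
      exact h2
    have hf : Module.Free ℤ (M ⧸ Submodule.torsion ℤ M) := inferInstance
    have b := Module.finBasisOfFinrankEq ℤ (M ⧸ Submodule.torsion ℤ M) hq
    obtain ⟨P0, hP0⟩ := Submodule.Quotient.mk_surjective (Submodule.torsion ℤ M) (b 0)
    refine ⟨hT4.toFinset, Or.inr ⟨P0, ?_, ?_⟩⟩
    · intro n hn h
      have h6 : (n : ℤ) • b 0 = 0 := by
        rw [← hP0, ← Submodule.Quotient.mk_smul, natCast_zsmul, h, Submodule.Quotient.mk_zero]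
      rcases smul_eq_zero.1 h6 with h7 | h7
      · omega
      · exact b.ne_zero 0 h7
    · intro P
      have h6 := b.sum_repr (Submodule.Quotient.mk P)
      rw [Fin.sum_univ_one, ← hP0, ← Submodule.Quotient.mk_smul] at h6
      refine ⟨P - (b.repr (Submodule.Quotient.mk P) 0) • P0, ?_, b.repr (Submodule.Quotient.mk P) 0,
        by abel⟩
      rw [Set.Finite.mem_toFinset]
      exact (Submodule.Quotient.eq _).1 h6.symm

theorem struc {K : Type} [Field K] [NumberField K] [DecidableEq K] {A B : K} (hE : ds A B ≠ 0)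
    (Γ : AddSubgroup (Pt A B)) (hΓ : Module.finrank ℤ Γ ≤ 1) : ∃ T0 : Finset (Pt A B), (∀ P ∈ Γ, P ∈ T0) ∨
      ∃ P0 : Pt A B, (∀ n : ℕ, 0 < n → n • P0 ≠ 0) ∧ ∀ P ∈ Γ, ∃ t ∈ T0, ∃ n : ℤ, P = t + n • P0 := by
  classical
  have h1 : Module.Finite ℤ (Pt A B) := mwK hE
  have h2 : IsNoetherian ℤ (Pt A B) := isNoetherian_of_isNoetherianRing_of_finite ℤ _
  have h3 : Module.Finite ℤ Γ := by
    have h4 : Module.Finite ℤ (AddSubgroup.toIntSubmodule Γ) := inferInstance
    exact h4
  obtain ⟨T, h⟩ := PL5_gen hΓ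
  refine ⟨T.image (fun x : Γ => (x : Pt A B)), ?_⟩
  rcases h with h | ⟨P0, h5, h6⟩
  · left
    intro P hP
    exact Finset.mem_image.2 ⟨⟨P, hP⟩, h _, rfl⟩
  · right
    refine ⟨P0, ?_, ?_⟩
    · intro n hn h7
      refine h5 n hn (Subtype.ext ?_)
      rw [AddSubgroup.coe_nsmul]
      exact h7
    · intro P hP
      obtain ⟨t, ht, n, h7⟩ := h6 ⟨P, hP⟩
      refine ⟨t, Finset.mem_image.2 ⟨t, ht, rfl⟩, n, ?_⟩
      have h8 := congrArg Subtype.val h7
      rw [AddSubgroup.coe_add, AddSubgroup.coe_zsmul] at h8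
      exact h8

end FB
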