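import Mathlib

/-!
# LEAF PL6: the choice of the parameters

PROOF.  `x = log (log H)`.  `a = ⌊log (log H / C₁) / log 36⌋₊`, so `36 ^ a ≤ log H / C₁ < 36 ^ (a + 1)` and `x / 4 - C₂ ≤ a`, `a ≤ x + C₂` (`3.5 < log 36 < 4`) for `H ≥ H₀`.  `s ≥ (c₁ a² - C₁) / e - N0`, `(1 - 1 / 20) ^ s ≤ exp (- s / 20)`, `(n₀ 6 ^ a) ^ g = exp (g log n₀ + g a log 6)`; `c = c₁ / (20 e 32)` (any smaller `c` is fine, it must not depend on `g, n₀, N0`).
-/

namespace FB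

private theorem PL6_log36 : Real.log 36 ≤ 4 := by
  rw [Real.log_le_iff_le_exp (by norm_num)]
  have h := Real.exp_one_gt_d9
  have h4 : Real.exp 4 = (Real.exp 1) ^ 4 := by
    rw [← Real.exp_nat_mul]
    norm_num
  rw [h4]
  have h2 : (2.7 : ℝ) ≤ Real.exp 1 := by linarith
  calc (36 : ℝ) ≤ 2.7 ^ 4 := by norm_num
    _ ≤ (Real.exp 1) ^ 4 := pow_le_pow_left₀ (by norm_num) h2 4

private theorem PL6_log6 : (6 : ℝ) ≤ Real.exp 2 := by
  have h := Real.exp_one_gt_d9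
  have h4 : Real.exp 2 = (Real.exp 1) ^ 2 := by
    rw [← Real.exp_nat_mul]
    norm_num
  rw [h4]
  have h2 : (2.7 : ℝ) ≤ Real.exp 1 := by linarith
  calc (6 : ℝ) ≤ 2.7 ^ 2 := by norm_num
    _ ≤ (Real.exp 1) ^ 2 := pow_le_pow_left₀ (by norm_num) h2 2

theorem par (c₁ C₁ : ℝ) (h1 : 0 < c₁) (h2 : 0 < C₁) (e : ℕ) (he : 1 ≤ e) : ∃ c : ℝ, 0 < c ∧ ∀ g n0 N0 : ℕ,
    ∃ (C : ℝ) (H₀ : ℕ), ∀ H : ℕ, H₀ ≤ H → ∃ a : ℕ, C₁ * (36 : ℝ) ^ a ≤ Real.log H ∧
      ∀ s : ℕ, c₁ * (a : ℝ) ^ 2 - C₁ ≤ e * ((s : ℝ) + N0) →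
        ((n0 : ℝ) * 6 ^ a) ^ g * (1 - 1 / 20) ^ s ≤ C * Real.exp (-(c * (Real.log (Real.log H)) ^ 2)) := by
  have he' : (1 : ℝ) ≤ e := by exact_mod_cast he
  have he0 : (0 : ℝ) < e := by linarith
  set κ : ℝ := c₁ / (40 * e) with hκ
  have hκ0 : 0 < κ := by positivity
  refine ⟨κ / 32, by positivity, fun g n0 N0 => ?_⟩
  set C₂ : ℝ := 1 + |Real.log C₁| with hC₂
  have hC₂0 : 0 ≤ C₂ := by positivity
  refine ⟨Real.exp (g * Real.log (n0 + 1) + g ^ 2 / κ + C₁ / (20 * e) + N0 / 20 + κ * C₂ ^ 2),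
    ⌈Real.exp (max C₁ 1)⌉₊, fun H hH => ?_⟩
  have hH1 : Real.exp (max C₁ 1) ≤ H := (Nat.le_ceil _).trans (by exact_mod_cast hH)
  have hHpos : (0 : ℝ) < H := (Real.exp_pos _).trans_le hH1
  have hlog : max C₁ 1 ≤ Real.log H := (Real.le_log_iff_exp_le hHpos).mpr hH1
  have hl1 : C₁ ≤ Real.log H := (le_max_left _ _).trans hlog
  have hl2 : 1 ≤ Real.log H := (le_max_right _ _).trans hlog
  have hx0 : 0 ≤ Real.log (Real.log H) := Real.log_nonneg hl2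
  have hy : 1 ≤ Real.log H / C₁ := by rwa [le_div_iff₀ h2, one_mul]
  obtain ⟨a, ha1, ha2⟩ := exists_nat_pow_near hy (by norm_num : (1 : ℝ) < 36)
  refine ⟨a, ?_, fun s hs => ?_⟩
  · rw [le_div_iff₀ h2] at ha1
    linarith
  set x : ℝ := Real.log (Real.log H) with hx
  have hxa : x ≤ 4 * a + 4 * C₂ := by
    have h3 : Real.log (Real.log H / C₁) ≤ Real.log ((36 : ℝ) ^ (a + 1)) :=
      Real.log_le_log (by linarith) ha2.le
    rw [Real.log_div (by linarith) h2.ne', Real.log_pow] at h3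
    have h4 : ((a + 1 : ℕ) : ℝ) * Real.log 36 ≤ ((a + 1 : ℕ) : ℝ) * 4 :=
      mul_le_mul_of_nonneg_left PL6_log36 (Nat.cast_nonneg _)
    push_cast at h3 h4
    have h5 := le_abs_self (Real.log C₁)
    have h6 := abs_nonneg (Real.log C₁)
    rw [hC₂]
    linarith
  have ha0 : (0 : ℝ) ≤ a := Nat.cast_nonneg a
  have hx2 : x ^ 2 ≤ 32 * (a : ℝ) ^ 2 + 32 * C₂ ^ 2 := by
    have h3 : x ^ 2 ≤ (4 * (a : ℝ) + 4 * C₂) ^ 2 := pow_le_pow_left₀ hx0 hxa 2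
    nlinarith [sq_nonneg ((a : ℝ) - C₂)]
  -- first factor
  have hA : ((n0 : ℝ) * 6 ^ a) ^ g ≤ Real.exp (g * Real.log (n0 + 1) + 2 * g * a) := by
    have h3 : (n0 : ℝ) * 6 ^ a ≤ Real.exp (Real.log (n0 + 1) + 2 * a) := by
      rw [Real.exp_add, Real.exp_log (by positivity)]
      have h5 : (6 : ℝ) ^ a ≤ Real.exp (2 * a) := by
        rw [mul_comm, Real.exp_nat_mul]
        exact pow_le_pow_left₀ (by norm_num) PL6_log6 a
      exact mul_le_mul (by linarith) h5 (by positivity) (by positivity)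
    calc ((n0 : ℝ) * 6 ^ a) ^ g ≤ (Real.exp (Real.log (n0 + 1) + 2 * a)) ^ g :=
          pow_le_pow_left₀ (by positivity) h3 g
      _ = Real.exp (g * Real.log (n0 + 1) + 2 * g * a) := by
          rw [← Real.exp_nat_mul]
          ring_nf
  have hB : ((1 : ℝ) - 1 / 20) ^ s ≤ Real.exp (-(s / 20)) := by
    have h3 : (1 : ℝ) - 1 / 20 ≤ Real.exp (-(1 / 20)) := by
      have := Real.add_one_le_exp (-(1 / 20 : ℝ))
      linarith
    calc ((1 : ℝ) - 1 / 20) ^ s ≤ (Real.exp (-(1 / 20))) ^ s :=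
          pow_le_pow_left₀ (by norm_num) h3 s
      _ = Real.exp (-(s / 20)) := by
          rw [← Real.exp_nat_mul]
          ring_nf
  have hs' : (c₁ * (a : ℝ) ^ 2 - C₁) / e ≤ (s : ℝ) + N0 := by
    rw [div_le_iff₀ he0]
    linarith
  have hs2 : 2 * κ * (a : ℝ) ^ 2 - C₁ / (20 * e) ≤ ((s : ℝ) + N0) / 20 := by
    have h3 : 2 * κ * (a : ℝ) ^ 2 - C₁ / (20 * e) = ((c₁ * (a : ℝ) ^ 2 - C₁) / e) / 20 := by
      rw [hκ]
      field_simp
      ring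
    rw [h3]
    linarith
  have hq : 2 * (g : ℝ) * a ≤ κ * (a : ℝ) ^ 2 + (g : ℝ) ^ 2 / κ := by
    have h3 : (g : ℝ) ^ 2 / κ = κ * ((g : ℝ) / κ) ^ 2 := by
      field_simp
    have h4 : 2 * (g : ℝ) * a = κ * (2 * ((g : ℝ) / κ) * a) := by
      field_simp
    rw [h3, h4, ← mul_add]
    refine mul_le_mul_of_nonneg_left ?_ hκ0.le
    nlinarith [sq_nonneg ((a : ℝ) - (g : ℝ) / κ)]
  calc ((n0 : ℝ) * 6 ^ a) ^ g * (1 - 1 / 20) ^ s
      ≤ Real.exp (g * Real.log (n0 + 1) + 2 * g * a) * Real.exp (-(s / 20)) :=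
        mul_le_mul hA hB (pow_nonneg (by norm_num) _) (Real.exp_pos _).le
    _ = Real.exp ((g * Real.log (n0 + 1) + 2 * g * a) + -(s / 20)) := (Real.exp_add _ _).symm
    _ ≤ Real.exp ((g * Real.log (n0 + 1) + g ^ 2 / κ + C₁ / (20 * e) + N0 / 20 + κ * C₂ ^ 2)
          + -(κ / 32 * x ^ 2)) := by
        refine Real.exp_le_exp.mpr ?_
        have h3 : κ / 32 * x ^ 2 ≤ κ / 32 * (32 * (a : ℝ) ^ 2 + 32 * C₂ ^ 2) :=
          mul_le_mul_of_nonneg_left hx2 (by positivity)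
        linarith
    _ = _ := Real.exp_add _ _

private theorem PL6_primes (k : ℕ) : ∃ S : Finset ℕ, (∀ p ∈ S, p.Prime) ∧ (∀ p ∈ S, p ≤ 2 ^ k) ∧
    ∏ p ∈ S, p ≤ 2 ^ (k * k) ∧ S.card = k := by
  induction k with
  | zero => exact ⟨∅, by simp⟩
  | succ k ih =>
    obtain ⟨S, h1, h2, h3, h4⟩ := ih
    obtain ⟨p, hp, hp1, hp2⟩ := Nat.exists_prime_lt_and_le_two_mul (2 ^ k) (by positivity)
    have hpS : p ∉ S := fun h => absurd (h2 p h) (by omega)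
    refine ⟨insert p S, ?_, ?_, ?_, ?_⟩
    · intro q hq
      rcases Finset.mem_insert.mp hq with rfl | hq
      · exact hp
      · exact h1 q hq
    · intro q hq
      have e1 : 2 ^ (k + 1) = 2 * 2 ^ k := by ring
      rcases Finset.mem_insert.mp hq with rfl | hq
      · omega
      · have := h2 q hq
        omega
    · rw [Finset.prod_insert hpS]
      calc p * ∏ p ∈ S, p ≤ (2 * 2 ^ k) * 2 ^ (k * k) := Nat.mul_le_mul hp2 h3
        _ = 2 ^ (1 + k + k * k) := by ring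
        _ ≤ 2 ^ ((k + 1) * (k + 1)) := Nat.pow_le_pow_right (by norm_num) (by nlinarith)
    · rw [Finset.card_insert_of_notMem hpS, h4]

/-- the case without points of infinite order: many small primes -/
theorem par0 : ∃ (c : ℝ) (H₀ : ℕ), 0 < c ∧ ∀ H : ℕ, H₀ ≤ H → ∃ S : Finset ℕ, (∀ p ∈ S, p.Prime) ∧ ∏ p ∈ S, p ≤ H ∧
    c * (Real.log (Real.log H)) ^ 2 ≤ S.card := by
  refine ⟨1 / 8, 3, by norm_num, fun H hH => ?_⟩
  obtain ⟨S, h1, -, h3, h4⟩ := PL6_primes (Nat.sqrt (Nat.log 2 H))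
  have hH0 : H ≠ 0 := by omega
  refine ⟨S, h1, h3.trans ?_, ?_⟩
  · exact (Nat.pow_le_pow_right (by norm_num) (Nat.sqrt_le _)).trans (Nat.pow_log_le_self 2 hH0)
  rw [h4]
  set k := Nat.sqrt (Nat.log 2 H) with hk
  have hHr : (3 : ℝ) ≤ H := by exact_mod_cast hH
  have hl : 1 ≤ Real.log H := by
    rw [Real.le_log_iff_exp_le (by linarith)]
    have := Real.exp_one_lt_d9
    linarith
  set x := Real.log (Real.log H) with hx
  have hx0 : 0 ≤ x := Real.log_nonneg hl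
  have h5 : Nat.log 2 H < (k + 1) * (k + 1) := Nat.sqrt_lt.mp (by omega)
  have h6 : H < 2 ^ ((k + 1) * (k + 1)) :=
    (Nat.lt_pow_succ_log_self (by norm_num) H).trans_le (Nat.pow_le_pow_right (by norm_num) h5)
  have h7 : Real.log H ≤ ((k : ℝ) + 1) ^ 2 := by
    have h8 : (H : ℝ) ≤ 2 ^ ((k + 1) * (k + 1)) := by exact_mod_cast h6.le
    have h9 := Real.log_le_log (by linarith) h8
    rw [Real.log_pow] at h9
    have h10 : Real.log 2 ≤ 1 := by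
      have := Real.log_two_lt_d9
      linarith
    have h11 : (((k + 1) * (k + 1) : ℕ) : ℝ) * Real.log 2 ≤ (((k + 1) * (k + 1) : ℕ) : ℝ) * 1 :=
      mul_le_mul_of_nonneg_left h10 (Nat.cast_nonneg _)
    push_cast at h9 h11
    nlinarith
  have h12 : Real.exp x = Real.log H := Real.exp_log (by linarith)
  have h13 : 1 + x / 2 + (x / 2) ^ 2 / 2 ≤ Real.exp (x / 2) :=
    Real.quadratic_le_exp_of_nonneg (by linarith)
  have h14 : Real.exp (x / 2) ≤ (k : ℝ) + 1 := by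
    refine (sq_le_sq₀ (Real.exp_pos _).le (by positivity)).mp ?_
    rw [← Real.exp_nat_mul]
    have : ((2 : ℕ) : ℝ) * (x / 2) = x := by push_cast; ring
    rw [this, h12]
    exact h7
  nlinarith

end FB
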