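import Pool.Agent.Lib.MP_17a322_ntFB.PV

/-!
# LEAF PL7: the conclusion for one curve; small values of `H`

PROOF of `concl_of`.  For `H < H₀` the left side is at most `(2 H + 1) ^ N ≤ (4 H) ^ N` (all `c` of the box, `3 H ≥ 2 H + 1`) and `exp (-(c x ^ 2)) > 0` takes finitely many values: replace `C` by `max C (∑ h ∈ range H₀, 4 ^ N * exp (c * (log (log h)) ^ 2))`.
-/

namespace FB

open Finset NumberField VK IsDedekindDomain

/-- the conclusion for one curve and one subgroup -/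
def Concl {K : Type} [Field K] [NumberField K] [DecidableEq K] {A B : 𝓞 K} (Γ : AddSubgroup (Pt (A : K) (B : K))) : Prop :=
  ∃ c : ℝ, 0 < c ∧ ∀ g N0 N : ℕ, ∃ C : ℝ, ∀ H : ℕ, 1 ≤ H → ∀ (ι : Type) [Fintype ι] [DecidableEq ι],
    Fintype.card ι = N → ∀ R : LocV K g ι, DensV N0 R (1 / 20) →
    (Nat.card {c : ι → ℤ // (∀ i, |c i| ≤ (H : ℤ)) ∧ ∃ P : Fin g → Pt (A : K) (B : K), (∀ l, P l ∈ Γ) ∧
      AdmV N0 R c P} : ℝ) ≤ C * (H : ℝ) ^ N * Real.exp (-(c * (Real.log (Real.log H)) ^ 2))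

/-- the number of the vectors of the box with some property -/
private theorem PL7_card {ι : Type} [Fintype ι] [DecidableEq ι] {N : ℕ} (hι : Fintype.card ι = N) (H : ℕ) (hH : 1 ≤ H)
    (Q : (ι → ℤ) → Prop) : (Nat.card {c : ι → ℤ // (∀ i, |c i| ≤ (H : ℤ)) ∧ Q c} : ℝ) ≤ 4 ^ N * (H : ℝ) ^ N := by
  have h1 : Nat.card {c : ι → ℤ // (∀ i, |c i| ≤ (H : ℤ)) ∧ Q c} ≤ Nat.card (ι → Finset.Icc (-(H : ℤ)) (H : ℤ)) := by
    refine Nat.card_le_card_of_injective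
      (fun c i => ⟨c.1 i, Finset.mem_Icc.2 (abs_le.1 (c.2.1 i))⟩) ?_
    intro c d hcd
    apply Subtype.ext
    funext i
    exact congrArg Subtype.val (congrFun hcd i)
  have h2 : Nat.card (ι → Finset.Icc (-(H : ℤ)) (H : ℤ)) = (2 * H + 1) ^ N := by
    rw [Nat.card_fun, Nat.card_eq_fintype_card (α := ι), hι, Nat.card_eq_fintype_card, Fintype.card_coe, Int.card_Icc]
    congr 1
    omega
  rw [h2] at h1
  have h3 : ((2 * H + 1) ^ N : ℕ) ≤ (4 * H) ^ N := Nat.pow_le_pow_left (by omega) N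
  calc (Nat.card {c : ι → ℤ // (∀ i, |c i| ≤ (H : ℤ)) ∧ Q c} : ℝ) ≤ (((4 * H) ^ N : ℕ) : ℝ) := by
        exact_mod_cast h1.trans h3
    _ = 4 ^ N * (H : ℝ) ^ N := by push_cast; rw [mul_pow]

/-- the small values of `H` -/
theorem concl_of {K : Type} [Field K] [NumberField K] [DecidableEq K] {A B : 𝓞 K} (Γ : AddSubgroup (Pt (A : K) (B : K))) (c : ℝ)
    (hc : 0 < c) (h : ∀ g N0 N : ℕ, ∃ (C : ℝ) (H₀ : ℕ), ∀ H : ℕ, H₀ ≤ H → ∀ (ι : Type) [Fintype ι] [DecidableEq ι],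
    Fintype.card ι = N → ∀ R : LocV K g ι, DensV N0 R (1 / 20) →
    (Nat.card {c : ι → ℤ // (∀ i, |c i| ≤ (H : ℤ)) ∧ ∃ P : Fin g → Pt (A : K) (B : K), (∀ l, P l ∈ Γ) ∧
      AdmV N0 R c P} : ℝ) ≤ C * (H : ℝ) ^ N * Real.exp (-(c * (Real.log (Real.log H)) ^ 2))) : Concl Γ := by
  refine ⟨c, hc, fun g N0 N => ?_⟩
  obtain ⟨C, H₀, hC⟩ := h g N0 N
  refine ⟨max C (∑ h ∈ range H₀, 4 ^ N * Real.exp (c * (Real.log (Real.log h)) ^ 2)), fun H hH ι _ _ hι R hR => ?_⟩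
  rcases le_or_gt H₀ H with hH0 | hH0
  · refine (hC H hH0 ι hι R hR).trans ?_
    have : 0 ≤ (H : ℝ) ^ N * Real.exp (-(c * (Real.log (Real.log H)) ^ 2)) := by positivity
    calc C * (H : ℝ) ^ N * Real.exp (-(c * (Real.log (Real.log H)) ^ 2))
        = C * ((H : ℝ) ^ N * Real.exp (-(c * (Real.log (Real.log H)) ^ 2))) := by ring
      _ ≤ max C (∑ h ∈ range H₀, 4 ^ N * Real.exp (c * (Real.log (Real.log h)) ^ 2)) *
          ((H : ℝ) ^ N * Real.exp (-(c * (Real.log (Real.log H)) ^ 2))) :=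
        mul_le_mul_of_nonneg_right (le_max_left _ _) this
      _ = _ := by ring
  · refine (PL7_card hι H hH _).trans ?_
    have h1 : 4 ^ N * Real.exp (c * (Real.log (Real.log H)) ^ 2) ≤
        max C (∑ h ∈ range H₀, 4 ^ N * Real.exp (c * (Real.log (Real.log h)) ^ 2)) := by
      refine le_trans ?_ (le_max_right _ _)
      exact single_le_sum (f := fun h : ℕ => 4 ^ N * Real.exp (c * (Real.log (Real.log h)) ^ 2))
        (fun i _ => by positivity) (mem_range.2 hH0)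
    have h2 : Real.exp (c * (Real.log (Real.log H)) ^ 2) * Real.exp (-(c * (Real.log (Real.log H)) ^ 2)) = 1 := by
      rw [← Real.exp_add, add_neg_cancel, Real.exp_zero]
    calc (4 : ℝ) ^ N * (H : ℝ) ^ N
        = 4 ^ N * (H : ℝ) ^ N *
          (Real.exp (c * (Real.log (Real.log H)) ^ 2) * Real.exp (-(c * (Real.log (Real.log H)) ^ 2))) := by
          rw [h2, mul_one]
      _ = 4 ^ N * Real.exp (c * (Real.log (Real.log H)) ^ 2) *
          ((H : ℝ) ^ N * Real.exp (-(c * (Real.log (Real.log H)) ^ 2))) := by ring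
      _ ≤ max C (∑ h ∈ range H₀, 4 ^ N * Real.exp (c * (Real.log (Real.log h)) ^ 2)) *
          ((H : ℝ) ^ N * Real.exp (-(c * (Real.log (Real.log H)) ^ 2))) :=
        mul_le_mul_of_nonneg_right h1 (by positivity)
      _ = _ := by ring

end FB
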