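import Pool.Agent.Lib.MP_17a322_ntFB.PL3
import Pool.Agent.Lib.MP_17a322_ntFB.PL4
import Pool.Agent.Lib.MP_17a322_ntFB.PL5
import Pool.Agent.Lib.MP_17a322_ntFB.PL6
import Pool.Agent.Lib.MP_17a322_ntFB.PL7
import Pool.Agent.Lib.MP_17a322_ntFB.NMain

/-!
# The sieve for local conditions of density at most `1 - κ`, any `κ > 0`
-/

namespace FB

open Finset NumberField VK IsDedekindDomain

/-- the conclusion for one curve, one subgroup and conditions of density at most `1 - κ` -/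
def ConclK {K : Type} [Field K] [NumberField K] [DecidableEq K] {A B : 𝓞 K} (κ : ℝ)
    (Γ : AddSubgroup (Pt (A : K) (B : K))) : Prop :=
  ∃ c : ℝ, 0 < c ∧ ∀ g N0 N : ℕ, ∃ C : ℝ, ∀ H : ℕ, 1 ≤ H → ∀ (ι : Type) [Fintype ι] [DecidableEq ι],
    Fintype.card ι = N → ∀ R : LocV K g ι, DensV N0 R κ →
    (Nat.card {c : ι → ℤ // (∀ i, |c i| ≤ (H : ℤ)) ∧ ∃ P : Fin g → Pt (A : K) (B : K), (∀ l, P l ∈ Γ) ∧
      AdmV N0 R c P} : ℝ) ≤ C * (H : ℝ) ^ N * Real.exp (-(c * (Real.log (Real.log H)) ^ 2))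

private theorem PLK_log : (1 : ℝ) / 19 ≤ 1 ∧ Real.exp (-(1 / 19 : ℝ)) ≤ 1 - 1 / 20 := by
  refine ⟨by norm_num, ?_⟩
  have h := Real.add_one_le_exp (1 / 19 : ℝ)
  have h1 : Real.exp (-(1 / 19 : ℝ)) = (Real.exp (1 / 19))⁻¹ := Real.exp_neg _
  rw [h1, inv_le_comm₀ (Real.exp_pos _) (by norm_num)]
  refine le_trans ?_ h
  norm_num

/-- parameters -/
theorem parK (κ : ℝ) (hκ : 0 < κ) (hκ1 : κ ≤ 1 / 20) (c₁ C₁ : ℝ) (h1 : 0 < c₁) (h2 : 0 < C₁) (e : ℕ) (he : 1 ≤ e) :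
    ∃ c : ℝ, 0 < c ∧ ∀ g n0 N0 : ℕ,
    ∃ (C : ℝ) (H₀ : ℕ), ∀ H : ℕ, H₀ ≤ H → ∃ a : ℕ, C₁ * (36 : ℝ) ^ a ≤ Real.log H ∧
      ∀ s : ℕ, c₁ * (a : ℝ) ^ 2 - C₁ ≤ e * ((s : ℝ) + N0) →
        ((n0 : ℝ) * 6 ^ a) ^ g * (1 - κ) ^ s ≤ C * Real.exp (-(c * (Real.log (Real.log H)) ^ 2)) := by
  have he0 : (1 : ℝ) ≤ e := by exact_mod_cast he
  obtain ⟨c, hc, h⟩ := par (19 * κ * c₁) C₁ (by positivity) h2 e he
  refine ⟨c, hc, fun g n0 N0 => ?_⟩
  obtain ⟨C, H₀, hH⟩ := h g n0 (N0 + 1)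
  refine ⟨C, H₀, fun H hH0 => ?_⟩
  obtain ⟨a, ha1, ha2⟩ := hH H hH0
  refine ⟨a, ha1, fun s hs => ?_⟩
  have hs0 : (0 : ℝ) ≤ s := Nat.cast_nonneg s
  have hN0 : (0 : ℝ) ≤ N0 := Nat.cast_nonneg N0
  have hf := Nat.floor_le (show (0 : ℝ) ≤ 19 * κ * s by positivity)
  have hf2 := Nat.lt_floor_add_one (19 * κ * (s : ℝ))
  have k1 : 19 * κ * c₁ * (a : ℝ) ^ 2 - C₁ ≤ e * ((⌊19 * κ * (s : ℝ)⌋₊ : ℝ) + ((N0 + 1 : ℕ) : ℝ)) := by
    push_cast
    have e1 : 19 * κ * (c₁ * (a : ℝ) ^ 2 - C₁) ≤ 19 * κ * (e * ((s : ℝ) + N0)) :=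
      mul_le_mul_of_nonneg_left hs (by positivity)
    have e2 : 19 * κ * C₁ ≤ C₁ := by nlinarith
    have e3 : (e : ℝ) * (19 * κ * s) ≤ e * ((⌊19 * κ * (s : ℝ)⌋₊ : ℝ) + 1) :=
      mul_le_mul_of_nonneg_left hf2.le (by linarith)
    have e4 : 19 * κ * ((e : ℝ) * N0) ≤ (e : ℝ) * N0 := by
      have : (0 : ℝ) ≤ (e : ℝ) * N0 := by positivity
      nlinarith
    nlinarith
  refine le_trans ?_ (ha2 _ k1)
  refine mul_le_mul_of_nonneg_left ?_ (by positivity)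
  have h3 : (1 - κ) ^ s ≤ Real.exp (-(κ * s)) := by
    have h4 : (1 : ℝ) - κ ≤ Real.exp (-κ) := by
      have := Real.add_one_le_exp (-κ)
      linarith
    calc (1 - κ) ^ s ≤ Real.exp (-κ) ^ s := pow_le_pow_left₀ (by linarith) h4 s
      _ = Real.exp (-(κ * s)) := by
          rw [← Real.exp_nat_mul]
          congr 1
          ring
  refine h3.trans ?_
  have h5 : Real.exp (-(κ * s)) ≤ Real.exp (-(1 / 19 : ℝ)) ^ ⌊19 * κ * (s : ℝ)⌋₊ := by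
    rw [← Real.exp_nat_mul]
    refine Real.exp_le_exp.2 ?_
    linarith
  exact h5.trans (pow_le_pow_left₀ (Real.exp_pos _).le PLK_log.2 _)

/-- the number of the vectors of the box with some property -/
private theorem PLK_card {ι : Type} [Fintype ι] [DecidableEq ι] {N : ℕ} (hι : Fintype.card ι = N) (H : ℕ) (hH : 1 ≤ H)
    (Q : (ι → ℤ) → Prop) : (Nat.card {c : ι → ℤ // (∀ i, |c i| ≤ (H : ℤ)) ∧ Q c} : ℝ) ≤ 4 ^ N * (H : ℝ) ^ N := by
  have h1 : Nat.card {c : ι → ℤ // (∀ i, |c i| ≤ (H : ℤ)) ∧ Q c} ≤ Nat.card (ι → Finset.Icc (-(H : ℤ)) (H : ℤ)) := by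
    refine Nat.card_le_card_of_injective
      (fun c i => ⟨c.1 i, Finset.mem_Icc.2 (abs_le.1 (c.2.1 i))⟩) ?_
    intro c d hcd
    apply Subtype.ext
    funext i
    exact congrArg Subtype.val (congrFun hcd i)
  have h2 : Nat.card (ι → Finset.Icc (-(H : ℤ)) (H : ℤ)) = (2 * H + 1) ^ N := by
    rw [Nat.card_fun, Nat.card_eq_fintype_card (α := ι), hι, Nat.card_eq_fintype_card, Fintype.card_coe, Int.card_Icc]
    congr 1
    omega
  rw [h2] at h1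
  have h3 : ((2 * H + 1) ^ N : ℕ) ≤ (4 * H) ^ N := Nat.pow_le_pow_left (by omega) N
  calc (Nat.card {c : ι → ℤ // (∀ i, |c i| ≤ (H : ℤ)) ∧ Q c} : ℝ) ≤ (((4 * H) ^ N : ℕ) : ℝ) := by
        exact_mod_cast h1.trans h3
    _ = 4 ^ N * (H : ℝ) ^ N := by push_cast; rw [mul_pow]

/-- the small values of `H` -/
theorem concl_ofK {K : Type} [Field K] [NumberField K] [DecidableEq K] {A B : 𝓞 K} (κ : ℝ) (Γ : AddSubgroup (Pt (A : K) (B : K))) (c : ℝ)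
    (hc : 0 < c) (h : ∀ g N0 N : ℕ, ∃ (C : ℝ) (H₀ : ℕ), ∀ H : ℕ, H₀ ≤ H → ∀ (ι : Type) [Fintype ι] [DecidableEq ι],
    Fintype.card ι = N → ∀ R : LocV K g ι, DensV N0 R κ →
    (Nat.card {c : ι → ℤ // (∀ i, |c i| ≤ (H : ℤ)) ∧ ∃ P : Fin g → Pt (A : K) (B : K), (∀ l, P l ∈ Γ) ∧
      AdmV N0 R c P} : ℝ) ≤ C * (H : ℝ) ^ N * Real.exp (-(c * (Real.log (Real.log H)) ^ 2))) : ConclK κ Γ := by
  refine ⟨c, hc, fun g N0 N => ?_⟩
  obtain ⟨C, H₀, hC⟩ := h g N0 N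
  refine ⟨max C (∑ h ∈ range H₀, 4 ^ N * Real.exp (c * (Real.log (Real.log h)) ^ 2)), fun H hH ι _ _ hι R hR => ?_⟩
  rcases le_or_gt H₀ H with hH0 | hH0
  · refine (hC H hH0 ι hι R hR).trans ?_
    have : 0 ≤ (H : ℝ) ^ N * Real.exp (-(c * (Real.log (Real.log H)) ^ 2)) := by positivity
    calc C * (H : ℝ) ^ N * Real.exp (-(c * (Real.log (Real.log H)) ^ 2))
        = C * ((H : ℝ) ^ N * Real.exp (-(c * (Real.log (Real.log H)) ^ 2))) := by ring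
      _ ≤ max C (∑ h ∈ range H₀, 4 ^ N * Real.exp (c * (Real.log (Real.log h)) ^ 2)) *
          ((H : ℝ) ^ N * Real.exp (-(c * (Real.log (Real.log H)) ^ 2))) :=
        mul_le_mul_of_nonneg_right (le_max_left _ _) this
      _ = _ := by ring
  · refine (PLK_card hι H hH _).trans ?_
    have h1 : 4 ^ N * Real.exp (c * (Real.log (Real.log H)) ^ 2) ≤
        max C (∑ h ∈ range H₀, 4 ^ N * Real.exp (c * (Real.log (Real.log h)) ^ 2)) := by
      refine le_trans ?_ (le_max_right _ _)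
      exact single_le_sum (f := fun h : ℕ => 4 ^ N * Real.exp (c * (Real.log (Real.log h)) ^ 2))
        (fun i _ => by positivity) (mem_range.2 hH0)
    have h2 : Real.exp (c * (Real.log (Real.log H)) ^ 2) * Real.exp (-(c * (Real.log (Real.log H)) ^ 2)) = 1 := by
      rw [← Real.exp_add, add_neg_cancel, Real.exp_zero]
    calc (4 : ℝ) ^ N * (H : ℝ) ^ N
        = 4 ^ N * (H : ℝ) ^ N *
          (Real.exp (c * (Real.log (Real.log H)) ^ 2) * Real.exp (-(c * (Real.log (Real.log H)) ^ 2))) := by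
          rw [h2, mul_one]
      _ = 4 ^ N * Real.exp (c * (Real.log (Real.log H)) ^ 2) *
          ((H : ℝ) ^ N * Real.exp (-(c * (Real.log (Real.log H)) ^ 2))) := by ring
      _ ≤ max C (∑ h ∈ range H₀, 4 ^ N * Real.exp (c * (Real.log (Real.log h)) ^ 2)) *
          ((H : ℝ) ^ N * Real.exp (-(c * (Real.log (Real.log H)) ^ 2))) :=
        mul_le_mul_of_nonneg_right h1 (by positivity)
      _ = _ := by ring

private theorem PLK_dec {G : Type} [AddCommGroup G] (P0 : G) (b : ℕ) (hb : 0 < b) (n : ℤ) :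
    ∃ m : ℕ, m < b ∧ n • P0 = (m : ℤ) • P0 + (n / (b : ℤ)) • (b • P0) := by
  have h6 : (0 : ℤ) < (b : ℤ) := by exact_mod_cast hb
  have hm0 : 0 ≤ n % (b : ℤ) := Int.emod_nonneg _ h6.ne'
  have hm1 : n % (b : ℤ) < (b : ℤ) := Int.emod_lt_of_pos _ h6
  obtain ⟨m, hm⟩ := Int.eq_ofNat_of_zero_le hm0
  refine ⟨m, ?_, ?_⟩
  · have h7 : ((m : ℕ) : ℤ) < (b : ℤ) := hm ▸ hm1
    exact_mod_cast h7
  · have h8 : (m : ℤ) + (n / (b : ℤ)) * (b : ℤ) = n := by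
      rw [← hm]
      have := Int.emod_add_mul_ediv n (b : ℤ)
      rw [mul_comm] at this
      exact this
    rw [← natCast_zsmul P0 b, ← mul_smul, ← add_smul, h8]

/-- one point of infinite order, given the places of the kernels of reduction -/
theorem core1K {K : Type} [Field K] [NumberField K] [DecidableEq K] {A B : 𝓞 K} (Γ : AddSubgroup (Pt (A : K) (B : K)))
    (T0 : Finset (Pt (A : K) (B : K))) (P0 : Pt (A : K) (B : K)) (hT : ∀ P ∈ Γ, ∃ t ∈ T0, ∃ n : ℤ, P = t + n • P0)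
    (κ : ℝ) (hκ : 0 < κ) (hκ1 : κ ≤ 1 / 20) (c₁ C₁ : ℝ) (h1 : 0 < c₁) (h2 : 0 < C₁) (h : ∀ a : ℕ, ∃ T : Finset (HeightOneSpectrum (𝓞 K)),
      c₁ * (a : ℝ) ^ 2 - C₁ ≤ T.card ∧ (∀ v ∈ T, inK (VR v) ((6 ^ a) • P0)) ∧
      ∑ v ∈ T, Real.log (Ideal.absNorm v.asIdeal) ≤ C₁ * 36 ^ a) : ConclK κ Γ := by
  classical
  have he : 1 ≤ Module.finrank ℚ K := Module.finrank_pos
  obtain ⟨c, hc, hpar⟩ := parK κ hκ hκ1 c₁ C₁ h1 h2 (Module.finrank ℚ K) he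
  refine concl_ofK κ Γ c hc ?_
  intro g N0 N
  obtain ⟨C, H₀, hH⟩ := hpar g T0.card N0
  refine ⟨4 ^ N * C, max H₀ 1, fun H hH0 ι _ _ hcard R hR => ?_⟩
  obtain ⟨a, ha1, ha2⟩ := hH H ((le_max_left _ _).trans hH0)
  have hH1 : 1 ≤ H := (le_max_right _ _).trans hH0
  obtain ⟨T, hT1, hT2, hT3⟩ := h a
  obtain ⟨S, v, hS1, hS2, hS3⟩ := sel K T N0
  have hprod : ∏ p ∈ S, p ≤ H := by
    have hpos : (0 : ℝ) < ∏ p ∈ S, (p : ℝ) :=
      Finset.prod_pos fun p hp => by exact_mod_cast (hS1 p hp).1.pos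
    have hlog : Real.log (∏ p ∈ S, (p : ℝ)) ≤ Real.log H := hS3.trans (hT3.trans ha1)
    have hHpos : (0 : ℝ) < H := by exact_mod_cast hH1
    have h3 := (Real.log_le_log_iff hpos hHpos).1 hlog
    have h4 : ((∏ p ∈ S, p : ℕ) : ℝ) ≤ (H : ℝ) := by
      push_cast
      exact h3
    exact_mod_cast h4
  have hr : ∀ P ∈ Γ, ∃ i : Fin (T0.card * 6 ^ a), ∃ Q, P =
      (fun i : Fin (T0.card * 6 ^ a) => ((T0.equivFin.symm (finProdFinEquiv.symm i).1 : T0) : Pt (A : K) (B : K)) +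
        (((finProdFinEquiv.symm i).2 : ℕ) : ℤ) • P0) i + Q ∧ ∀ p ∈ S, inK (VR (v p)) Q := by
    intro P hP
    obtain ⟨t, ht, n, hn⟩ := hT P hP
    obtain ⟨m, hm, hmn⟩ := PLK_dec P0 (6 ^ a) (by positivity) n
    refine ⟨finProdFinEquiv (T0.equivFin ⟨t, ht⟩, ⟨m, hm⟩), (n / ((6 ^ a : ℕ) : ℤ)) • ((6 ^ a) • P0), ?_, ?_⟩
    · simp only [Equiv.symm_apply_apply]
      rw [hn, add_assoc, ← hmn]
    · intro p hp
      exact inK_zsmul (VR (v p)) (int_mem (pV (v p)) A) (int_mem (pV (v p)) B) (hT2 (v p) (hS1 p hp).2.2.2) _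
  have hs := sieveF (κ := κ) hκ.le (by linarith) hR
    (fun i : Fin (T0.card * 6 ^ a) => ((T0.equivFin.symm (finProdFinEquiv.symm i).1 : T0) : Pt (A : K) (B : K)) +
        (((finProdFinEquiv.symm i).2 : ℕ) : ℤ) • P0) S v
    (fun p hp => ⟨(hS1 p hp).1, (hS1 p hp).2.1, (hS1 p hp).2.2.1⟩) hr hprod
  have h5 : c₁ * (a : ℝ) ^ 2 - C₁ ≤ (Module.finrank ℚ K : ℕ) * ((S.card : ℝ) + N0) := by
    refine hT1.trans ?_
    have h6 : ((T.card : ℕ) : ℝ) ≤ ((Module.finrank ℚ K * (S.card + N0) : ℕ) : ℝ) := by exact_mod_cast hS2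
    refine h6.trans (le_of_eq ?_)
    push_cast
    ring
  have h7 := ha2 S.card h5
  refine hs.trans ?_
  have h8 : (0 : ℝ) ≤ (4 * (H : ℝ)) ^ N := by positivity
  calc ((T0.card * 6 ^ a : ℕ) : ℝ) ^ g * ((4 * (H : ℝ)) ^ Fintype.card ι * (1 - κ) ^ S.card)
      = (4 * (H : ℝ)) ^ N * (((T0.card : ℝ) * 6 ^ a) ^ g * (1 - κ) ^ S.card) := by
        rw [hcard]
        push_cast
        ring
    _ ≤ (4 * (H : ℝ)) ^ N * (C * Real.exp (-(c * (Real.log (Real.log H)) ^ 2))) :=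
        mul_le_mul_of_nonneg_left h7 h8
    _ = 4 ^ N * C * (H : ℝ) ^ N * Real.exp (-(c * (Real.log (Real.log H)) ^ 2)) := by
        rw [mul_pow]
        ring

private theorem PLK_place (K : Type) [Field K] [NumberField K] {p : ℕ} (hp : p.Prime) :
    ∃ v : HeightOneSpectrum (𝓞 K), CharP (RF v) p := by
  have h1 : Ideal.span {(p : 𝓞 K)} ≠ ⊤ := by
    intro h
    have h2 : Ideal.absNorm (Ideal.span {(p : 𝓞 K)}) = p ^ Module.finrank ℚ K := by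
      rw [Ideal.absNorm_span_natCast, RingOfIntegers.rank K]
    rw [h, Ideal.absNorm_top] at h2
    have h3 : 0 < Module.finrank ℚ K := Module.finrank_pos
    have h4 : 1 < p ^ Module.finrank ℚ K := Nat.one_lt_pow h3.ne' hp.one_lt
    omega
  obtain ⟨M, hM, hle⟩ := Ideal.exists_le_maximal _ h1
  have hmem : (p : 𝓞 K) ∈ M := hle (Ideal.mem_span_singleton_self _)
  exact ⟨⟨M, hM.isPrime, Ring.ne_bot_of_isMaximal_of_not_isField hM (RingOfIntegers.not_isField K)⟩,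
    (char_mem hp).2 hmem⟩

private theorem PLK_exp (κ : ℝ) (hκ1 : κ ≤ 1 / 20) (n : ℕ) : ((1 : ℝ) - κ) ^ n ≤ Real.exp (-(κ * (n : ℝ))) := by
  have h1 : ((1 : ℝ) - κ) ≤ Real.exp (-κ) := by
    have := Real.add_one_le_exp (-κ)
    linarith
  calc ((1 : ℝ) - κ) ^ n ≤ Real.exp (-κ) ^ n := pow_le_pow_left₀ (by linarith) h1 n
    _ = Real.exp (-(κ * (n : ℝ))) := by
        rw [← Real.exp_nat_mul]
        congr 1
        ring

/-- finitely many points -/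
theorem core0K {K : Type} [Field K] [NumberField K] [DecidableEq K] {A B : 𝓞 K} (Γ : AddSubgroup (Pt (A : K) (B : K)))
    (T0 : Finset (Pt (A : K) (B : K))) (κ : ℝ) (hκ : 0 < κ) (hκ1 : κ ≤ 1 / 20) (hT : ∀ P ∈ Γ, P ∈ T0) : ConclK κ Γ := by
  classical
  obtain ⟨c, H₀, hc, hpar⟩ := par0
  refine concl_ofK κ Γ (κ * c / 2) (by positivity) ?_
  intro g N0 N
  refine ⟨4 ^ N * ((T0.card : ℝ) ^ g * Real.exp (κ * (N0 : ℝ))), H₀, fun H hH ι _ _ hcard R hR => ?_⟩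
  obtain ⟨S₀, hS1, hS2, hS3⟩ := hpar H hH
  have hne : Nonempty (HeightOneSpectrum (𝓞 K)) := ⟨(PLK_place K Nat.prime_two).choose⟩
  choose! w hw using fun (p : ℕ) (hp : p.Prime) => PLK_place K hp
  have hprod : ∏ p ∈ S₀.filter (fun p => N0 ≤ p), p ≤ H := by
    refine le_trans ?_ hS2
    exact Finset.prod_le_prod_of_subset_of_one_le' (Finset.filter_subset _ _)
      fun p hp _ => (hS1 p hp).one_lt.le
  have hcardS : S₀.card ≤ (S₀.filter (fun p => N0 ≤ p)).card + N0 := by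
    rw [← Finset.card_filter_add_card_filter_not (s := S₀) (fun p => N0 ≤ p)]
    refine Nat.add_le_add_left ?_ _
    have h1 : S₀.filter (fun p => ¬ N0 ≤ p) ⊆ Finset.range N0 := by
      intro p hp
      have h2 := (Finset.mem_filter.1 hp).2
      exact Finset.mem_range.2 (by omega)
    exact (Finset.card_le_card h1).trans (Finset.card_range N0).le
  have hr : ∀ P ∈ Γ, ∃ i : Fin T0.card, ∃ Q, P =
      (fun i : Fin T0.card => ((T0.equivFin.symm i : T0) : Pt (A : K) (B : K))) i + Q ∧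
      ∀ p ∈ S₀.filter (fun p => N0 ≤ p), inK (VR (w p)) Q := by
    intro P hP
    refine ⟨T0.equivFin ⟨P, hT P hP⟩, 0, ?_, fun p _ => trivial⟩
    simp only [Equiv.symm_apply_apply, add_zero]
  have hs := sieveF (κ := κ) hκ.le (by linarith) hR
    (fun i : Fin T0.card => ((T0.equivFin.symm i : T0) : Pt (A : K) (B : K)))
    (S₀.filter (fun p => N0 ≤ p)) w
    (fun p hp => ⟨hS1 p (Finset.mem_filter.1 hp).1, (Finset.mem_filter.1 hp).2,
      hw p (hS1 p (Finset.mem_filter.1 hp).1)⟩) hr hprod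
  refine hs.trans ?_
  have h8 : (0 : ℝ) ≤ (4 * (H : ℝ)) ^ N := by positivity
  have h9 : ((1 : ℝ) - κ) ^ (S₀.filter (fun p => N0 ≤ p)).card ≤
      Real.exp (κ * (N0 : ℝ)) * Real.exp (-(κ * c / 2 * (Real.log (Real.log H)) ^ 2)) := by
    refine (PLK_exp κ hκ1 _).trans ?_
    rw [← Real.exp_add]
    refine Real.exp_le_exp.2 ?_
    have h10 : (S₀.card : ℝ) ≤ (S₀.filter (fun p => N0 ≤ p)).card + N0 := by exact_mod_cast hcardS
    have h11 : 0 ≤ c * (Real.log (Real.log H)) ^ 2 := by positivity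
    have h12 : κ * (c * (Real.log (Real.log H)) ^ 2) ≤ κ * (((S₀.filter (fun p => N0 ≤ p)).card : ℝ) + N0) :=
      mul_le_mul_of_nonneg_left (hS3.trans h10) hκ.le
    have h13 : 0 ≤ κ * (c * (Real.log (Real.log H)) ^ 2) := by positivity
    nlinarith
  calc ((T0.card : ℕ) : ℝ) ^ g * ((4 * (H : ℝ)) ^ Fintype.card ι * (1 - κ) ^ (S₀.filter (fun p => N0 ≤ p)).card)
      = (4 * (H : ℝ)) ^ N * ((T0.card : ℝ) ^ g * (1 - κ) ^ (S₀.filter (fun p => N0 ≤ p)).card) := by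
        rw [hcard]
        ring
    _ ≤ (4 * (H : ℝ)) ^ N * ((T0.card : ℝ) ^ g * (Real.exp (κ * (N0 : ℝ)) *
        Real.exp (-(κ * c / 2 * (Real.log (Real.log H)) ^ 2)))) :=
        mul_le_mul_of_nonneg_left (mul_le_mul_of_nonneg_left h9 (by positivity)) h8
    _ = 4 ^ N * ((T0.card : ℝ) ^ g * Real.exp (κ * (N0 : ℝ))) * (H : ℝ) ^ N *
        Real.exp (-(κ * c / 2 * (Real.log (Real.log H)) ^ 2)) := by
        rw [mul_pow]
        ring

/-- the sieve for local conditions of density at most `1 - κ` -/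
theorem conclK {K : Type} [Field K] [NumberField K] [DecidableEq K] {A B : 𝓞 K} (hd : ds A B ≠ 0)
    (Γ : AddSubgroup (Pt (A : K) (B : K))) (hΓ : Module.finrank ℤ Γ ≤ 1) {κ : ℝ} (hκ : 0 < κ) : ConclK κ Γ := by
  have hd' : ds (A : K) (B : K) ≠ 0 := by
    intro h
    apply hd
    apply NumberField.RingOfIntegers.coe_injective
    rw [map_zero, ← h]
    have h4 : (algebraMap (𝓞 K) K) 4 = 4 := map_ofNat _ 4
    have h27 : (algebraMap (𝓞 K) K) 27 = 27 := map_ofNat _ 27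
    simp only [ds, map_add, map_mul, map_pow, h4, h27]
  have key : ∀ κ' : ℝ, 0 < κ' → κ' ≤ 1 / 20 → ConclK κ' Γ := by
    intro κ' hκ' hκ1
    obtain ⟨T0, hT | ⟨P0, hP0, hT⟩⟩ := struc hd' Γ hΓ
    · exact core0K Γ T0 κ' hκ' hκ1 hT
    · obtain ⟨c₁, C₁, h1, h2, h⟩ := prim hd hP0
      exact core1K Γ T0 P0 hT κ' hκ' hκ1 c₁ C₁ h1 h2 h
  obtain ⟨c, hc, h⟩ := key (min κ (1 / 20)) (lt_min hκ (by norm_num)) (min_le_right _ _)
  refine ⟨c, hc, fun g N0 N => ?_⟩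
  obtain ⟨C, hC⟩ := h g N0 N
  refine ⟨C, fun H hH ι _ _ hι R hR => hC H hH ι hι R fun v p hp hcp hN z => (hR v p hp hcp hN z).trans ?_⟩
  refine mul_le_mul_of_nonneg_right ?_ (by positivity)
  have := min_le_left κ (1 / 20)
  linarith

end FB
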