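import Pool.Agent.Lib.MP_17a322_ntFB.PV

/-!
# LEAF PV2: the residue field of a prime ideal

PROOF.  As private lemmas `T4_unit`, `T4_card` of `MP_17a322_ntLH/T4.lean` (copy them): the map `𝓞 K → RF v` is surjective with kernel `v`.  `w_surj`: `x` is the residue of `a = ∑ k, m k * ω k` (`ω.sum_repr`), take `(m k : ZMod p)`; `ZMod.cast_intCast'`, `Rf.sum`, `Rf.mul`, `Rf.int`, `Rf.unique`, `rf_res`, `int_mem`.
-/

namespace FB

open Finset NumberField VK IsDedekindDomain

section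

variable {K : Type} [Field K] [NumberField K]

private theorem PV2_unit {K Γ : Type} [Field K] [LinearOrderedCommGroupWithZero Γ] (v : Valuation K Γ)
    (x : v.valuationSubring) : IsUnit x ↔ v (x : K) = 1 := by
  have hx : v (x : K) ≤ 1 := x.2
  constructor
  · rintro ⟨u, rfl⟩
    have h1 : v ((u : v.valuationSubring) : K) * v (((u⁻¹ : v.valuationSubringˣ) : v.valuationSubring) : K) = 1 := by
      rw [← map_mul]
      have h2 : ((u : v.valuationSubring) : K) * (((u⁻¹ : v.valuationSubringˣ) : v.valuationSubring) : K) = 1 := by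
        have h3 := congrArg (fun y : v.valuationSubring => (y : K)) u.mul_inv
        exact h3
      rw [h2, map_one]
    have h4 : v (((u⁻¹ : v.valuationSubringˣ) : v.valuationSubring) : K) ≤ 1 :=
      ((u⁻¹ : v.valuationSubringˣ) : v.valuationSubring).2
    exact eq_one_of_one_le_mul_left hx h4 h1.ge
  · intro h
    have h0 : (x : K) ≠ 0 := by
      intro h0
      rw [h0, map_zero] at h
      exact zero_ne_one h
    have h1 : (x : K)⁻¹ ∈ v.valuationSubring := by
      show v (x : K)⁻¹ ≤ 1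
      rw [map_inv₀, h, inv_one]
    exact IsUnit.of_mul_eq_one ⟨(x : K)⁻¹, h1⟩ (Subtype.ext (mul_inv_cancel₀ h0))

private theorem PV2_mem (v : HeightOneSpectrum (𝓞 K)) (x : VR v) :
    x ∈ IsLocalRing.maximalIdeal (VR v) ↔ v.valuation K (x : K) < 1 := by
  rw [IsLocalRing.mem_maximalIdeal, mem_nonunits_iff, PV2_unit]
  have hx : v.valuation K (x : K) ≤ 1 := x.2
  constructor
  · intro h
    exact lt_of_le_of_ne hx h
  · intro h h1
    exact h.ne h1

private noncomputable def PV2_j (v : HeightOneSpectrum (𝓞 K)) : 𝓞 K →+* VR v :=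
  (algebraMap (𝓞 K) K).codRestrict (VR v) fun x => v.valuation_le_one x

private noncomputable def PV2_f (v : HeightOneSpectrum (𝓞 K)) : 𝓞 K →+* RF v :=
  (IsLocalRing.residue (VR v)).comp (PV2_j v)

private theorem PV2_surj (v : HeightOneSpectrum (𝓞 K)) : Function.Surjective (PV2_f v) := by
  intro y
  obtain ⟨x, rfl⟩ := IsLocalRing.residue_surjective y
  obtain ⟨a, ha⟩ := v.exists_valuation_sub_lt_of_integer (x := (x : K)) x.2 1
  refine ⟨a, ?_⟩
  show IsLocalRing.residue (VR v) (PV2_j v a) = IsLocalRing.residue (VR v) x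
  rw [← sub_eq_zero, ← map_sub, IsLocalRing.residue_eq_zero_iff, PV2_mem]
  exact ha

private theorem PV2_zero (v : HeightOneSpectrum (𝓞 K)) (a : 𝓞 K) : PV2_f v a = 0 ↔ a ∈ v.asIdeal := by
  show IsLocalRing.residue (VR v) (PV2_j v a) = 0 ↔ _
  rw [IsLocalRing.residue_eq_zero_iff, PV2_mem]
  exact v.valuation_lt_one_iff_mem a

theorem card_RF (v : HeightOneSpectrum (𝓞 K)) : Nat.card (RF v) = Ideal.absNorm v.asIdeal := by
  have hker : RingHom.ker (PV2_f v) = v.asIdeal := by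
    ext a
    rw [RingHom.mem_ker]
    exact PV2_zero v a
  rw [← Nat.card_congr (RingHom.quotientKerEquivOfSurjective (PV2_surj v)).toEquiv, hker, Ideal.absNorm_apply,
    Submodule.cardQuot_apply]

theorem finite_RF (v : HeightOneSpectrum (𝓞 K)) : Finite (RF v) := by
  refine Nat.finite_of_card_ne_zero ?_
  rw [card_RF]
  intro h
  exact v.ne_bot (Ideal.absNorm_eq_zero_iff.1 h)

theorem surj_RF (v : HeightOneSpectrum (𝓞 K)) (x : RF v) : ∃ a : 𝓞 K, Rf (pV v) ((a : 𝓞 K) : K) x := by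
  obtain ⟨a, ha⟩ := PV2_surj v x
  exact ⟨a, v.valuation_le_one a, ha⟩

theorem char_RF (v : HeightOneSpectrum (𝓞 K)) : ∃ p : ℕ, p.Prime ∧ CharP (RF v) p := by
  have hfin := finite_RF v
  obtain ⟨p, hp⟩ := CharP.exists (RF v)
  exact ⟨p, CharP.char_is_prime (RF v) p, hp⟩

/-- the residue characteristic of a prime ideal which contains `p` -/
theorem char_mem {v : HeightOneSpectrum (𝓞 K)} {p : ℕ} (hp : p.Prime) : CharP (RF v) p ↔ (p : 𝓞 K) ∈ v.asIdeal := by
  rw [CharP.charP_iff_prime_eq_zero hp, ← PV2_zero, map_natCast]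

theorem el_rf {F : Type} [Field F] (π : PF K F) {e : ℕ} (ω : Fin e → 𝓞 K) (c : Fin e → ℤ) :
    Rf π ((el ω c : 𝓞 K) : K) (∑ k, ((c k : ℤ) : F) * rf π ((ω k : 𝓞 K) : K)) := by
  have h1 : ((el ω c : 𝓞 K) : K) = ∑ k, ((c k : ℤ) : K) * ((ω k : 𝓞 K) : K) := by
    unfold el
    push_cast
    rfl
  rw [h1]
  exact Rf.sum _ fun k _ => (Rf.int (c k)).mul (rf_res (int_mem π (ω k)))

theorem w_surj {v : HeightOneSpectrum (𝓞 K)} {p : ℕ} (hc : CharP (RF v) p) {e : ℕ} (ω : Module.Basis (Fin e) ℤ (𝓞 K))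
    (x : RF v) : ∃ a : Fin e → ZMod p, ∑ k, (ZMod.cast (a k) : RF v) * rf (pV v) ((ω k : 𝓞 K) : K) = x := by
  obtain ⟨a, ha⟩ := surj_RF v x
  have h1 : a = el ω fun k => ω.repr a k := by
    unfold el
    conv_lhs => rw [← ω.sum_repr a]
    exact Finset.sum_congr rfl fun k _ => zsmul_eq_mul _ _
  have h2 := el_rf (pV v) (fun k => ω k) (fun k => ω.repr a k)
  have h3 : Rf (pV v) ((el ω fun k => ω.repr a k : 𝓞 K) : K) x := by
    rw [← h1]
    exact ha
  refine ⟨fun k => ((ω.repr a k : ℤ) : ZMod p), ?_⟩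
  rw [← h2.unique h3]
  exact Finset.sum_congr rfl fun k _ => by rw [ZMod.cast_intCast']

end

end FB
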