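import Pool.Agent.Lib.MP_17a322_ntFB.PL0
import Pool.Agent.Lib.MP_17a322_ntFB.PV2

/-!
# LEAF PL2: a point of a cover or of a complete intersection satisfies the local conditions

PROOF.  As `adm_RA` (`MP_17a322_ntVK/SD3`), `adm_RB` (`SD5`) with `pow_red`, `ct_scale` of `MP_17a322_ntCT/PC` copied for `PF` (private), `bas_redG` (PD1), `el_rf` (PV2), `ZMod.cast_intCast'` (`CharP`), `int_mem` for `A, B ∈ 𝓞 K`.
-/

namespace FB

open Finset NumberField VK IsDedekindDomain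

private theorem PL2_pow {K F : Type} [Field K] [Field F] {π : PF K F} {q : ℕ} (hq : 1 ≤ q) {w v₀ : K}
    {v : F} (hv : Rf π v₀ v) (h : w ^ q = v₀) : ∃ s : F, s ^ q = v := by
  have h1 : w ∈ π.V := mem_pow π hq (by rw [h]; exact hv.choose)
  refine ⟨rf π w, ?_⟩
  have h2 := (rf_res h1).pow q
  rw [h] at h2
  exact h2.unique hv

private theorem PL2_scale {K F : Type} [Field K] [Field F] (π : PF K F) {s : ℕ} (y : Fin s → K) (hy : y ≠ 0) :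
    ∃ (c : K) (y' : Fin s → F), c ≠ 0 ∧ y' ≠ 0 ∧ ∀ l, Rf π (c * y l) (y' l) := by
  obtain ⟨i, hi⟩ := Function.ne_iff.1 hy
  obtain ⟨k, -, hk⟩ := Finset.exists_max_image Finset.univ (fun l => π.V.valuation (y l)) ⟨i, Finset.mem_univ i⟩
  have hk0 : y k ≠ 0 := by
    intro h1
    have h2 := hk i (Finset.mem_univ i)
    rw [h1, map_zero] at h2
    exact hi (π.V.valuation.zero_iff.1 (le_antisymm h2 zero_le))
  have hm : ∀ l, (y k)⁻¹ * y l ∈ π.V := by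
    intro l
    rw [← ValuationSubring.valuation_le_one_iff, map_mul, map_inv₀]
    have h2 := hk l (Finset.mem_univ l)
    have h3 : π.V.valuation (y k) ≠ 0 := (π.V.valuation.ne_zero_iff).2 hk0
    calc (π.V.valuation (y k))⁻¹ * π.V.valuation (y l)
        ≤ (π.V.valuation (y k))⁻¹ * π.V.valuation (y k) := mul_le_mul_right h2 _
      _ = 1 := inv_mul_cancel₀ h3
  refine ⟨(y k)⁻¹, fun l => π.ρ ⟨_, hm l⟩, inv_ne_zero hk0, ?_, fun l => ⟨hm l, rfl⟩⟩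
  intro h1
  have h2 : π.ρ ⟨_, hm k⟩ = 0 := congrFun h1 k
  have h3 : Rf π ((y k)⁻¹ * y k) 0 := ⟨hm k, h2⟩
  rw [inv_mul_cancel₀ hk0] at h3
  exact one_ne_zero (Rf.one.unique h3 : (1 : F) = 0)

private theorem PL2_cf {K F : Type} [Field K] [NumberField K] [Field F] {p : ℕ} [CharP F p] (π : PF K F)
    {τ : Type} {e : ℕ} (ω : Fin e → 𝓞 K) (c : τ × Fin e → ℤ) (t : τ) :
    Rf π (cf ω c t) (∑ k, (ZMod.cast (((c (t, k) : ℤ)) : ZMod p) : F) * rf π ((ω k : 𝓞 K) : K)) := by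
  have h1 := el_rf π ω (fun k => c (t, k))
  have h2 : (∑ k, (ZMod.cast (((c (t, k) : ℤ)) : ZMod p) : F) * rf π ((ω k : 𝓞 K) : K))
      = ∑ k, ((c (t, k) : ℤ) : F) * rf π ((ω k : 𝓞 K) : K) := by
    refine Finset.sum_congr rfl fun k _ => ?_
    rw [ZMod.cast_intCast']
  rw [h2]
  exact h1

private theorem PL2_mo {K : Type} [Field K] {m n : ℕ} (c : K) (u : Fin (m + 1) → K) (e : MWS.Mo m n) :
    MWS.mo (fun l => c * u l) e = c ^ n * MWS.mo u e := by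
  unfold MWS.mo
  simp only [mul_pow]
  rw [Finset.prod_mul_distrib, Finset.prod_pow_eq_pow_sum, e.2]

private theorem PL2_mo_rf {K F : Type} [Field K] [Field F] {π : PF K F} {m n : ℕ} {u : Fin (m + 1) → K}
    {y : Fin (m + 1) → F} (h : ∀ l, Rf π (u l) (y l)) (e : MWS.Mo m n) :
    Rf π (MWS.mo u e) (MWS.mo y e) :=
  Rf.prod _ fun l _ => (h l).pow _

theorem adm_RAV {K : Type} [Field K] [NumberField K] (N0 : ℕ) {q : ℕ} (hq : 1 ≤ q) {g e : ℕ} {d : Fin g → ℕ}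
    (hd : ∀ l, 1 ≤ d l) (hqd : ∀ l, q ∣ 2 * d l) (ω : Fin e → 𝓞 K) {A B : 𝓞 K} (c : RamCov.IxG d × Fin e → ℤ)
    (P : Fin g → Pt (A : K) (B : K)) (w : K)
    (h : w ^ q = ∑ t : RamCov.IxG d, cf ω c t * ∏ l, RamCov.bas K (d l) (opP (P l)) (t l)) :
    AdmV N0 (RAV q d ω) c P := by
  intro v p _ hc _
  have := hc
  obtain ⟨σ, -, hσ⟩ := bas_redG (pV v) (int_mem (pV v) A) (int_mem (pV v) B) hd hqd P
  have h1 : (w * σ) ^ q = ∑ t : RamCov.IxG d,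
      cf ω c t * (σ ^ q * ∏ l, RamCov.bas K (d l) (opP (P l)) (t l)) := by
    rw [mul_pow, h, Finset.sum_mul]
    refine Finset.sum_congr rfl fun t _ => ?_
    ring
  have h2 : Rf (pV v) (∑ t : RamCov.IxG d,
      cf ω c t * (σ ^ q * ∏ l, RamCov.bas K (d l) (opP (P l)) (t l)))
      (∑ t : RamCov.IxG d, (∑ k, (ZMod.cast (((c (t, k) : ℤ)) : ZMod p) : RF v) *
        rf (pV v) ((ω k : 𝓞 K) : K)) *
        ∏ l, RamCov.bas (RF v) (d l) (rdF (pV v) (P l)) (t l)) :=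
    Rf.sum _ fun t _ => (PL2_cf (pV v) ω c t).mul (hσ t)
  obtain ⟨s, hs⟩ := PL2_pow hq h2 h1
  exact ⟨s, hs⟩

theorem adm_RBV {K : Type} [Field K] [NumberField K] (N0 : ℕ) {m g s e : ℕ} {ν : Fin s → ℕ} {d : Fin s → Fin g → ℕ}
    (hd : ∀ j l, 1 ≤ d j l) (ω : Fin e → 𝓞 K) {A B : 𝓞 K} (c : RamCov.IxC m ν d × Fin e → ℤ)
    (P : Fin g → Pt (A : K) (B : K)) (u : Fin (m + 1) → K) (hu : u ≠ 0)
    (h : ∀ j, ∑ t : MWS.Mo m (ν j) × RamCov.IxG (d j), cf ω c ⟨j, t⟩ *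
      (MWS.mo u t.1 * ∏ l, RamCov.bas K (d j l) (opP (P l)) (t.2 l)) = 0) :
    AdmV N0 (RBV (m := m) ν d ω) c P := by
  intro v p _ hc _
  have := hc
  obtain ⟨c0, y', -, hy', hR⟩ := PL2_scale (pV v) u hu
  refine ⟨y', hy', fun j => ?_⟩
  obtain ⟨σ, -, hb⟩ := bas_redG (pV v) (int_mem (pV v) A) (int_mem (pV v) B) (q := 1) (d := d j) (hd j)
    (fun l => one_dvd _) P
  have hrd : Rf (pV v) (∑ t : MWS.Mo m (ν j) × RamCov.IxG (d j), cf ω c ⟨j, t⟩ *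
      (MWS.mo (fun l => c0 * u l) t.1 *
        (σ ^ 1 * ∏ l, RamCov.bas K (d j l) (opP (P l)) (t.2 l))))
      (∑ t : MWS.Mo m (ν j) × RamCov.IxG (d j),
        (∑ k, (ZMod.cast (((c (⟨j, t⟩, k) : ℤ)) : ZMod p) : RF v) * rf (pV v) ((ω k : 𝓞 K) : K)) *
        (MWS.mo y' t.1 * ∏ l, RamCov.bas (RF v) (d j l) (rdF (pV v) (P l)) (t.2 l))) :=
    Rf.sum _ fun t _ => (PL2_cf (pV v) ω c ⟨j, t⟩).mul ((PL2_mo_rf hR t.1).mul (hb t.2))
  have hz : (∑ t : MWS.Mo m (ν j) × RamCov.IxG (d j), cf ω c ⟨j, t⟩ *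
      (MWS.mo (fun l => c0 * u l) t.1 *
        (σ ^ 1 * ∏ l, RamCov.bas K (d j l) (opP (P l)) (t.2 l)))) = 0 := by
    have h2 : (∑ t : MWS.Mo m (ν j) × RamCov.IxG (d j), cf ω c ⟨j, t⟩ *
        (MWS.mo (fun l => c0 * u l) t.1 *
          (σ ^ 1 * ∏ l, RamCov.bas K (d j l) (opP (P l)) (t.2 l)))) =
        c0 ^ ν j * σ * ∑ t : MWS.Mo m (ν j) × RamCov.IxG (d j), cf ω c ⟨j, t⟩ *
          (MWS.mo u t.1 * ∏ l, RamCov.bas K (d j l) (opP (P l)) (t.2 l)) := by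
      rw [Finset.mul_sum]
      refine Finset.sum_congr rfl fun t _ => ?_
      rw [PL2_mo]
      ring
    rw [h2, h j, mul_zero]
  rw [hz] at hrd
  exact hrd.unique Rf.zero

end FB
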