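import Pool.Agent.Lib.MP_17a322_ntFB.PL3
import Pool.Agent.Lib.MP_17a322_ntFB.PL4
import Pool.Agent.Lib.MP_17a322_ntFB.PL6
import Pool.Agent.Lib.MP_17a322_ntFB.PL7

/-!
# LEAF PL8: finitely many points

PROOF.  `c` of `par0` divided by `40`.  `concl_of` (PL7): for `H ≥ H₀` take `S₀` from `par0`, remove the primes `< N0` (at most `N0`); for every `p ∈ S` a place `v p` with residue characteristic `p` (a maximal ideal of `𝓞 K` containing `p`; `char_mem`); `sieveF` (PL3) with `r : Fin T0.card → _` an enumeration of `T0` (`T0.equivFin`), `Q = 0` (`inK` is `True` at `0`), `κ = 1 / 20`: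
the left side is at most `(#T0) ^ g (4 H) ^ N (1 - 1 / 20) ^ #S` and `(1 - 1 / 20) ^ #S ≤ exp (- #S / 20)`, `#S ≥ #S₀ - N0`.
-/

namespace FB

open Finset NumberField VK IsDedekindDomain

private theorem PL8_place (K : Type) [Field K] [NumberField K] {p : ℕ} (hp : p.Prime) :
    ∃ v : HeightOneSpectrum (𝓞 K), CharP (RF v) p := by
  have h1 : Ideal.span {(p : 𝓞 K)} ≠ ⊤ := by
    intro h
    have h2 : Ideal.absNorm (Ideal.span {(p : 𝓞 K)}) = p ^ Module.finrank ℚ K := by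
      rw [Ideal.absNorm_span_natCast, RingOfIntegers.rank K]
    rw [h, Ideal.absNorm_top] at h2
    have h3 : 0 < Module.finrank ℚ K := Module.finrank_pos
    have h4 : 1 < p ^ Module.finrank ℚ K := Nat.one_lt_pow h3.ne' hp.one_lt
    omega
  obtain ⟨M, hM, hle⟩ := Ideal.exists_le_maximal _ h1
  have hmem : (p : 𝓞 K) ∈ M := hle (Ideal.mem_span_singleton_self _)
  exact ⟨⟨M, hM.isPrime, Ring.ne_bot_of_isMaximal_of_not_isField hM (RingOfIntegers.not_isField K)⟩,
    (char_mem hp).2 hmem⟩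

private theorem PL8_exp (n : ℕ) : ((1 : ℝ) - 1 / 20) ^ n ≤ Real.exp (-((n : ℝ) / 20)) := by
  have h1 : ((1 : ℝ) - 1 / 20) ≤ Real.exp (-(1 / 20)) := by
    have := Real.add_one_le_exp (-(1 / 20) : ℝ)
    linarith
  calc ((1 : ℝ) - 1 / 20) ^ n ≤ Real.exp (-(1 / 20)) ^ n := pow_le_pow_left₀ (by norm_num) h1 n
    _ = Real.exp (-((n : ℝ) / 20)) := by
        rw [← Real.exp_nat_mul]
        congr 1
        ring

/-- finitely many points -/
theorem core0 {K : Type} [Field K] [NumberField K] [DecidableEq K] {A B : 𝓞 K} (Γ : AddSubgroup (Pt (A : K) (B : K)))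
    (T0 : Finset (Pt (A : K) (B : K))) (hT : ∀ P ∈ Γ, P ∈ T0) : Concl Γ := by
  classical
  obtain ⟨c, H₀, hc, hpar⟩ := par0
  refine concl_of Γ (c / 40) (by positivity) ?_
  intro g N0 N
  refine ⟨4 ^ N * ((T0.card : ℝ) ^ g * Real.exp ((N0 : ℝ) / 20)), H₀, fun H hH ι _ _ hcard R hR => ?_⟩
  obtain ⟨S₀, hS1, hS2, hS3⟩ := hpar H hH
  have hne : Nonempty (HeightOneSpectrum (𝓞 K)) := ⟨(PL8_place K Nat.prime_two).choose⟩
  choose! w hw using fun (p : ℕ) (hp : p.Prime) => PL8_place K hp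
  have hprod : ∏ p ∈ S₀.filter (fun p => N0 ≤ p), p ≤ H := by
    refine le_trans ?_ hS2
    exact Finset.prod_le_prod_of_subset_of_one_le' (Finset.filter_subset _ _)
      fun p hp _ => (hS1 p hp).one_lt.le
  have hcardS : S₀.card ≤ (S₀.filter (fun p => N0 ≤ p)).card + N0 := by
    rw [← Finset.card_filter_add_card_filter_not (s := S₀) (fun p => N0 ≤ p)]
    refine Nat.add_le_add_left ?_ _
    have h1 : S₀.filter (fun p => ¬ N0 ≤ p) ⊆ Finset.range N0 := by
      intro p hp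
      have h2 := (Finset.mem_filter.1 hp).2
      exact Finset.mem_range.2 (by omega)
    exact (Finset.card_le_card h1).trans (Finset.card_range N0).le
  have hr : ∀ P ∈ Γ, ∃ i : Fin T0.card, ∃ Q, P =
      (fun i : Fin T0.card => ((T0.equivFin.symm i : T0) : Pt (A : K) (B : K))) i + Q ∧
      ∀ p ∈ S₀.filter (fun p => N0 ≤ p), inK (VR (w p)) Q := by
    intro P hP
    refine ⟨T0.equivFin ⟨P, hT P hP⟩, 0, ?_, fun p _ => trivial⟩
    simp only [Equiv.symm_apply_apply, add_zero]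
  have hs := sieveF (κ := 1 / 20) (by norm_num) (by norm_num) hR
    (fun i : Fin T0.card => ((T0.equivFin.symm i : T0) : Pt (A : K) (B : K)))
    (S₀.filter (fun p => N0 ≤ p)) w
    (fun p hp => ⟨hS1 p (Finset.mem_filter.1 hp).1, (Finset.mem_filter.1 hp).2,
      hw p (hS1 p (Finset.mem_filter.1 hp).1)⟩) hr hprod
  refine hs.trans ?_
  have h8 : (0 : ℝ) ≤ (4 * (H : ℝ)) ^ N := by positivity
  have h9 : ((1 : ℝ) - 1 / 20) ^ (S₀.filter (fun p => N0 ≤ p)).card ≤
      Real.exp ((N0 : ℝ) / 20) * Real.exp (-(c / 40 * (Real.log (Real.log H)) ^ 2)) := by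
    refine (PL8_exp _).trans ?_
    rw [← Real.exp_add]
    refine Real.exp_le_exp.2 ?_
    have h10 : (S₀.card : ℝ) ≤ (S₀.filter (fun p => N0 ≤ p)).card + N0 := by exact_mod_cast hcardS
    have h11 : 0 ≤ c * (Real.log (Real.log H)) ^ 2 := by positivity
    linarith
  calc ((T0.card : ℕ) : ℝ) ^ g * ((4 * (H : ℝ)) ^ Fintype.card ι * (1 - 1 / 20) ^ (S₀.filter (fun p => N0 ≤ p)).card)
      = (4 * (H : ℝ)) ^ N * ((T0.card : ℝ) ^ g * (1 - 1 / 20) ^ (S₀.filter (fun p => N0 ≤ p)).card) := by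
        rw [hcard]
        ring
    _ ≤ (4 * (H : ℝ)) ^ N * ((T0.card : ℝ) ^ g * (Real.exp ((N0 : ℝ) / 20) *
        Real.exp (-(c / 40 * (Real.log (Real.log H)) ^ 2)))) :=
        mul_le_mul_of_nonneg_left (mul_le_mul_of_nonneg_left h9 (by positivity)) h8
    _ = 4 ^ N * ((T0.card : ℝ) ^ g * Real.exp ((N0 : ℝ) / 20)) * (H : ℝ) ^ N *
        Real.exp (-(c / 40 * (Real.log (Real.log H)) ^ 2)) := by
        rw [mul_pow]
        ring

end FB
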