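import Pool.Agent.Lib.MP_17a322_ntFB.PL3
import Pool.Agent.Lib.MP_17a322_ntFB.PL4
import Pool.Agent.Lib.MP_17a322_ntFB.PL6
import Pool.Agent.Lib.MP_17a322_ntFB.PL7

/-!
# LEAF PL9: finitely many torsion points and one point of infinite order

PROOF.  `c` from `par c₁ C₁ h1 h2 (Module.finrank ℚ K)` (PL6).  `concl_of` (PL7): `C, H₀` from `par` with `g`, `n0 = #T0`, `N0`.  For `H ≥ max H₀ 1`: `a` from `par`, `T` from `h a`, `S, v` from `sel K T N0` (PL4): `log ∏ p ≤ C₁ 36 ^ a ≤ log H` gives `∏ p ≤ H`.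
Classes: for `P = t + n • P0` write `n = n % 6 ^ a + 6 ^ a * (n / 6 ^ a)` (`Int.emod_add_mul_ediv`), `r = t + (n % 6 ^ a) • P0`, `Q = (n / 6 ^ a) • (6 ^ a • P0)`, in the kernel of reduction by `inK_zsmul` (PS3; `int_mem` for the coefficients).  `r` is indexed by `Fin (#T0 * 6 ^ a)` (`finProdFinEquiv`, `T0.equivFin`).
`sieveF` (PL3) with `κ = 1 / 20`, then the last clause of `par` with `s = #S` (`T.card ≤ finrank (S.card + N0)`), constant `4 ^ N C`.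
-/

namespace FB

open Finset NumberField VK IsDedekindDomain

private theorem PL9_dec {G : Type} [AddCommGroup G] (P0 : G) (b : ℕ) (hb : 0 < b) (n : ℤ) :
    ∃ m : ℕ, m < b ∧ n • P0 = (m : ℤ) • P0 + (n / (b : ℤ)) • (b • P0) := by
  have h6 : (0 : ℤ) < (b : ℤ) := by exact_mod_cast hb
  have hm0 : 0 ≤ n % (b : ℤ) := Int.emod_nonneg _ h6.ne'
  have hm1 : n % (b : ℤ) < (b : ℤ) := Int.emod_lt_of_pos _ h6
  obtain ⟨m, hm⟩ := Int.eq_ofNat_of_zero_le hm0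
  refine ⟨m, ?_, ?_⟩
  · have h7 : ((m : ℕ) : ℤ) < (b : ℤ) := hm ▸ hm1
    exact_mod_cast h7
  · have h8 : (m : ℤ) + (n / (b : ℤ)) * (b : ℤ) = n := by
      rw [← hm]
      have := Int.emod_add_mul_ediv n (b : ℤ)
      rw [mul_comm] at this
      exact this
    rw [← natCast_zsmul P0 b, ← mul_smul, ← add_smul, h8]

/-- one point of infinite order, given the places of the kernels of reduction -/
theorem core1 {K : Type} [Field K] [NumberField K] [DecidableEq K] {A B : 𝓞 K} (Γ : AddSubgroup (Pt (A : K) (B : K)))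
    (T0 : Finset (Pt (A : K) (B : K))) (P0 : Pt (A : K) (B : K)) (hT : ∀ P ∈ Γ, ∃ t ∈ T0, ∃ n : ℤ, P = t + n • P0)
    (c₁ C₁ : ℝ) (h1 : 0 < c₁) (h2 : 0 < C₁) (h : ∀ a : ℕ, ∃ T : Finset (HeightOneSpectrum (𝓞 K)),
      c₁ * (a : ℝ) ^ 2 - C₁ ≤ T.card ∧ (∀ v ∈ T, inK (VR v) ((6 ^ a) • P0)) ∧
      ∑ v ∈ T, Real.log (Ideal.absNorm v.asIdeal) ≤ C₁ * 36 ^ a) : Concl Γ := by
  classical
  have he : 1 ≤ Module.finrank ℚ K := Module.finrank_pos
  obtain ⟨c, hc, hpar⟩ := par c₁ C₁ h1 h2 (Module.finrank ℚ K) he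
  refine concl_of Γ c hc ?_
  intro g N0 N
  obtain ⟨C, H₀, hH⟩ := hpar g T0.card N0
  refine ⟨4 ^ N * C, max H₀ 1, fun H hH0 ι _ _ hcard R hR => ?_⟩
  obtain ⟨a, ha1, ha2⟩ := hH H ((le_max_left _ _).trans hH0)
  have hH1 : 1 ≤ H := (le_max_right _ _).trans hH0
  obtain ⟨T, hT1, hT2, hT3⟩ := h a
  obtain ⟨S, v, hS1, hS2, hS3⟩ := sel K T N0
  have hprod : ∏ p ∈ S, p ≤ H := by
    have hpos : (0 : ℝ) < ∏ p ∈ S, (p : ℝ) :=
      Finset.prod_pos fun p hp => by exact_mod_cast (hS1 p hp).1.pos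
    have hlog : Real.log (∏ p ∈ S, (p : ℝ)) ≤ Real.log H := hS3.trans (hT3.trans ha1)
    have hHpos : (0 : ℝ) < H := by exact_mod_cast hH1
    have h3 := (Real.log_le_log_iff hpos hHpos).1 hlog
    have h4 : ((∏ p ∈ S, p : ℕ) : ℝ) ≤ (H : ℝ) := by
      push_cast
      exact h3
    exact_mod_cast h4
  have hr : ∀ P ∈ Γ, ∃ i : Fin (T0.card * 6 ^ a), ∃ Q, P =
      (fun i : Fin (T0.card * 6 ^ a) => ((T0.equivFin.symm (finProdFinEquiv.symm i).1 : T0) : Pt (A : K) (B : K)) +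
        (((finProdFinEquiv.symm i).2 : ℕ) : ℤ) • P0) i + Q ∧ ∀ p ∈ S, inK (VR (v p)) Q := by
    intro P hP
    obtain ⟨t, ht, n, hn⟩ := hT P hP
    obtain ⟨m, hm, hmn⟩ := PL9_dec P0 (6 ^ a) (by positivity) n
    refine ⟨finProdFinEquiv (T0.equivFin ⟨t, ht⟩, ⟨m, hm⟩), (n / ((6 ^ a : ℕ) : ℤ)) • ((6 ^ a) • P0), ?_, ?_⟩
    · simp only [Equiv.symm_apply_apply]
      rw [hn, add_assoc, ← hmn]
    · intro p hp
      exact inK_zsmul (VR (v p)) (int_mem (pV (v p)) A) (int_mem (pV (v p)) B) (hT2 (v p) (hS1 p hp).2.2.2) _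
  have hs := sieveF (κ := 1 / 20) (by norm_num) (by norm_num) hR
    (fun i : Fin (T0.card * 6 ^ a) => ((T0.equivFin.symm (finProdFinEquiv.symm i).1 : T0) : Pt (A : K) (B : K)) +
        (((finProdFinEquiv.symm i).2 : ℕ) : ℤ) • P0) S v
    (fun p hp => ⟨(hS1 p hp).1, (hS1 p hp).2.1, (hS1 p hp).2.2.1⟩) hr hprod
  have h5 : c₁ * (a : ℝ) ^ 2 - C₁ ≤ (Module.finrank ℚ K : ℕ) * ((S.card : ℝ) + N0) := by
    refine hT1.trans ?_
    have h6 : ((T.card : ℕ) : ℝ) ≤ ((Module.finrank ℚ K * (S.card + N0) : ℕ) : ℝ) := by exact_mod_cast hS2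
    refine h6.trans (le_of_eq ?_)
    push_cast
    ring
  have h7 := ha2 S.card h5
  refine hs.trans ?_
  have h8 : (0 : ℝ) ≤ (4 * (H : ℝ)) ^ N := by positivity
  calc ((T0.card * 6 ^ a : ℕ) : ℝ) ^ g * ((4 * (H : ℝ)) ^ Fintype.card ι * (1 - 1 / 20) ^ S.card)
      = (4 * (H : ℝ)) ^ N * (((T0.card : ℝ) * 6 ^ a) ^ g * (1 - 1 / 20) ^ S.card) := by
        rw [hcard]
        push_cast
        ring
    _ ≤ (4 * (H : ℝ)) ^ N * (C * Real.exp (-(c * (Real.log (Real.log H)) ^ 2))) :=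
        mul_le_mul_of_nonneg_left h7 h8
    _ = 4 ^ N * C * (H : ℝ) ^ N * Real.exp (-(c * (Real.log (Real.log H)) ^ 2)) := by
        rw [mul_pow]
        ring

end FB
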