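import Pool.Agent.Lib.MP_17a322_ntFB.PL1
import Pool.Agent.Lib.MP_17a322_ntFB.PL2
import Pool.Agent.Lib.MP_17a322_ntFB.PL5
import Pool.Agent.Lib.MP_17a322_ntFB.PL8
import Pool.Agent.Lib.MP_17a322_ntFB.PL9
import Pool.Agent.Lib.MP_17a322_ntFB.NMain

/-!
# Cyclic covers of the powers of a fixed elliptic curve and complete intersections in them
-/

namespace FB

open Finset NumberField VK IsDedekindDomain

theorem concl {K : Type} [Field K] [NumberField K] [DecidableEq K] {A B : 𝓞 K} (hd : ds A B ≠ 0)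
    (Γ : AddSubgroup (Pt (A : K) (B : K))) (hΓ : Module.finrank ℤ Γ ≤ 1) : Concl Γ := by
  have hd' : ds (A : K) (B : K) ≠ 0 := by
    intro h
    apply hd
    apply NumberField.RingOfIntegers.coe_injective
    rw [map_zero, ← h]
    have h4 : (algebraMap (𝓞 K) K) 4 = 4 := map_ofNat _ 4
    have h27 : (algebraMap (𝓞 K) K) 27 = 27 := map_ofNat _ 27
    simp only [ds, map_add, map_mul, map_pow, h4, h27]
  obtain ⟨T0, hT | ⟨P0, hP0, hT⟩⟩ := struc hd' Γ hΓ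
  · exact core0 Γ T0 hT
  · obtain ⟨c₁, C₁, h1, h2, h⟩ := prim hd hP0
    exact core1 Γ T0 P0 hT c₁ C₁ h1 h2 h

/-- the main theorem -/
theorem main {K : Type} [Field K] [NumberField K] [DecidableEq K] {A B : 𝓞 K} (hd : ds A B ≠ 0)
    (Γ : AddSubgroup (Pt (A : K) (B : K))) (hΓ : Module.finrank ℤ Γ ≤ 1) : ∃ c : ℝ, 0 < c ∧
    (∀ (r q : ℕ) (ζ : K), q.Prime → q ∣ r → IsPrimitiveRoot ζ q → ∀ (g : ℕ) (d : Fin g → ℕ), (∀ l, 1 ≤ d l) →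
      (∀ l, r ∣ 2 * d l) → ∀ (e : ℕ) (ω : Module.Basis (Fin e) ℤ (𝓞 K)), ∃ C : ℝ, ∀ H : ℕ, 1 ≤ H →
      (Nat.card {a : RamCov.IxG d × Fin e → ℤ // (∀ i, |a i| ≤ (H : ℤ)) ∧
        ∃ P : Fin g → Pt (A : K) (B : K), (∀ l, P l ∈ Γ) ∧ ∃ w : K,
          w ^ r = ∑ t : RamCov.IxG d, cf ω a t * ∏ l, RamCov.bas K (d l) (opP (P l)) (t l)} : ℝ) ≤
        C * (H : ℝ) ^ Fintype.card (RamCov.IxG d × Fin e) * Real.exp (-(c * (Real.log (Real.log H)) ^ 2))) ∧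
    (∀ (m g s : ℕ) (ν : Fin s → ℕ) (d : Fin s → Fin g → ℕ), m ≤ s → (∀ j, 1 ≤ ν j) → m + 1 ≤ ∑ j, ν j →
      (∀ j l, 1 ≤ d j l) → ∀ (e : ℕ) (ω : Module.Basis (Fin e) ℤ (𝓞 K)), ∃ C : ℝ, ∀ H : ℕ, 1 ≤ H →
      (Nat.card {a : RamCov.IxC m ν d × Fin e → ℤ // (∀ i, |a i| ≤ (H : ℤ)) ∧
        ∃ P : Fin g → Pt (A : K) (B : K), (∀ l, P l ∈ Γ) ∧ ∃ u : Fin (m + 1) → K, u ≠ 0 ∧
          ∀ j, ∑ t : MWS.Mo m (ν j) × RamCov.IxG (d j), cf ω a ⟨j, t⟩ *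
            (MWS.mo u t.1 * ∏ l, RamCov.bas K (d j l) (opP (P l)) (t.2 l)) = 0} : ℝ) ≤
        C * (H : ℝ) ^ Fintype.card (RamCov.IxC m ν d × Fin e) * Real.exp (-(c * (Real.log (Real.log H)) ^ 2))) := by
  classical
  have hfin : ∀ (ι : Type) [Fintype ι] (H : ℕ) (X Y : (ι → ℤ) → Prop), (∀ a, X a → Y a) →
      Nat.card {a : ι → ℤ // (∀ i, |a i| ≤ (H : ℤ)) ∧ X a} ≤ Nat.card {a : ι → ℤ // (∀ i, |a i| ≤ (H : ℤ)) ∧ Y a} := by
    intro ι _ H X Y hXY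
    have hf : Finite {a : ι → ℤ // (∀ i, |a i| ≤ (H : ℤ)) ∧ Y a} := by
      have h1 : Finite {a : ι → ℤ // ∀ i, |a i| ≤ (H : ℤ)} := by
        have h2 : Set.Finite {a : ι → ℤ | ∀ i, |a i| ≤ (H : ℤ)} := by
          refine Set.Finite.subset (Set.Finite.pi (fun _ => Set.finite_Icc (-(H : ℤ)) H)) fun a ha i _ => ?_
          exact Set.mem_Icc.2 (abs_le.1 (ha i))
        exact h2
      exact Finite.of_injective (β := {a : ι → ℤ // ∀ i, |a i| ≤ (H : ℤ)}) (fun a => ⟨a.1, a.2.1⟩)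
        fun a b hab => Subtype.ext (congrArg (fun x => x.1) hab)
    exact Nat.card_le_card_of_injective (fun a => ⟨a.1, a.2.1, hXY _ a.2.2⟩)
      fun a b hab => Subtype.ext (congrArg (fun x => x.1) hab)
  obtain ⟨c, hc, hK⟩ := concl hd Γ hΓ
  refine ⟨c, hc, ?_, ?_⟩
  · intro r q ζ hq hqr hζ g d hd1 hrd e ω
    have hqd : ∀ l, q ∣ 2 * d l := fun l => hqr.trans (hrd l)
    obtain ⟨C, hC⟩ := hK g (q + 3) (Fintype.card (RamCov.IxG d × Fin e))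
    refine ⟨C, fun H hH => ?_⟩
    refine le_trans ?_ (hC H hH _ rfl (RAV q d ω) (dens_RAV hq hζ d ω))
    have := hfin (RamCov.IxG d × Fin e) H (Y := fun a => ∃ P : Fin g → Pt (A : K) (B : K), (∀ l, P l ∈ Γ) ∧
      AdmV (q + 3) (RAV q d ω) a P) (X := fun a => ∃ P : Fin g → Pt (A : K) (B : K), (∀ l, P l ∈ Γ) ∧ ∃ w : K,
          w ^ r = ∑ t : RamCov.IxG d, cf ω a t * ∏ l, RamCov.bas K (d l) (opP (P l)) (t l)) (by
        rintro a ⟨P, hP, w, hw⟩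
        obtain ⟨k, rfl⟩ := hqr
        rw [mul_comm, pow_mul] at hw
        exact ⟨P, hP, adm_RAV (q + 3) hq.one_le hd1 hqd ω a P (w ^ k) hw⟩)
    exact_mod_cast this
  · intro m g s ν d hm hν hs hd1 e ω
    obtain ⟨C, hC⟩ := hK g 11 (Fintype.card (RamCov.IxC m ν d × Fin e))
    refine ⟨C, fun H hH => ?_⟩
    refine le_trans ?_ (hC H hH _ rfl (RBV (m := m) ν d ω) (dens_RBV hm ν hν hs d ω))
    have := hfin (RamCov.IxC m ν d × Fin e) H (Y := fun a => ∃ P : Fin g → Pt (A : K) (B : K), (∀ l, P l ∈ Γ) ∧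
      AdmV 11 (RBV (m := m) ν d ω) a P) (X := fun a => ∃ P : Fin g → Pt (A : K) (B : K), (∀ l, P l ∈ Γ) ∧
        ∃ u : Fin (m + 1) → K, u ≠ 0 ∧
          ∀ j, ∑ t : MWS.Mo m (ν j) × RamCov.IxG (d j), cf ω a ⟨j, t⟩ *
            (MWS.mo u t.1 * ∏ l, RamCov.bas K (d j l) (opP (P l)) (t.2 l)) = 0) (by
        rintro a ⟨P, hP, u, hu, h⟩
        exact ⟨P, hP, adm_RBV 11 hd1 ω a P u hu h⟩)
    exact_mod_cast this

end FB
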