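import Pool.Agent.Lib.MP_17a322_ntFB.PG
import Pool.Agent.Lib.MP_17a322_ntFB.PMain
import Pool.Agent.Lib.MP_17a322_ntCT.PD

/-!
# The covers `γ w ^ r = F`, `γ` in a finitely generated group
-/

namespace FB

open Finset NumberField VK IsDedekindDomain

/-- integral representatives of a finitely generated group modulo `q`-th powers -/
theorem clsG {K : Type} [Field K] [NumberField K] (G : Subgroup Kˣ) (hG : G.FG) {q : ℕ} (hq : 1 ≤ q) :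
    ∃ (n : ℕ) (δ : Fin n → 𝓞 K), (∀ i, δ i ≠ 0) ∧ ∀ γ : Kˣ, γ ∈ G → ∃ i, ∃ u : K,
      (γ : K) = ((δ i : 𝓞 K) : K) * u ^ q := by
  obtain ⟨t, ht⟩ := LVH.fg_cls K G hG 1
  obtain ⟨r, -, hr⟩ := ht q hq
  have h1 : ∀ i : Fin (q ^ t), ∃ a b : 𝓞 K, a ≠ 0 ∧ b ≠ 0 ∧ (r i 0 : K) * ((b : 𝓞 K) : K) = ((a : 𝓞 K) : K) := by
    intro i
    obtain ⟨a, b, hb, hab⟩ := IsFractionRing.div_surjective (A := 𝓞 K) (r i 0 : K)
    have hb0 : b ≠ 0 := nonZeroDivisors.ne_zero hb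
    have hb1 : (algebraMap (𝓞 K) K) b ≠ 0 := by
      intro h
      exact hb0 ((map_eq_zero_iff _ (FaithfulSMul.algebraMap_injective (𝓞 K) K)).1 h)
    refine ⟨a, b, ?_, hb0, ?_⟩
    · rintro rfl
      rw [map_zero, zero_div] at hab
      exact (r i 0).ne_zero hab.symm
    · show (r i 0 : K) * (algebraMap (𝓞 K) K) b = (algebraMap (𝓞 K) K) a
      rw [← hab, div_mul_cancel₀ _ hb1]
  choose a b ha hb hab using h1
  refine ⟨q ^ t, fun i => a i * b i ^ (q - 1), fun i => mul_ne_zero (ha i) (pow_ne_zero _ (hb i)), fun γ hγ => ?_⟩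
  obtain ⟨i, y, -, hy⟩ := hr (fun _ => γ) (fun _ => hγ)
  have hy0 := hy 0
  have hb1 : ((b i : 𝓞 K) : K) ≠ 0 := by
    intro h
    exact hb i ((map_eq_zero_iff _ (FaithfulSMul.algebraMap_injective (𝓞 K) K)).1 h)
  refine ⟨i, (y 0 : K) * (((b i : 𝓞 K) : K))⁻¹, ?_⟩
  have e1 : (((a i * b i ^ (q - 1) : 𝓞 K)) : K) = ((a i : 𝓞 K) : K) * ((b i : 𝓞 K) : K) ^ (q - 1) := by
    show (algebraMap (𝓞 K) K) (a i * b i ^ (q - 1)) = (algebraMap (𝓞 K) K) (a i) * ((algebraMap (𝓞 K) K) (b i)) ^ (q - 1)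
    rw [map_mul, map_pow]
  rw [e1, hy0, ← hab i, Units.val_mul, Units.val_pow_eq_pow_val]
  obtain ⟨k, rfl⟩ : ∃ k, q = k + 1 := ⟨q - 1, by omega⟩
  rw [Nat.add_sub_cancel, mul_pow, inv_pow, pow_succ (((b i : 𝓞 K) : K)) k]
  have hbk : ((b i : 𝓞 K) : K) ^ k ≠ 0 := pow_ne_zero _ hb1
  field_simp

/-- the sections over a finitely generated group of factors -/
theorem mainG {K : Type} [Field K] [NumberField K] [DecidableEq K] {A B : 𝓞 K} (hd : ds A B ≠ 0)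
    (Γ : AddSubgroup (Pt (A : K) (B : K))) (hΓ : Module.finrank ℤ Γ ≤ 1) : ∃ c : ℝ, 0 < c ∧
    (∀ (r q : ℕ) (ζ : K), q.Prime → q ∣ r → IsPrimitiveRoot ζ q → ∀ G : Subgroup Kˣ, G.FG →
      ∀ (g : ℕ) (d : Fin g → ℕ), (∀ l, 1 ≤ d l) →
      (∀ l, r ∣ 2 * d l) → ∀ (e : ℕ) (ω : Module.Basis (Fin e) ℤ (𝓞 K)), ∃ C : ℝ, ∀ H : ℕ, 1 ≤ H →
      (Nat.card {a : RamCov.IxG d × Fin e → ℤ // (∀ i, |a i| ≤ (H : ℤ)) ∧
        ∃ P : Fin g → Pt (A : K) (B : K), (∀ l, P l ∈ Γ) ∧ ∃ γ ∈ G, ∃ w : K,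
          (γ : K) * w ^ r = ∑ t : RamCov.IxG d, cf ω a t * ∏ l, RamCov.bas K (d l) (opP (P l)) (t l)} : ℝ) ≤
        C * (H : ℝ) ^ Fintype.card (RamCov.IxG d × Fin e) * Real.exp (-(c * (Real.log (Real.log H)) ^ 2))) ∧
    (∀ (m g s : ℕ) (ν : Fin s → ℕ) (d : Fin s → Fin g → ℕ), m ≤ s → (∀ j, 1 ≤ ν j) → m + 1 ≤ ∑ j, ν j →
      (∀ j l, 1 ≤ d j l) → ∀ (e : ℕ) (ω : Module.Basis (Fin e) ℤ (𝓞 K)), ∃ C : ℝ, ∀ H : ℕ, 1 ≤ H →
      (Nat.card {a : RamCov.IxC m ν d × Fin e → ℤ // (∀ i, |a i| ≤ (H : ℤ)) ∧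
        ∃ P : Fin g → Pt (A : K) (B : K), (∀ l, P l ∈ Γ) ∧ ∃ u : Fin (m + 1) → K, u ≠ 0 ∧
          ∀ j, ∑ t : MWS.Mo m (ν j) × RamCov.IxG (d j), cf ω a ⟨j, t⟩ *
            (MWS.mo u t.1 * ∏ l, RamCov.bas K (d j l) (opP (P l)) (t.2 l)) = 0} : ℝ) ≤
        C * (H : ℝ) ^ Fintype.card (RamCov.IxC m ν d × Fin e) * Real.exp (-(c * (Real.log (Real.log H)) ^ 2))) := by
  classical
  obtain ⟨c1, hc1, -, h2⟩ := main hd Γ hΓ
  obtain ⟨c2, hc2, hK⟩ := concl hd Γ hΓ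
  have hmono : ∀ (c' : ℝ), min c1 c2 ≤ c' → ∀ (X C : ℝ) (n H : ℕ), X ≤ C * (H : ℝ) ^ n * Real.exp (-(c' * (Real.log (Real.log H)) ^ 2)) →
      X ≤ |C| * (H : ℝ) ^ n * Real.exp (-(min c1 c2 * (Real.log (Real.log H)) ^ 2)) := by
    intro c' hc' X C n H hX
    refine hX.trans ?_
    have e1 : C * (H : ℝ) ^ n ≤ |C| * (H : ℝ) ^ n := mul_le_mul_of_nonneg_right (le_abs_self C) (by positivity)
    refine mul_le_mul e1 (Real.exp_le_exp.2 (neg_le_neg ?_)) (Real.exp_pos _).le (by positivity)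
    exact mul_le_mul_of_nonneg_right hc' (sq_nonneg _)
  refine ⟨min c1 c2, lt_min hc1 hc2, ?_, ?_⟩
  · intro r q ζ hq hqr hζ G hG g d hd1 hrd e ω
    have hqd : ∀ l, q ∣ 2 * d l := fun l => hqr.trans (hrd l)
    obtain ⟨n, δ, hδ, hcl⟩ := clsG G hG hq.one_le
    choose C hC using fun i : Fin n =>
      hK g (q + 3 + Ideal.absNorm (Ideal.span {δ i})) (Fintype.card (RamCov.IxG d × Fin e))
    have hkey : ∀ (i : Fin n) (H : ℕ), 1 ≤ H → (Nat.card {a : RamCov.IxG d × Fin e → ℤ // (∀ i, |a i| ≤ (H : ℤ)) ∧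
        ∃ P : Fin g → Pt (A : K) (B : K), (∀ l, P l ∈ Γ) ∧
          AdmV (q + 3 + Ideal.absNorm (Ideal.span {δ i})) (RAG q (δ i) d ω) a P} : ℝ) ≤
        |C i| * (H : ℝ) ^ Fintype.card (RamCov.IxG d × Fin e) *
          Real.exp (-(min c1 c2 * (Real.log (Real.log H)) ^ 2)) := by
      intro i H hH
      exact hmono c2 (min_le_right _ _) _ _ _ _ (hC i H hH _ rfl (RAG q (δ i) d ω) (dens_RAG hq hζ (hδ i) d ω))
    refine ⟨∑ i, |C i|, fun H hH => ?_⟩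
    have hfin : ∀ i : Fin n, Finite {a : RamCov.IxG d × Fin e → ℤ // (∀ i, |a i| ≤ (H : ℤ)) ∧
        ∃ P : Fin g → Pt (A : K) (B : K), (∀ l, P l ∈ Γ) ∧
          AdmV (q + 3 + Ideal.absNorm (Ideal.span {δ i})) (RAG q (δ i) d ω) a P} := by
      intro i
      have h1 : Finite {a : RamCov.IxG d × Fin e → ℤ // ∀ i, |a i| ≤ (H : ℤ)} := by
        have h2 : Set.Finite {a : RamCov.IxG d × Fin e → ℤ | ∀ i, |a i| ≤ (H : ℤ)} := by
          refine Set.Finite.subset (Set.Finite.pi (fun _ => Set.finite_Icc (-(H : ℤ)) H)) fun a ha i _ => ?_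
          exact Set.mem_Icc.2 (abs_le.1 (ha i))
        exact h2
      exact Finite.of_injective (β := {a : RamCov.IxG d × Fin e → ℤ // ∀ i, |a i| ≤ (H : ℤ)}) (fun a => ⟨a.1, a.2.1⟩)
        fun a b hab => Subtype.ext (congrArg (fun x => x.1) hab)
    have hle : Nat.card {a : RamCov.IxG d × Fin e → ℤ // (∀ i, |a i| ≤ (H : ℤ)) ∧
        ∃ P : Fin g → Pt (A : K) (B : K), (∀ l, P l ∈ Γ) ∧ ∃ γ ∈ G, ∃ w : K,
          (γ : K) * w ^ r = ∑ t : RamCov.IxG d, cf ω a t * ∏ l, RamCov.bas K (d l) (opP (P l)) (t l)} ≤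
        ∑ i : Fin n, Nat.card {a : RamCov.IxG d × Fin e → ℤ // (∀ i, |a i| ≤ (H : ℤ)) ∧
          ∃ P : Fin g → Pt (A : K) (B : K), (∀ l, P l ∈ Γ) ∧
            AdmV (q + 3 + Ideal.absNorm (Ideal.span {δ i})) (RAG q (δ i) d ω) a P} := by
      rw [← Nat.card_sigma]
      have hex : ∀ a : {a : RamCov.IxG d × Fin e → ℤ // (∀ i, |a i| ≤ (H : ℤ)) ∧
        ∃ P : Fin g → Pt (A : K) (B : K), (∀ l, P l ∈ Γ) ∧ ∃ γ ∈ G, ∃ w : K,
          (γ : K) * w ^ r = ∑ t : RamCov.IxG d, cf ω a t * ∏ l, RamCov.bas K (d l) (opP (P l)) (t l)},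
          ∃ i : Fin n, (∀ i, |a.1 i| ≤ (H : ℤ)) ∧ ∃ P : Fin g → Pt (A : K) (B : K), (∀ l, P l ∈ Γ) ∧
            AdmV (q + 3 + Ideal.absNorm (Ideal.span {δ i})) (RAG q (δ i) d ω) a.1 P := by
        rintro ⟨a, ha, P, hP, γ, hγ, w, hw⟩
        obtain ⟨i, u, hu⟩ := hcl γ hγ
        obtain ⟨k, rfl⟩ := hqr
        refine ⟨i, ha, P, hP, ?_⟩
        refine adm_RAG hq.one_le (hδ i) (by omega) hd1 hqd ω a P (u * w ^ k) ?_
        rw [← hw, hu, mul_pow, ← pow_mul, mul_comm k q]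
        ring
      choose f hf using hex
      refine Nat.card_le_card_of_injective (fun a => (⟨f a, a.1, hf a⟩ : Σ i : Fin n,
        {a : RamCov.IxG d × Fin e → ℤ // (∀ i, |a i| ≤ (H : ℤ)) ∧
          ∃ P : Fin g → Pt (A : K) (B : K), (∀ l, P l ∈ Γ) ∧
            AdmV (q + 3 + Ideal.absNorm (Ideal.span {δ i})) (RAG q (δ i) d ω) a P})) ?_
      intro a b hab
      exact Subtype.ext (congrArg (fun x => x.2.1) hab)
    calc (Nat.card {a : RamCov.IxG d × Fin e → ℤ // (∀ i, |a i| ≤ (H : ℤ)) ∧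
        ∃ P : Fin g → Pt (A : K) (B : K), (∀ l, P l ∈ Γ) ∧ ∃ γ ∈ G, ∃ w : K,
          (γ : K) * w ^ r = ∑ t : RamCov.IxG d, cf ω a t * ∏ l, RamCov.bas K (d l) (opP (P l)) (t l)} : ℝ) ≤
        ((∑ i : Fin n, Nat.card {a : RamCov.IxG d × Fin e → ℤ // (∀ i, |a i| ≤ (H : ℤ)) ∧
          ∃ P : Fin g → Pt (A : K) (B : K), (∀ l, P l ∈ Γ) ∧
            AdmV (q + 3 + Ideal.absNorm (Ideal.span {δ i})) (RAG q (δ i) d ω) a P} : ℕ) : ℝ) := by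
          exact_mod_cast hle
      _ = ∑ i : Fin n, (Nat.card {a : RamCov.IxG d × Fin e → ℤ // (∀ i, |a i| ≤ (H : ℤ)) ∧
          ∃ P : Fin g → Pt (A : K) (B : K), (∀ l, P l ∈ Γ) ∧
            AdmV (q + 3 + Ideal.absNorm (Ideal.span {δ i})) (RAG q (δ i) d ω) a P} : ℝ) := by
          push_cast
          rfl
      _ ≤ ∑ i : Fin n, |C i| * (H : ℝ) ^ Fintype.card (RamCov.IxG d × Fin e) *
          Real.exp (-(min c1 c2 * (Real.log (Real.log H)) ^ 2)) := Finset.sum_le_sum fun i _ => hkey i H hH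
      _ = _ := by rw [← Finset.sum_mul, ← Finset.sum_mul]
  · intro m g s ν d hm hν hs hd1 e ω
    obtain ⟨C, hC⟩ := h2 m g s ν d hm hν hs hd1 e ω
    exact ⟨|C|, fun H hH => hmono c1 (min_le_left _ _) _ _ _ _ (hC H hH)⟩

end FB
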