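import Pool.Agent.Lib.MP_17a322_ntVK.EB
import Pool.Agent.Lib.MP_17a322_ntVK.Stmt

/-!
# Fixed powers of an elliptic curve: places with an arbitrary residue field
-/

namespace FB

open Finset NumberField VK

/-- a place of `K` with residue field `F` -/
structure PF (K F : Type) [Field K] [Field F] where
  /-- the valuation ring -/
  V : ValuationSubring K
  /-- the residue map -/
  ρ : V →+* F
  /-- the residue map vanishes on the maximal ideal -/
  ker : ∀ x : V, (x : K)⁻¹ ∉ V → ρ x = 0

/-- `x` is integral at the place and has residue `a` -/
def Rf {K F : Type} [Field K] [Field F] (π : PF K F) (x : K) (a : F) : Prop := ∃ h : x ∈ π.V, π.ρ ⟨x, h⟩ = a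

open Classical in
/-- the residue (junk outside of the valuation ring) -/
noncomputable def rf {K F : Type} [Field K] [Field F] (π : PF K F) (x : K) : F := if h : x ∈ π.V then π.ρ ⟨x, h⟩ else 0

open Classical in
/-- reduction of a point of `E(K)`: `none` is the point at infinity -/
noncomputable def rdF {K F : Type} [Field K] [Field F] (π : PF K F) {A B : K} : Pt A B → Option (F × F)
  | .zero => none
  | .some x y _ => if x ∈ π.V then some (rf π x, rf π y) else none

/-- the point reduces to the point at infinity -/
def inK {K : Type} [Field K] (V : ValuationSubring K) {A B : K} : Pt A B → Prop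
  | .zero => True
  | .some x _ _ => x ∉ V

/-- the coordinates of a point -/
def opP {K : Type} [Field K] {A B : K} : Pt A B → Option (K × K)
  | .zero => none
  | .some x y _ => some (x, y)

end FB
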