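import Pool.Agent.Lib.MP_17a322_ntFB.PD1

/-!
# The place of a prime ideal, local conditions
-/

namespace FB

open Finset NumberField VK IsDedekindDomain

/-- the valuation ring of a prime ideal -/
noncomputable abbrev VR {K : Type} [Field K] [NumberField K] (v : HeightOneSpectrum (𝓞 K)) : ValuationSubring K :=
  (v.valuation K).valuationSubring

/-- the residue field of a prime ideal -/
abbrev RF {K : Type} [Field K] [NumberField K] (v : HeightOneSpectrum (𝓞 K)) : Type :=
  IsLocalRing.ResidueField (VR v)

/-- the place of a prime ideal -/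
noncomputable abbrev pV {K : Type} [Field K] [NumberField K] (v : HeightOneSpectrum (𝓞 K)) : PF K (RF v) := ofV (VR v)

/-- the local conditions: depends on the prime ideal `v` and the reductions of the points -/
abbrev LocV (K : Type) [Field K] [NumberField K] (g : ℕ) (ι : Type) : Type :=
  (v : HeightOneSpectrum (𝓞 K)) → (p : ℕ) → (Fin g → Option (RF v × RF v)) → Set (ι → ZMod p)

/-- the density of each local condition is at most `1 - κ` -/
def DensV {K : Type} [Field K] [NumberField K] (N0 : ℕ) {ι : Type} [Fintype ι] {g : ℕ} (R : LocV K g ι) (κ : ℝ) : Prop :=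
  ∀ (v : HeightOneSpectrum (𝓞 K)) (p : ℕ), p.Prime → CharP (RF v) p → N0 ≤ p →
    ∀ z : Fin g → Option (RF v × RF v), (Nat.card (R v p z) : ℝ) ≤ (1 - κ) * (p : ℝ) ^ Fintype.card ι

/-- the integral vector `c` satisfies the local conditions at all places of residue characteristic at least `N0` -/
def AdmV {K : Type} [Field K] [NumberField K] (N0 : ℕ) {ι : Type} {g : ℕ} (R : LocV K g ι) {A B : K} (c : ι → ℤ)
    (P : Fin g → Pt A B) : Prop :=
  ∀ (v : HeightOneSpectrum (𝓞 K)) (p : ℕ), p.Prime → CharP (RF v) p → N0 ≤ p →
    (fun i => ((c i : ℤ) : ZMod p)) ∈ R v p (fun l => rdF (pV v) (P l))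

end FB
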