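import Pool.Agent.Lib.MP_17a322_ntFB.PS2

/-!
# The kernel of reduction at a place, without any hypothesis on the reduction of the curve
-/

namespace FB

open VK

section

variable {K F : Type} [Field K] [Field F] [DecidableEq K] [CharZero K]

private theorem PS3_swap {F : Type} [Field F] {a b l n x₁ y₁ x₂ y₂ x₃ y₃ : F}
    (h : Lin a b l n x₁ y₁ x₂ y₂ x₃ y₃) : Lin a b l n x₁ y₁ x₃ y₃ x₂ y₂ where
  y1 := h.y1
  y2 := h.y3
  y3 := h.y2
  e1 := by rw [h.e1]; ring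
  e2 := by rw [h.e2]; ring
  e3 := by rw [h.e3]; ring

private theorem PS3_eq {F : Type} [Field F] [DecidableEq F] {a b x y : F}
    (h : (EK a b).toAffine.Nonsingular x y) : y ^ 2 = x ^ 3 + a * x + b :=
  (EK_eqn a b x y).1 h.1

private theorem PS3_neg {F : Type} [Field F] (a b x y : F) : (EK a b).toAffine.negY x y = -y := by
  show -y - (0 : F) * x - 0 = -y
  ring

/-- the third point -/
private theorem PS3_third {A B x₁ y₁ x₂ y₂ : K} (h₁ : (EK A B).toAffine.Nonsingular x₁ y₁)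
    (h₂ : (EK A B).toAffine.Nonsingular x₂ y₂)
    (h : (.some x₁ y₁ h₁ : Pt A B) + .some x₂ y₂ h₂ ≠ 0) :
    ∃ x₃ y₃, ∃ h₃ : (EK A B).toAffine.Nonsingular x₃ y₃, ∃ h₄ : (EK A B).toAffine.Nonsingular x₃ (-y₃), ∃ l n,
      Lin A B l n x₁ y₁ x₂ y₂ x₃ y₃ ∧ (.some x₁ y₁ h₁ : Pt A B) + .some x₂ y₂ h₂ = .some x₃ (-y₃) h₄ := by
  rcases hS : (.some x₁ y₁ h₁ : Pt A B) + .some x₂ y₂ h₂ with _ | ⟨x₃, y₃, h₃⟩
  · exact absurd hS h
  · have h5 : (EK A B).toAffine.Nonsingular x₃ (-y₃) := by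
      have := (WeierstrassCurve.Affine.nonsingular_neg (W' := (EK A B).toAffine) x₃ y₃).2 h₃
      rwa [PS3_neg] at this
    have h6 : (.some x₃ (-y₃) h5 : Pt A B) = -.some x₃ y₃ h₃ := by
      rw [WeierstrassCurve.Affine.Point.neg_some]
      simp only [PS3_neg]
    obtain ⟨l, n, hL⟩ := lin_of_sum A B two_ne_zero x₁ y₁ x₂ y₂ x₃ (-y₃) h₁ h₂ h5 (by
      rw [hS, h6, add_neg_cancel])
    refine ⟨x₃, -y₃, h5, ?_, l, n, hL, ?_⟩
    · rw [neg_neg]
      exact h₃
    · simp only [neg_neg]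
      exact hS

omit [DecidableEq K] [CharZero K] in
theorem inK_neg (V : ValuationSubring K) {A B : K} {P : Pt A B} (hP : inK V P) : inK V (-P) := by
  rcases P with _ | ⟨x, y, h⟩
  · exact hP
  · rw [WeierstrassCurve.Affine.Point.neg_some]
    exact hP

/-- the place of a valuation ring -/
noncomputable def ofV (V : ValuationSubring K) : PF K (IsLocalRing.ResidueField V) where
  V := V
  ρ := IsLocalRing.residue V
  ker := by
    intro x hx
    rw [IsLocalRing.residue_eq_zero_iff, IsLocalRing.mem_maximalIdeal, mem_nonunits_iff]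
    rintro ⟨u, hu⟩
    apply hx
    have h1 : ((u : V) : K) * (((u⁻¹ : Vˣ) : V) : K) = 1 := congrArg (fun y : V => (y : K)) u.mul_inv
    rw [hu] at h1
    rw [inv_eq_of_mul_eq_one_right h1]
    exact (((u⁻¹ : Vˣ) : V)).2

/-- addition of a point of the kernel of reduction to another point -/
theorem rdF_add (π : PF K F) {A B : K} (hA : A ∈ π.V) (hB : B ∈ π.V) {P R : Pt A B} (hR : inK π.V R) :
    rdF π (P + R) = rdF π P ∧ (inK π.V P → inK π.V (P + R)) := by
  classical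
  have hin : ∀ Q : Pt A B, inK π.V Q → rdF π Q = none := by
    intro Q hQ
    rcases Q with _ | ⟨x, y, h⟩
    · rfl
    · exact if_neg hQ
  by_cases hR0 : R = 0
  · rw [hR0, add_zero]
    exact ⟨rfl, fun h => h⟩
  by_cases hP0 : P = 0
  · rw [hP0, zero_add]
    exact ⟨(hin R hR).trans (hin 0 trivial).symm, fun _ => hR⟩
  by_cases hS : P + R = 0
  · have h1 : P = -R := eq_neg_of_add_eq_zero_left hS
    have h2 : inK π.V P := by
      rw [h1]
      exact inK_neg π.V hR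
    rw [hS]
    exact ⟨(hin 0 trivial).trans (hin P h2).symm, fun _ => trivial⟩
  rcases P with _ | ⟨x₂, y₂, h₂⟩
  · exact absurd rfl hP0
  rcases R with _ | ⟨x₁, y₁, h₁⟩
  · exact absurd rfl hR0
  rw [add_comm] at hS ⊢
  obtain ⟨x₃, y₃, h₃, h₄, l, n, hL, hsum⟩ := PS3_third h₁ h₂ hS
  rw [hsum]
  have k1 : x₁ ∉ π.V := hR
  have e₁ := PS3_eq h₁
  have e₂ := PS3_eq h₂
  have e₃ := PS3_eq h₃
  by_cases k2 : x₂ ∈ π.V
  · obtain ⟨g1, g2, g3⟩ := red_unitK π hA hB hL e₁ e₂ e₃ k1 k2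
    refine ⟨?_, fun h => absurd k2 h⟩
    have hy3 : y₃ ∈ π.V := (den_xyK π hA hB e₃).1 g1
    have g4 : rf π (-y₃) = - rf π y₃ := by
      obtain ⟨a1, a2⟩ := rf_res hy3
      refine res_eq (⟨π.V.neg_mem _ a1, ?_⟩ : Rf π (-y₃) (- rf π y₃))
      rw [← a2]
      exact map_neg π.ρ ⟨y₃, a1⟩
    show (if x₃ ∈ π.V then some (rf π x₃, rf π (-y₃)) else none) = if x₂ ∈ π.V then some (rf π x₂, rf π y₂) else none
    rw [if_pos g1, if_pos k2, g4, g2, g3, neg_neg]
  · have k3 : x₃ ∉ π.V := by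
      intro k3
      exact k2 (red_unitK π hA hB (PS3_swap hL) e₁ e₃ e₂ k1 k3).1
    refine ⟨?_, fun _ => k3⟩
    show (if x₃ ∈ π.V then some (rf π x₃, rf π (-y₃)) else none) = if x₂ ∈ π.V then some (rf π x₂, rf π y₂) else none
    rw [if_neg k3, if_neg k2]

theorem inK_add (V : ValuationSubring K) {A B : K} (hA : A ∈ V) (hB : B ∈ V) {P Q : Pt A B} (hP : inK V P)
    (hQ : inK V Q) : inK V (P + Q) :=
  (rdF_add (ofV V) hA hB (R := Q) hQ).2 hP

theorem inK_nsmul (V : ValuationSubring K) {A B : K} (hA : A ∈ V) (hB : B ∈ V) {P : Pt A B} (hP : inK V P) (n : ℕ) :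
    inK V (n • P) := by
  induction n with
  | zero =>
    rw [zero_smul]
    exact trivial
  | succ n ih =>
    rw [succ_nsmul]
    exact inK_add V hA hB ih hP

theorem inK_zsmul (V : ValuationSubring K) {A B : K} (hA : A ∈ V) (hB : B ∈ V) {P : Pt A B} (hP : inK V P) (n : ℤ) :
    inK V (n • P) := by
  rcases Int.eq_nat_or_neg n with ⟨k, rfl | rfl⟩
  · rw [natCast_zsmul]
    exact inK_nsmul V hA hB hP k
  · rw [neg_smul, natCast_zsmul]
    exact inK_neg V (inK_nsmul V hA hB hP k)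

end

end FB
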