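import Pool.Agent.Lib.MP_17a322_ntFB.PS3
import Pool.Agent.Lib.MP_17a322_ntVK.SD1

/-!
# The values of the basis at a point and at its reduction (as `MP_17a322_ntVK/SD1`, arbitrary residue field)
-/

namespace FB

open Finset NumberField VK

section

variable {K F : Type} [Field K] [Field F]

private theorem PD1_sq {π : PF K F} {x : K} {r : F} (h : Rf π (x ^ 2) r) : Rf π x (rf π x) ∧ rf π x ^ 2 = r := by
  have h1 : x ∈ π.V := mem_pow π (by norm_num) h.choose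
  have h2 := rf_res h1
  exact ⟨h2, (h2.pow 2).unique h⟩

private theorem PD1_inv {π : PF K F} {x : K} (hx : x ∉ π.V) : x ≠ 0 ∧ Rf π x⁻¹ 0 := by
  have h0 : x ≠ 0 := by
    rintro rfl
    exact hx π.V.zero_mem
  have h1 : x⁻¹ ∈ π.V := (π.V.mem_or_inv_mem x).resolve_left hx
  refine ⟨h0, h1, ?_⟩
  refine π.ker ⟨x⁻¹, h1⟩ ?_
  show (x⁻¹)⁻¹ ∉ π.V
  rw [inv_inv]
  exact hx

private theorem PD1_zpow {π : PF K F} {x : K} (h1 : x ∈ π.V) (h2 : x⁻¹ ∈ π.V) (n : ℤ) :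
    Rf π (x ^ n) (rf π x ^ n) := by
  have h3 := rf_res h1
  rcases n with n | n
  · show Rf π (x ^ ((n : ℕ) : ℤ)) (rf π x ^ ((n : ℕ) : ℤ))
    rw [zpow_natCast, zpow_natCast]
    exact h3.pow n
  · rw [zpow_negSucc, zpow_negSucc, ← inv_pow, ← inv_pow]
    exact (h3.inv h2).pow (n + 1)

private theorem PD1_red {π : PF K F} {A B : K} (hA : A ∈ π.V) (hB : B ∈ π.V) {d : ℕ} {x y : K}
    (he : y ^ 2 = x ^ 3 + A * x + B) (hx : x ∉ π.V) (k : RamCov.Ix d) :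
    Rf π ((x⁻¹) ^ d * RamCov.bas K d (some (x, y)) k) (RamCov.bas (F) d none k) := by
  obtain ⟨hx0, ht⟩ := PD1_inv hx
  obtain ⟨t, htdef⟩ : ∃ t, t = x⁻¹ := ⟨_, rfl⟩
  rw [← htdef] at ht ⊢
  have hxt : x * t = 1 := by rw [htdef]; exact mul_inv_cancel₀ hx0
  obtain ⟨s, hsdef⟩ : ∃ s, s = y * t ^ 2 := ⟨_, rfl⟩
  have hs2 : s ^ 2 = t + A * t ^ 3 + B * t ^ 4 := by
    have e1 : s ^ 2 = y ^ 2 * t ^ 4 := by rw [hsdef]; ring
    rw [e1, he]
    have e2 : x ^ 3 * t ^ 4 = t := by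
      have : x ^ 3 * t ^ 4 = (x * t) ^ 3 * t := by ring
      rw [this, hxt]; ring
    have e3 : x * t ^ 4 = t ^ 3 := by
      have : x * t ^ 4 = (x * t) * t ^ 3 := by ring
      rw [this, hxt]; ring
    linear_combination e2 + A * e3
  have hs2r : Rf π (s ^ 2) 0 := by
    rw [hs2]
    have h3 := (ht.add ((rf_res hA).mul (ht.pow 3))).add ((rf_res hB).mul (ht.pow 4))
    simpa using h3
  have hs : Rf π s 0 := by
    obtain ⟨h3, h4⟩ := PD1_sq hs2r
    have h5 : rf π s = 0 := (pow_eq_zero_iff two_ne_zero).1 h4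
    rwa [h5] at h3
  rcases k with i | i
  · show Rf π (t ^ d * x ^ (i : ℕ)) (if i = Fin.last d then 1 else 0)
    have hi : (i : ℕ) ≤ d := Nat.lt_succ_iff.1 i.2
    have e4 : t ^ d * x ^ (i : ℕ) = t ^ (d - (i : ℕ)) := by
      have e5 : t ^ d = t ^ (i : ℕ) * t ^ (d - (i : ℕ)) := by rw [← pow_add, Nat.add_sub_cancel' hi]
      have e6 : x ^ (i : ℕ) * t ^ (i : ℕ) = 1 := by rw [← mul_pow, hxt, one_pow]
      rw [e5]
      linear_combination (t ^ (d - (i : ℕ))) * e6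
    rw [e4]
    by_cases hl : i = Fin.last d
    · have h6 : (i : ℕ) = d := by rw [hl]; rfl
      rw [if_pos hl, h6, Nat.sub_self, pow_zero]
      exact Rf.one
    · have h6 : (i : ℕ) < d := lt_of_le_of_ne hi fun h7 => hl (Fin.ext (by rw [h7]; rfl))
      rw [if_neg hl]
      have h7 := ht.pow (d - (i : ℕ))
      rwa [zero_pow (by omega)] at h7
  · show Rf π (t ^ d * (x ^ (i : ℕ) * y)) 0
    have hi : (i : ℕ) < d - 1 := i.2
    have hi2 : (i : ℕ) + 2 ≤ d := by omega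
    have e4 : t ^ d * (x ^ (i : ℕ) * y) = t ^ (d - ((i : ℕ) + 2)) * s := by
      have e5 : t ^ d = t ^ (i : ℕ) * t ^ 2 * t ^ (d - ((i : ℕ) + 2)) := by
        rw [← pow_add, ← pow_add, Nat.add_sub_cancel' hi2]
      have e6 : x ^ (i : ℕ) * t ^ (i : ℕ) = 1 := by rw [← mul_pow, hxt, one_pow]
      rw [e5, hsdef]
      linear_combination (t ^ 2 * y * t ^ (d - ((i : ℕ) + 2))) * e6
    rw [e4]
    have h7 := (ht.pow (d - ((i : ℕ) + 2))).mul hs
    rwa [mul_zero] at h7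

end

theorem bas_red {K F : Type} [Field K] [Field F] (π : PF K F) {A B : K} (hA : A ∈ π.V) (hB : B ∈ π.V)
    {q d : ℕ} (hd : 1 ≤ d) (hq : q ∣ 2 * d) (P : Pt A B) : ∃ σ : K, σ ≠ 0 ∧ ∀ k : RamCov.Ix d,
      Rf π (σ ^ q * RamCov.bas K d (opP P) k) (RamCov.bas (F) d (rdF π P) k) := by
  classical
  rcases P with _ | ⟨x, y, hxy⟩
  · refine ⟨1, one_ne_zero, fun k => ?_⟩
    rw [one_pow, one_mul]
    rcases k with i | i
    · show Rf π (if i = Fin.last d then 1 else 0) (if i = Fin.last d then 1 else 0)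
      by_cases hi : i = Fin.last d
      · rw [if_pos hi, if_pos hi]
        exact Rf.one
      · rw [if_neg hi, if_neg hi]
        exact Rf.zero
    · exact Rf.zero
  · have he : y ^ 2 = x ^ 3 + A * x + B := (EK_eqn A B x y).1 hxy.1
    by_cases hx : x ∈ π.V
    · have h1 : rdF π (.some x y hxy : Pt A B) = some (rf π x, rf π y) := by
        unfold rdF
        exact if_pos hx
      rw [h1]
      have hy : y ∈ π.V := (den_xyK π hA hB he).1 hx
      refine ⟨1, one_ne_zero, fun k => ?_⟩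
      rw [one_pow, one_mul]
      rcases k with i | i
      · show Rf π (x ^ (i : ℕ)) (rf π x ^ (i : ℕ))
        exact (rf_res hx).pow _
      · show Rf π (x ^ (i : ℕ) * y) (rf π x ^ (i : ℕ) * rf π y)
        exact ((rf_res hx).pow _).mul (rf_res hy)
    · have h1 : rdF π (.some x y hxy : Pt A B) = none := by
        unfold rdF
        exact if_neg hx
      rw [h1]
      obtain ⟨hx0, ht⟩ := PD1_inv hx
      have hxt : x * x⁻¹ = 1 := mul_inv_cancel₀ hx0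
      have ht0 : x⁻¹ ≠ 0 := inv_ne_zero hx0
      have hv : Rf π (1 + A * (x⁻¹) ^ 2 + B * (x⁻¹) ^ 3) 1 := by
        have h3 := (Rf.one.add ((rf_res hA).mul (ht.pow 2))).add ((rf_res hB).mul (ht.pow 3))
        simpa using h3
      have hv0 : 1 + A * (x⁻¹) ^ 2 + B * (x⁻¹) ^ 3 ≠ 0 := by
        intro h0
        rw [h0] at hv
        exact one_ne_zero (hv.unique Rf.zero)
      have hsq : (y * (x⁻¹) ^ 2) ^ 2 = x⁻¹ * (1 + A * (x⁻¹) ^ 2 + B * (x⁻¹) ^ 3) := by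
        have e1 : (y * (x⁻¹) ^ 2) ^ 2 = y ^ 2 * (x⁻¹) ^ 4 := by ring
        rw [e1, he]
        have e2 : x ^ 3 * (x⁻¹) ^ 4 = x⁻¹ := by
          have : x ^ 3 * (x⁻¹) ^ 4 = (x * x⁻¹) ^ 3 * x⁻¹ := by ring
          rw [this, hxt]; ring
        have e3 : x * (x⁻¹) ^ 4 = (x⁻¹) ^ 3 := by
          have : x * (x⁻¹) ^ 4 = (x * x⁻¹) * (x⁻¹) ^ 3 := by ring
          rw [this, hxt]; ring
        linear_combination e2 + A * e3
      have hs0 : y * (x⁻¹) ^ 2 ≠ 0 := by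
        intro h0
        rw [h0, zero_pow two_ne_zero] at hsq
        exact mul_ne_zero ht0 hv0 hsq.symm
      obtain ⟨m, hm⟩ := hq
      refine ⟨(y * (x⁻¹) ^ 2) ^ m, pow_ne_zero _ hs0, fun k => ?_⟩
      have e : ((y * (x⁻¹) ^ 2) ^ m) ^ q * RamCov.bas K d (opP (.some x y hxy : Pt A B)) k =
          (1 + A * (x⁻¹) ^ 2 + B * (x⁻¹) ^ 3) ^ d * ((x⁻¹) ^ d * RamCov.bas K d (some (x, y)) k) := by
        have e1 : ((y * (x⁻¹) ^ 2) ^ m) ^ q = ((y * (x⁻¹) ^ 2) ^ 2) ^ d := by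
          rw [← pow_mul, ← pow_mul, hm, mul_comm q m]
        rw [e1, hsq, mul_pow]
        show (x⁻¹) ^ d * (1 + A * (x⁻¹) ^ 2 + B * (x⁻¹) ^ 3) ^ d * RamCov.bas K d (some (x, y)) k = _
        ring
      rw [e]
      have h5 := (hv.pow d).mul (PD1_red (d := d) hA hB he hx k)
      rw [one_pow, one_mul] at h5
      exact h5


/-- the values of the basis of the sections on `E_1 × .. × E_g` -/
theorem bas_redG {K F : Type} [Field K] [Field F] (π : PF K F) {g : ℕ} {A B : K} (hA : A ∈ π.V) (hB : B ∈ π.V)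
    {q : ℕ} {d : Fin g → ℕ} (hd : ∀ l, 1 ≤ d l) (hq : ∀ l, q ∣ 2 * d l) (P : Fin g → Pt A B) :
    ∃ σ : K, σ ≠ 0 ∧ ∀ t : RamCov.IxG d, Rf π (σ ^ q * ∏ l, RamCov.bas K (d l) (opP (P l)) (t l))
      (∏ l, RamCov.bas F (d l) (rdF π (P l)) (t l)) := by
  choose s hs0 hs using fun l => bas_red π hA hB (hd l) (hq l) (P l)
  refine ⟨∏ l, s l, Finset.prod_ne_zero_iff.2 fun l _ => hs0 l, fun t => ?_⟩
  rw [← Finset.prod_pow, ← Finset.prod_mul_distrib]
  exact Rf.prod _ fun l _ => hs l (t l)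

end FB
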