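import Mathlib

/-!
LEAF N1 (Mathlib only).  The window.
Proof. Replacing `C`, `L`, `c` by `max · 0` we may assume that they are `≥ 0`.  Let `n = card σ`, `m1 ≥ 1` with
`q / 2 * m1 ^ 2 ≥ C + n c + n (L + n c) + 1`.  Let `m ≥ m1` and suppose that `∑ s, g s m_j > q / 2 m_j ^ 2` for all
`j = 0, .., n`, where `m_j = 2 ^ j * m`.  Put `t_j = L + (n - j) c` (`≥ L` for `j ≤ n`) and `A_j = {s : t_j ≤ g s m_j}`.
(1) `A_j ⊆ A_(j+1)` for `j < n`: `g s m_(j+1) ≥ g s m_j - c ≥ t_j - c = t_(j+1)` (`m_(j+1) = 2 * m_j`).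
(2) `A_0 ≠ ∅`: otherwise `q / 2 * m ^ 2 < ∑ s, g s m ≤ n (L + n c)`.
(3) `A_(j+1) ≠ A_j` for `j < n`: otherwise `∑ s, g s m_(j+1) ≤ ∑_(s ∈ A_j) (g s m_j + c) + ∑_(s ∉ A_(j+1)) t_(j+1)
≤ q m_j ^ 2 + C + n c + n (L + n c)`, while it is `> q / 2 * m_(j+1) ^ 2 = 2 q m_j ^ 2`, so `q m_j ^ 2 < C + n c + n (L + n c)`,
a contradiction with `m_j ≥ m1`.
Hence `card A_j ≥ j + 1` for `j ≤ n` by induction, and `card A_n ≥ n + 1 > card σ`: a contradiction.
-/

namespace FB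

open Finset

theorem window {σ : Type} [Fintype σ] {q C L c : ℝ} (hq : 0 < q) (g : σ → ℕ → ℝ) (hg : ∀ s m, 0 ≤ g s m)
    (hC : ∀ m : ℕ, 1 ≤ m → ∑ s, g s m ≤ q * (m : ℝ) ^ 2 + C)
    (hL : ∀ (s : σ) (m : ℕ), 1 ≤ m → L ≤ g s m → |g s (2 * m) - g s m| ≤ c) :
    ∃ m1 : ℕ, 1 ≤ m1 ∧ ∀ m : ℕ, m1 ≤ m → ∃ j : ℕ, j ≤ Fintype.card σ ∧
      ∑ s, g s (2 ^ j * m) ≤ q / 2 * ((2 ^ j * m : ℕ) : ℝ) ^ 2 := by
  classical
  obtain ⟨C', hC0, hCC⟩ : ∃ C' : ℝ, 0 ≤ C' ∧ C ≤ C' := ⟨max C 0, le_max_right _ _, le_max_left _ _⟩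
  obtain ⟨L', hL0, hLL⟩ : ∃ L' : ℝ, 0 ≤ L' ∧ L ≤ L' := ⟨max L 0, le_max_right _ _, le_max_left _ _⟩
  obtain ⟨c', hc0, hcc⟩ : ∃ c' : ℝ, 0 ≤ c' ∧ c ≤ c' := ⟨max c 0, le_max_right _ _, le_max_left _ _⟩
  obtain ⟨N, hN⟩ : ∃ N : ℝ, N = (Fintype.card σ : ℝ) := ⟨_, rfl⟩
  have hN0 : 0 ≤ N := hN ▸ Nat.cast_nonneg _
  have hNc : 0 ≤ N * c' := mul_nonneg hN0 hc0
  have hNL : 0 ≤ N * (L' + N * c') := mul_nonneg hN0 (add_nonneg hL0 hNc)
  obtain ⟨B, hB⟩ : ∃ B : ℝ, B = C' + N * c' + N * (L' + N * c') + 1 := ⟨_, rfl⟩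
  have hB1 : 1 ≤ B := by rw [hB]; linarith
  obtain ⟨m0, hm0⟩ := exists_nat_ge (2 * B / q)
  have hsumconst : ∀ x : ℝ, ∑ _s : σ, x = N * x := by
    intro x
    rw [Finset.sum_const, Finset.card_univ, nsmul_eq_mul, hN]
  have hkey : ∀ k : ℕ, m0 + 1 ≤ k → B ≤ q / 2 * (k : ℝ) ^ 2 := by
    intro k hk
    have h1 : (m0 : ℝ) + 1 ≤ (k : ℝ) := by exact_mod_cast hk
    have h2 : (0 : ℝ) ≤ (m0 : ℝ) := Nat.cast_nonneg _
    have h3 : (m0 : ℝ) ≤ (k : ℝ) ^ 2 := by nlinarith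
    have h4 : 2 * B ≤ q * (m0 : ℝ) := by
      rw [div_le_iff₀ hq] at hm0
      linarith
    nlinarith
  refine ⟨m0 + 1, Nat.succ_le_succ (Nat.zero_le _), fun m hm => ?_⟩
  by_contra hcon
  push Not at hcon
  have hmpos : 1 ≤ m := le_trans (Nat.succ_le_succ (Nat.zero_le _)) hm
  have hmj : ∀ j : ℕ, m0 + 1 ≤ 2 ^ j * m := fun j =>
    le_trans hm (Nat.le_mul_of_pos_left _ (Nat.pos_of_ne_zero (by positivity)))
  have hmj1 : ∀ j : ℕ, 1 ≤ 2 ^ j * m := fun j =>
    le_trans (Nat.succ_le_succ (Nat.zero_le _)) (hmj j)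
  have hsucc : ∀ j : ℕ, 2 ^ (j + 1) * m = 2 * (2 ^ j * m) := fun j => by ring
  have hmain : ∀ j : ℕ, j ≤ Fintype.card σ →
      j + 1 ≤ (Finset.univ.filter fun s => L' + (N - j) * c' ≤ g s (2 ^ j * m)).card := by
    intro j
    induction j with
    | zero =>
      intro _
      rw [Nat.zero_add, Nat.succ_le_iff, Finset.card_pos]
      by_contra hne
      rw [Finset.not_nonempty_iff_eq_empty] at hne
      have h1 : ∀ s, g s (2 ^ 0 * m) ≤ L' + N * c' := by
        intro s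
        by_contra h2
        have h3 : s ∈ Finset.univ.filter fun s => L' + (N - (0 : ℕ)) * c' ≤ g s (2 ^ 0 * m) := by
          rw [Finset.mem_filter]
          refine ⟨Finset.mem_univ _, ?_⟩
          rw [Nat.cast_zero, sub_zero]
          exact le_of_lt (not_le.1 h2)
        rw [hne] at h3
        exact Finset.notMem_empty _ h3
      have h2 := hcon 0 (Nat.zero_le _)
      have h3 : ∑ s, g s (2 ^ 0 * m) ≤ N * (L' + N * c') := by
        rw [← hsumconst]
        exact Finset.sum_le_sum fun s _ => h1 s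
      have h4 := hkey _ (hmj 0)
      rw [hB] at h4
      have h5 := h4.trans (h2.le.trans h3)
      linarith
    | succ j ih =>
      intro hj
      have hj' : j ≤ Fintype.card σ := by omega
      have ih' := ih hj'
      have hjN : (j : ℝ) + 1 ≤ N := by
        rw [hN]
        exact_mod_cast hj
      have ht : 0 ≤ (N - j) * c' := mul_nonneg (by linarith) hc0
      have hstep : ∀ s, L' + (N - j) * c' ≤ g s (2 ^ j * m) →
          |g s (2 ^ (j + 1) * m) - g s (2 ^ j * m)| ≤ c' := by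
        intro s hs
        rw [hsucc]
        exact le_trans (hL s (2 ^ j * m) (hmj1 j) (by linarith)) hcc
      have hsub : (Finset.univ.filter fun s => L' + (N - j) * c' ≤ g s (2 ^ j * m)) ⊆
          Finset.univ.filter fun s => L' + (N - (j + 1 : ℕ)) * c' ≤ g s (2 ^ (j + 1) * m) := by
        intro s hs
        rw [Finset.mem_filter] at hs ⊢
        refine ⟨Finset.mem_univ _, ?_⟩
        have h1 := (abs_le.1 (hstep s hs.2)).1
        have h2 := hs.2
        rw [Nat.cast_add, Nat.cast_one]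
        nlinarith
      have hne : (Finset.univ.filter fun s => L' + (N - j) * c' ≤ g s (2 ^ j * m)) ≠
          Finset.univ.filter fun s => L' + (N - (j + 1 : ℕ)) * c' ≤ g s (2 ^ (j + 1) * m) := by
        intro heq
        have h1 : ∀ s, g s (2 ^ (j + 1) * m) ≤ g s (2 ^ j * m) + (c' + (L' + N * c')) := by
          intro s
          by_cases hs : L' + (N - j) * c' ≤ g s (2 ^ j * m)
          · have h2 := (abs_le.1 (hstep s hs)).2
            linarith
          · have h2 : s ∉ Finset.univ.filter fun s =>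
                L' + (N - (j + 1 : ℕ)) * c' ≤ g s (2 ^ (j + 1) * m) := by
              rw [← heq, Finset.mem_filter]
              exact fun h => hs h.2
            have h3 : ¬ L' + (N - (j + 1 : ℕ)) * c' ≤ g s (2 ^ (j + 1) * m) := fun h =>
              h2 (Finset.mem_filter.2 ⟨Finset.mem_univ _, h⟩)
            have h4 := not_le.1 h3
            rw [Nat.cast_add, Nat.cast_one] at h4
            have h5 := hg s (2 ^ j * m)
            have h6 : (0 : ℝ) ≤ ((j : ℝ) + 1) * c' := mul_nonneg (by positivity) hc0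
            nlinarith
        have h2 : ∑ s, g s (2 ^ (j + 1) * m) ≤ ∑ s, g s (2 ^ j * m) + N * (c' + (L' + N * c')) := by
          rw [← hsumconst, ← Finset.sum_add_distrib]
          exact Finset.sum_le_sum fun s _ => h1 s
        have h3 := hC (2 ^ j * m) (hmj1 j)
        have h4 := hcon (j + 1) hj
        have h5 := hkey _ (hmj j)
        have h6 : ((2 ^ (j + 1) * m : ℕ) : ℝ) = 2 * ((2 ^ j * m : ℕ) : ℝ) := by
          rw [hsucc, Nat.cast_mul, Nat.cast_ofNat]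
        rw [h6] at h4
        rw [hB] at h5
        nlinarith
      have hcard := Finset.card_lt_card (lt_of_le_of_ne hsub hne)
      exact le_trans (Nat.succ_le_succ ih') (Nat.succ_le_of_lt hcard)
  have h1 := hmain (Fintype.card σ) le_rfl
  have h2 := Finset.card_le_univ
    (Finset.univ.filter fun s => L' + (N - (Fintype.card σ : ℕ)) * c' ≤ g s (2 ^ Fintype.card σ * m))
  omega

end FB
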