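import Pool.Agent.Lib.MP_17a322_ntFB.NDefs

/-!
LEAF N4.  Duplication and triplication at a nonarchimedean place.
`v n ≤ 1` for integers `n` by `hna` (write `2 = 1 + 1`, `3 = 2 + 1`, ..).  If `v y < v x` then `v (x + y) = v x` (from `hna`; e.g.
`v x = v ((x + y) + (-y)) ≤ max (v (x + y)) (v y)`).
`na_dup0`: with `E = x ^ 3 + A x + B`, `N = x ^ 4 - 2 A x ^ 2 - 8 B x + A ^ 2` (`v x > 1`): `v E = (v x) ^ 3` (`v (A x + B) ≤ v x`),
`v N = (v x) ^ 4` (the other terms have value at most `(v x) ^ 2`), and `v X * (v 4 * v E) = v N`.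
`na_dup`: `v 4 = (v 2) ^ 2 = 1`, so `v X = v x`; `(X - x) * (4 * E) = - 3 x ^ 4 - 6 A x ^ 2 - 12 B x + A ^ 2` (linear_combination h),
which has value `v 3 (v x) ^ 4 = (v x) ^ 4`.
`na_trip`: `v (x * X) = (v x) ^ 2 > 1 ≥ v A`, so `v ((x X - A) ^ 2) = (v x) ^ 4 > v x ≥ v (4 B (x + X))`, and
`v Y * v x * (v x) ^ 2 = (v x) ^ 4`.
-/

namespace FB

private theorem N4_nat {F : Type} [Field F] (v : AbsoluteValue F ℝ) (hna : ∀ x y, v (x + y) ≤ max (v x) (v y)) (n : ℕ) :
    v (n : F) ≤ 1 := by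
  induction n with
  | zero => rw [Nat.cast_zero, v.map_zero]; exact zero_le_one
  | succ n ih =>
    rw [Nat.cast_succ]
    refine (hna _ _).trans (max_le ih ?_)
    rw [v.map_one]

private theorem N4_add {F : Type} [Field F] (v : AbsoluteValue F ℝ) (hna : ∀ x y, v (x + y) ≤ max (v x) (v y)) {x y : F}
    (h : v y < v x) : v (x + y) = v x := by
  refine le_antisymm ((hna x y).trans (max_le le_rfl h.le)) ?_
  by_contra hc
  have h1 : v ((x + y) + -y) ≤ max (v (x + y)) (v (-y)) := hna _ _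
  rw [v.map_neg, add_neg_cancel_right] at h1
  exact absurd h1 (not_le.2 (max_lt (not_le.1 hc) h))

private theorem N4_le {F : Type} [Field F] (v : AbsoluteValue F ℝ) (hna : ∀ x y, v (x + y) ≤ max (v x) (v y)) {A B x : F}
    {c₁ c₂ : F} (hA : v A ≤ 1) (hB : v B ≤ 1) (hx : 1 < v x) (h1 : v c₁ ≤ 1) (h2 : v c₂ ≤ 1) :
    v (c₁ * (A * x ^ 2) + (c₂ * (B * x) + A ^ 2)) ≤ v x ^ 2 := by
  have hx0 : 0 ≤ v x := v.nonneg x
  have hxx : v x ≤ v x ^ 2 := le_self_pow₀ hx.le two_ne_zero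
  have hA0 : 0 ≤ v A := v.nonneg A
  have hB0 : 0 ≤ v B := v.nonneg B
  refine (hna _ _).trans (max_le ?_ ((hna _ _).trans (max_le ?_ ?_)))
  · rw [v.map_mul, v.map_mul, v.map_pow]
    exact mul_le_of_le_one_left (by positivity) h1 |>.trans (mul_le_of_le_one_left (by positivity) hA)
  · rw [v.map_mul, v.map_mul]
    exact ((mul_le_of_le_one_left (by positivity) h2).trans (mul_le_of_le_one_left hx0 hB)).trans hxx
  · rw [v.map_pow]
    have h3 : v A ^ 2 ≤ 1 := pow_le_one₀ hA0 hA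
    linarith

private theorem N4_E {F : Type} [Field F] (v : AbsoluteValue F ℝ) (hna : ∀ x y, v (x + y) ≤ max (v x) (v y)) {A B x : F}
    (hA : v A ≤ 1) (hB : v B ≤ 1) (hx : 1 < v x) : v (x ^ 3 + A * x + B) = v x ^ 3 := by
  rw [add_assoc, N4_add v hna, v.map_pow]
  have h1 : v (A * x + B) ≤ v x := by
    refine (hna _ _).trans (max_le ?_ (hB.trans hx.le))
    rw [v.map_mul]
    exact mul_le_of_le_one_left (v.nonneg x) hA
  rw [v.map_pow]
  refine lt_of_le_of_lt h1 ?_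
  exact lt_self_pow₀ hx (by norm_num)

private theorem N4_sq {t : ℝ} (ht : 1 < t) : t ^ 2 < t ^ 4 := pow_lt_pow_right₀ ht (by norm_num)

theorem na_dup0 {F : Type} [Field F] (v : AbsoluteValue F ℝ) (hna : ∀ x y, v (x + y) ≤ max (v x) (v y)) {A B x X : F}
    (hA : v A ≤ 1) (hB : v B ≤ 1) (hx : 1 < v x) (h : Dup A B x X) : v X * v 4 = v x := by
  have h8 : v 8 ≤ 1 := by
    have := N4_nat v hna 8
    exact_mod_cast this
  have h2 : v 2 ≤ 1 := by
    have := N4_nat v hna 2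
    exact_mod_cast this
  have h1 : v (x ^ 4 - 2 * A * x ^ 2 - 8 * B * x + A ^ 2) = v x ^ 4 := by
    have e1 : x ^ 4 - 2 * A * x ^ 2 - 8 * B * x + A ^ 2 =
        x ^ 4 + ((-2) * (A * x ^ 2) + ((-8) * (B * x) + A ^ 2)) := by ring
    rw [e1, N4_add v hna, v.map_pow]
    rw [v.map_pow]
    refine lt_of_le_of_lt (N4_le v hna hA hB hx ?_ ?_) (N4_sq hx)
    · rw [v.map_neg]; exact h2
    · rw [v.map_neg]; exact h8
  have h3 := congrArg v h
  rw [h1, v.map_mul, v.map_mul, N4_E v hna hA hB hx] at h3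
  have hx0 : 0 < v x := zero_lt_one.trans hx
  have h4 : (v X * v 4) * v x ^ 3 = v x * v x ^ 3 := by
    linear_combination h3
  exact mul_right_cancel₀ (pow_pos hx0 3).ne' h4

theorem na_dup {F : Type} [Field F] (v : AbsoluteValue F ℝ) (hna : ∀ x y, v (x + y) ≤ max (v x) (v y)) {A B x X : F}
    (h2 : v 2 = 1) (h3 : v 3 = 1) (hA : v A ≤ 1) (hB : v B ≤ 1) (hx : 1 < v x) (h : Dup A B x X) :
    v X = v x ∧ v (X - x) = v x := by
  have h6 : v 6 ≤ 1 := by
    have := N4_nat v hna 6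
    exact_mod_cast this
  have h12 : v 12 ≤ 1 := by
    have := N4_nat v hna 12
    exact_mod_cast this
  have h4 : v 4 = 1 := by
    have e1 : (4 : F) = 2 * 2 := by norm_num
    rw [e1, v.map_mul, h2, one_mul]
  have hx0 : 0 < v x := zero_lt_one.trans hx
  have hX := na_dup0 v hna hA hB hx h
  rw [h4, mul_one] at hX
  refine ⟨hX, ?_⟩
  have e2 : (X - x) * (4 * (x ^ 3 + A * x + B)) =
      -(3 * x ^ 4) + ((-6) * (A * x ^ 2) + ((-12) * (B * x) + A ^ 2)) := by
    unfold Dup at h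
    linear_combination h
  have e3 : v (-(3 * x ^ 4)) = v x ^ 4 := by
    rw [v.map_neg, v.map_mul, h3, one_mul, v.map_pow]
  have e4 := congrArg v e2
  rw [N4_add v hna, e3, v.map_mul, v.map_mul, h4, one_mul, N4_E v hna hA hB hx] at e4
  · have h5 : v (X - x) * v x ^ 3 = v x * v x ^ 3 := by
      linear_combination e4
    exact mul_right_cancel₀ (pow_pos hx0 3).ne' h5
  · rw [e3]
    refine lt_of_le_of_lt (N4_le v hna hA hB hx ?_ ?_) (N4_sq hx)
    · rw [v.map_neg]; exact h6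
    · rw [v.map_neg]; exact h12

theorem na_trip {F : Type} [Field F] (v : AbsoluteValue F ℝ) (hna : ∀ x y, v (x + y) ≤ max (v x) (v y)) {A B x X Y : F}
    (hA : v A ≤ 1) (hB : v B ≤ 1) (hx : 1 < v x) (hX : v X = v x) (hXx : v (X - x) = v x) (h : Trip A B x X Y) :
    v Y = v x := by
  have h4 : v 4 ≤ 1 := by
    have := N4_nat v hna 4
    exact_mod_cast this
  have hx0 : 0 < v x := zero_lt_one.trans hx
  have e1 : v (x * X - A) = v x ^ 2 := by
    rw [sub_eq_add_neg, N4_add v hna, v.map_mul, hX, pow_two]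
    rw [v.map_neg, v.map_mul, hX, ← pow_two]
    exact lt_of_le_of_lt hA (one_lt_pow₀ hx two_ne_zero)
  have e2 : v ((x * X - A) ^ 2 - 4 * B * (x + X)) = v x ^ 4 := by
    rw [sub_eq_add_neg, N4_add v hna, v.map_pow, e1, ← pow_mul]
    rw [v.map_neg, v.map_mul, v.map_mul, v.map_pow, e1, ← pow_mul]
    have e3 : v (x + X) ≤ v x := (hna _ _).trans (max_le le_rfl hX.le)
    have e4 : v 4 * v B ≤ 1 := mul_le_one₀ h4 (v.nonneg B) hB
    refine lt_of_le_of_lt ((mul_le_of_le_one_left (v.nonneg _) e4).trans e3) ?_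
    exact lt_self_pow₀ hx (by norm_num)
  have e5 := congrArg v h
  rw [e2, v.map_mul, v.map_mul, v.map_pow, v.map_sub, hXx] at e5
  have e6 : v Y * v x ^ 3 = v x * v x ^ 3 := by
    linear_combination e5
  exact mul_right_cancel₀ (pow_pos hx0 3).ne' e6

end FB
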