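import Pool.Agent.Lib.MP_17a322_ntVK.Defs
import Pool.Agent.Lib.MP_17a322_nt.RO.A3

/-!
# Heights of the multiples of a point and primitive places: definitions
-/

namespace FB

open Finset NumberField VK

/-- the `x`-coordinate of a point (`0` for the point at infinity) -/
def xc {F : Type} [Field F] {a b : F} : Pt a b → F
  | .zero => 0
  | .some x _ _ => x

/-- the duplication formula: `X` is the `x`-coordinate of `2 P`, `x` that of `P` -/
def Dup {F : Type} [Field F] (A B x X : F) : Prop :=
  X * (4 * (x ^ 3 + A * x + B)) = x ^ 4 - 2 * A * x ^ 2 - 8 * B * x + A ^ 2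

/-- the triplication formula: `x`, `X`, `Y` are the `x`-coordinates of `P`, `2 P`, `3 P` -/
def Trip {F : Type} [Field F] (A B x X Y : F) : Prop :=
  Y * x * (x - X) ^ 2 = (x * X - A) ^ 2 - 4 * B * (x + X)

/-- the finite places above `2` or `3` -/
abbrev Bd (K : Type) [Field K] [NumberField K] : Type := {v : FinitePlace K // v (6 : K) < 1}

open Classical in
/-- the local height at a finite place prime to `6`, and zero at the other finite places -/
noncomputable def gd {K : Type} [Field K] [NumberField K] (v : FinitePlace K) (x : K) : ℝ :=
  if v (6 : K) < 1 then 0 else Real.posLog (v x)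

/-- the local height at an infinite place or at a finite place above `2` or `3` -/
noncomputable def gs {K : Type} [Field K] [NumberField K] : InfinitePlace K ⊕ Bd K → K → ℝ
  | .inl w, x => w.mult * Real.posLog (w x)
  | .inr v, x => Real.posLog (v.1 x)

end FB
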