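import Pool.Agent.Lib.MP_17a322_ntFB.PS3
import Pool.Agent.Lib.MP_17a322_ntFB.NDefs

/-!
The kernel of reduction and the `x`-coordinate.
-/

namespace FB

open VK

theorem inK_xc {K : Type} [Field K] (V : ValuationSubring K) {A B : K} {P : Pt A B} (hP : P ≠ 0) :
    inK V P ↔ xc P ∉ V := by
  rcases P with _ | ⟨x, y, h⟩
  · exact absurd rfl hP
  · exact Iff.rfl

end FB
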