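import Pool.Agent.Lib.MP_17a322_ntFB.PDefs

/-!
# LEAF PF1: surjective homomorphisms, powers in a finite field

PROOF.  As `card_surj` of `MP_17a322_ntCI/HA` and `PA_pow`, `dens_pow` of `MP_17a322_ntCT/PA` with a finite field `F` instead of `ZMod p`.
-/

namespace FB

open Finset

private noncomputable def PF1_equiv {A B : Type} [AddCommGroup A] [AddCommGroup B] (f : A →+ B)
    (hf : Function.Surjective f) (S : Set B) : {c : A // f c ∈ S} ≃ S × f.ker where
  toFun c := (⟨f c.1, c.2⟩, ⟨c.1 - Function.surjInv hf (f c.1), by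
    rw [AddMonoidHom.mem_ker, map_sub, Function.surjInv_eq hf, sub_self]⟩)
  invFun y := ⟨Function.surjInv hf y.1.1 + y.2.1, by
    rw [map_add, Function.surjInv_eq hf, AddMonoidHom.mem_ker.1 y.2.2, add_zero]
    exact y.1.2⟩
  left_inv c := Subtype.ext (by
    show Function.surjInv hf (f c.1) + (c.1 - Function.surjInv hf (f c.1)) = c.1
    abel)
  right_inv y := by
    have h : f (Function.surjInv hf y.1.1 + y.2.1) = y.1.1 := by
      rw [map_add, Function.surjInv_eq hf, AddMonoidHom.mem_ker.1 y.2.2, add_zero]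
    refine Prod.ext (Subtype.ext h) (Subtype.ext ?_)
    show Function.surjInv hf y.1.1 + y.2.1 - Function.surjInv hf (f (Function.surjInv hf y.1.1 + y.2.1)) = y.2.1
    rw [h]
    abel

theorem card_surjA {A B : Type} [AddCommGroup A] [AddCommGroup B] [Finite A] (f : A →+ B) (hf : Function.Surjective f)
    (S : Set B) : Nat.card {c : A // f c ∈ S} * Nat.card B = Nat.card S * Nat.card A := by
  have h1 : ∀ T : Set B, Nat.card {c : A // f c ∈ T} = Nat.card T * Nat.card f.ker := fun T => by
    rw [Nat.card_congr (PF1_equiv f hf T), Nat.card_prod]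
  have h2 := h1 Set.univ
  have h3 : Nat.card {c : A // f c ∈ (Set.univ : Set B)} = Nat.card A :=
    Nat.card_congr (Equiv.subtypeUnivEquiv fun c => Set.mem_univ (f c))
  rw [h3, Nat.card_univ] at h2
  rw [h1 S, h2]
  ring

private theorem PF1_pow {F : Type} [Field F] [Finite F] {q : ℕ} (hq : q.Prime) (hpq : q ∣ Nat.card F - 1) :
    2 * Nat.card {x : F // ∃ s : F, s ^ q = x} ≤ Nat.card F + 1 := by
  classical
  have := Fintype.ofFinite F
  obtain ⟨ζ, hζ⟩ := exists_prime_orderOf_dvd_card' (G := Fˣ) (p := q) (hp := ⟨hq⟩)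
    (by rw [Nat.card_units]; exact hpq)
  have hζ1 : ζ ≠ 1 := by
    intro h
    rw [h, orderOf_one] at hζ
    exact hq.one_lt.ne hζ
  have hζq : (ζ : F) ^ q = 1 := by
    rw [← hζ, ← Units.val_pow_eq_pow_val, pow_orderOf_eq_one, Units.val_one]
  have hζ0 : (ζ : F) ≠ 0 := ζ.ne_zero
  set f : F → F := fun s => s ^ q with hf
  set S : Finset F := univ.erase 0 with hS
  have hSc : S.card = Nat.card F - 1 := by
    rw [hS, Finset.card_erase_of_mem (Finset.mem_univ _), Finset.card_univ, Nat.card_eq_fintype_card]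
  have h1 : (S.image f).card * 2 ≤ S.card := by
    rw [Finset.card_eq_sum_card_image f S, ← smul_eq_mul]
    refine Finset.card_nsmul_le_sum _ _ _ fun b hb => ?_
    obtain ⟨s, hs, rfl⟩ := Finset.mem_image.1 hb
    have hs0 : s ≠ 0 := (Finset.mem_erase.1 hs).1
    have hne : s ≠ (ζ : F) * s := by
      intro h
      apply hζ1
      apply Units.ext
      rw [Units.val_one]
      have h2 : (1 : F) * s = (ζ : F) * s := by rw [one_mul]; exact h
      exact (mul_right_cancel₀ hs0 h2).symm
    have hsub : ({s, (ζ : F) * s} : Finset F) ⊆ S.filter (fun x => f x = f s) := by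
      intro t ht
      rw [Finset.mem_insert, Finset.mem_singleton] at ht
      rw [Finset.mem_filter, hS, Finset.mem_erase]
      rcases ht with rfl | rfl
      · exact ⟨⟨hs0, Finset.mem_univ _⟩, rfl⟩
      · refine ⟨⟨mul_ne_zero hζ0 hs0, Finset.mem_univ _⟩, ?_⟩
        show ((ζ : F) * s) ^ q = s ^ q
        rw [mul_pow, hζq, one_mul]
    calc 2 = ({s, (ζ : F) * s} : Finset F).card := (Finset.card_pair hne).symm
      _ ≤ _ := Finset.card_le_card hsub
  have h2 : Nat.card {x : F // ∃ s : F, s ^ q = x} = (univ.image f).card := by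
    rw [Nat.card_eq_fintype_card, Fintype.card_subtype]
    refine congrArg Finset.card (Finset.ext fun x => ?_)
    rw [Finset.mem_filter, Finset.mem_image]
    constructor
    · rintro ⟨-, s, hs⟩
      exact ⟨s, Finset.mem_univ _, hs⟩
    · rintro ⟨s, -, hs⟩
      exact ⟨Finset.mem_univ _, s, hs⟩
  have h3 : (univ.image f).card ≤ (S.image f).card + 1 := by
    have h4 : univ.image f ⊆ insert (f 0) (S.image f) := by
      intro x hx
      obtain ⟨s, -, rfl⟩ := Finset.mem_image.1 hx
      by_cases h : s = 0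
      · rw [h]
        exact Finset.mem_insert_self _ _
      · exact Finset.mem_insert_of_mem (Finset.mem_image.2 ⟨s, Finset.mem_erase.2 ⟨h, Finset.mem_univ _⟩, rfl⟩)
    exact (Finset.card_le_card h4).trans (Finset.card_insert_le _ _)
  have hp1 : 1 < Nat.card F := Finite.one_lt_card
  rw [h2]
  omega

theorem pow_dens {F : Type} [Field F] [Finite F] {q : ℕ} (hq : q.Prime) (hqF : q ∣ Nat.card F - 1) :
    (Nat.card {x : F // ∃ s : F, s ^ q = x} : ℝ) ≤ (1 - 1 / 3) * (Nat.card F : ℝ) := by
  have hp3 : 3 ≤ Nat.card F := by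
    have h1 : 1 < Nat.card F := Finite.one_lt_card
    have h2 := Nat.le_of_dvd (by omega) hqF
    have h3 := hq.two_le
    omega
  have h7 : 3 * Nat.card {x : F // ∃ s : F, s ^ q = x} ≤ 2 * Nat.card F := by
    have := PF1_pow hq hqF
    omega
  have h8 : (3 : ℝ) * (Nat.card {x : F // ∃ s : F, s ^ q = x} : ℝ) ≤ 2 * (Nat.card F : ℝ) := by
    exact_mod_cast h7
  linarith

end FB
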