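import Pool.Agent.Lib.MP_17a322_ntFB.PL1
import Pool.Agent.Lib.MP_17a322_ntFB.PL2

/-!
# The covers `γ w ^ q = F`: local condition, density, admissibility
-/

namespace FB

open Finset NumberField VK IsDedekindDomain

/-- the local condition for the covers `γ w ^ q = F` -/
def RAG {K : Type} [Field K] [NumberField K] (q : ℕ) (γ : 𝓞 K) {g e : ℕ} (d : Fin g → ℕ) (ω : Fin e → 𝓞 K) :
    LocV K g (RamCov.IxG d × Fin e) := fun v _ z =>
  {c | ∃ s : RF v, rf (pV v) ((γ : 𝓞 K) : K) * s ^ q = ∑ t : RamCov.IxG d,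
    (∑ k, (ZMod.cast (c (t, k)) : RF v) * rf (pV v) ((ω k : 𝓞 K) : K)) * ∏ l, RamCov.bas (RF v) (d l) (z l) (t l)}

/-- an integer is a unit at all the places of large residue characteristic -/
theorem unit_large {K : Type} [Field K] [NumberField K] {γ : 𝓞 K} (hγ : γ ≠ 0) {v : HeightOneSpectrum (𝓞 K)} {p : ℕ}
    (hp : p.Prime) (hc : CharP (RF v) p) (h : Ideal.absNorm (Ideal.span {γ}) < p) :
    rf (pV v) ((γ : 𝓞 K) : K) ≠ 0 := by
  intro h0
  have h1 : ((γ : 𝓞 K) : K) ∈ VR v := int_mem (pV v) γ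
  have h2 : γ ∈ v.asIdeal := by
    rw [← v.valuation_lt_one_iff_mem (K := K)]
    rcases (res_zero (pV v) h1).1 h0 with h3 | h3
    · exact (congrArg (v.valuation K) h3).trans_lt (by
        rw [map_zero]
        exact zero_lt_one)
    · by_contra h4
      apply h3
      show v.valuation K (((γ : 𝓞 K) : K))⁻¹ ≤ 1
      have h5 : v.valuation K ((γ : 𝓞 K) : K) = 1 := le_antisymm h1 (not_lt.1 h4)
      rw [map_inv₀, h5, inv_one]
  have h3 : v.asIdeal ∣ Ideal.span {γ} := (Ideal.dvd_span_singleton).2 h2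
  have h4 : Ideal.absNorm v.asIdeal ∣ Ideal.absNorm (Ideal.span {γ}) := map_dvd Ideal.absNorm h3
  have h5 : p ∣ Ideal.absNorm v.asIdeal := by
    rw [← card_RF v]
    have hfin := finite_RF v
    have hft : Fintype (RF v) := Fintype.ofFinite _
    rw [Nat.card_eq_fintype_card, ← CharP.cast_eq_zero_iff (RF v) p]
    exact Nat.cast_card_eq_zero (RF v)
  have h6 : Ideal.absNorm (Ideal.span {γ}) ≠ 0 := by
    intro h7
    rw [Ideal.absNorm_eq_zero_iff, Ideal.span_singleton_eq_bot] at h7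
    exact hγ h7
  exact absurd (Nat.le_of_dvd (Nat.pos_of_ne_zero h6) (h5.trans h4)) (not_le.2 h)

private theorem PG_root {K F : Type} [Field K] [Field F] [Finite F] (π : PF K F) {q p : ℕ} (hq : q.Prime)
    (hqp : q < p) (hc : CharP F p) {ζ : K} (hζ : IsPrimitiveRoot ζ q) : q ∣ Nat.card F - 1 := by
  classical
  have hmem : ζ ∈ π.V := by
    refine mem_pow π (n := q) hq.one_lt.le ?_
    rw [hζ.pow_eq_one]
    exact π.V.one_mem
  have h1 : Rf π ζ (rf π ζ) := rf_res hmem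
  have h2 : rf π ζ ^ q = 1 := by
    have h3 := h1.pow q
    rw [hζ.pow_eq_one] at h3
    exact h3.unique Rf.one
  have h4 : rf π ζ ≠ 1 := by
    intro h5
    have h6 : Rf π (∑ i ∈ Finset.range q, ζ ^ i) (∑ i ∈ Finset.range q, rf π ζ ^ i) :=
      Rf.sum _ fun i _ => h1.pow i
    rw [hζ.geom_sum_eq_zero hq.one_lt, h5] at h6
    have h7 := h6.unique Rf.zero
    rw [Finset.sum_congr rfl fun i _ => one_pow (M := F) i, Finset.sum_const, Finset.card_range, nsmul_eq_mul,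
      mul_one] at h7
    have h8 : p ∣ q := (CharP.cast_eq_zero_iff F p q).1 h7
    exact absurd (Nat.le_of_dvd hq.pos h8) (not_le.2 hqp)
  have h0 : rf π ζ ≠ 0 := by
    intro h5
    rw [h5, zero_pow hq.ne_zero] at h2
    exact zero_ne_one h2
  have hF : Fintype F := Fintype.ofFinite F
  let u : Fˣ := Units.mk0 (rf π ζ) h0
  have hu : u ^ q = 1 := Units.ext h2
  have hu1 : u ≠ 1 := fun h => h4 (congrArg Units.val h)
  have hq' : Fact q.Prime := ⟨hq⟩
  have ho : orderOf u = q := orderOf_eq_prime hu hu1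
  have hd := orderOf_dvd_card (x := u)
  rw [ho, Fintype.card_units, ← Nat.card_eq_fintype_card] at hd
  exact hd

theorem dens_RAG {K : Type} [Field K] [NumberField K] {q : ℕ} (hq : q.Prime) {ζ : K} (hζ : IsPrimitiveRoot ζ q)
    {γ : 𝓞 K} (hγ : γ ≠ 0) {g e : ℕ} (d : Fin g → ℕ) (ω : Module.Basis (Fin e) ℤ (𝓞 K)) :
    DensV (q + 3 + Ideal.absNorm (Ideal.span {γ})) (RAG q γ d ω) (1 / 20) := by
  classical
  intro v p hpp hc hp z
  have hfp : Fact p.Prime := ⟨hpp⟩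
  have hfin : Finite (RF v) := finite_RF v
  have hdiv : q ∣ Nat.card (RF v) - 1 := PG_root (pV v) hq (by omega : q < p) hc hζ
  obtain ⟨t₀, ht₀⟩ := bas_neG d z
  have hγ0 : rf (pV v) ((γ : 𝓞 K) : K) ≠ 0 := unit_large hγ hpp hc (by omega)
  let w : Fin e → RF v := fun k => rf (pV v) ((ω k : 𝓞 K) : K)
  let b : RamCov.IxG d → RF v := fun t => ∏ l, RamCov.bas (RF v) (d l) (z l) (t l)
  let f : (RamCov.IxG d × Fin e → ZMod p) →+ RF v :=
    { toFun := fun c => ∑ t : RamCov.IxG d, (∑ k, (ZMod.cast (c (t, k)) : RF v) * w k) * b t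
      map_zero' := by
        refine Finset.sum_eq_zero fun t _ => ?_
        have h1 : ∑ k, (ZMod.cast ((0 : RamCov.IxG d × Fin e → ZMod p) (t, k)) : RF v) * w k = 0 := by
          refine Finset.sum_eq_zero fun k _ => ?_
          rw [Pi.zero_apply, ZMod.cast_zero, zero_mul]
        rw [h1, zero_mul]
      map_add' := fun c c' => by
        rw [← Finset.sum_add_distrib]
        refine Finset.sum_congr rfl fun t _ => ?_
        rw [← add_mul, ← Finset.sum_add_distrib]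
        congr 1
        refine Finset.sum_congr rfl fun k _ => ?_
        rw [Pi.add_apply, ← add_mul]
        congr 1
        exact map_add (ZMod.castHom (dvd_refl p) (RF v)) _ _ }
  have hf : ∀ c, f c = ∑ t : RamCov.IxG d, (∑ k, (ZMod.cast (c (t, k)) : RF v) * w k) * b t := fun c => rfl
  have hs : Function.Surjective f := by
    intro x
    obtain ⟨a, ha⟩ := w_surj hc ω (x * (b t₀)⁻¹)
    refine ⟨fun tk => if tk.1 = t₀ then a tk.2 else 0, ?_⟩
    rw [hf, Finset.sum_eq_single t₀]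
    · have h1 : ∑ k, (ZMod.cast (if (t₀, k).1 = t₀ then a (t₀, k).2 else (0 : ZMod p)) : RF v) * w k =
          x * (b t₀)⁻¹ := by
        rw [← ha]
        refine Finset.sum_congr rfl fun k _ => ?_
        rw [if_pos rfl]
      rw [h1, mul_assoc, inv_mul_cancel₀ ht₀, mul_one]
    · intro t _ ht
      have h1 : ∑ k, (ZMod.cast (if (t, k).1 = t₀ then a (t, k).2 else (0 : ZMod p)) : RF v) * w k = 0 := by
        refine Finset.sum_eq_zero fun k _ => ?_
        rw [if_neg ht, ZMod.cast_zero, zero_mul]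
      rw [h1, zero_mul]
    · intro h
      exact absurd (Finset.mem_univ _) h
  have h1 := card_surjA f hs {x | ∃ s : RF v, rf (pV v) ((γ : 𝓞 K) : K) * s ^ q = x}
  have h2 := pow_dens hq hdiv
  have h3 : Nat.card (RAG q γ d ω v p z) =
      Nat.card {c : RamCov.IxG d × Fin e → ZMod p // f c ∈ {x | ∃ s : RF v, rf (pV v) ((γ : 𝓞 K) : K) * s ^ q = x}} := rfl
  have h4 : Nat.card ({x | ∃ s : RF v, rf (pV v) ((γ : 𝓞 K) : K) * s ^ q = x} : Set (RF v)) = Nat.card {x : RF v // ∃ s : RF v, s ^ q = x} := by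
    refine Nat.card_congr
      { toFun := fun x => ⟨(rf (pV v) ((γ : 𝓞 K) : K))⁻¹ * x.1, by
          obtain ⟨s, hs⟩ := x.2
          exact ⟨s, by rw [← hs, ← mul_assoc, inv_mul_cancel₀ hγ0, one_mul]⟩⟩
        invFun := fun x => ⟨rf (pV v) ((γ : 𝓞 K) : K) * x.1, by
          obtain ⟨s, hs⟩ := x.2
          exact ⟨s, by rw [hs]⟩⟩
        left_inv := fun x => Subtype.ext (by
          show rf (pV v) ((γ : 𝓞 K) : K) * ((rf (pV v) ((γ : 𝓞 K) : K))⁻¹ * x.1) = x.1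
          rw [← mul_assoc, mul_inv_cancel₀ hγ0, one_mul])
        right_inv := fun x => Subtype.ext (by
          show (rf (pV v) ((γ : 𝓞 K) : K))⁻¹ * (rf (pV v) ((γ : 𝓞 K) : K) * x.1) = x.1
          rw [← mul_assoc, inv_mul_cancel₀ hγ0, one_mul]) }
  have h5 : Nat.card (RamCov.IxG d × Fin e → ZMod p) = p ^ Fintype.card (RamCov.IxG d × Fin e) := by
    rw [Nat.card_eq_fintype_card, Fintype.card_fun, ZMod.card]
  rw [← h3, h4, h5] at h1
  have hF0 : (0 : ℝ) < Nat.card (RF v) := by exact_mod_cast Nat.card_pos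
  have h6 : (Nat.card (RAG q γ d ω v p z) : ℝ) * Nat.card (RF v) =
      (Nat.card {x : RF v // ∃ s : RF v, s ^ q = x} : ℝ) * (p : ℝ) ^ Fintype.card (RamCov.IxG d × Fin e) := by
    exact_mod_cast h1
  have hpN : (0 : ℝ) ≤ (p : ℝ) ^ Fintype.card (RamCov.IxG d × Fin e) := by positivity
  refine le_of_mul_le_mul_right ?_ hF0
  rw [h6]
  calc _ ≤ ((1 - 1 / 3) * (Nat.card (RF v) : ℝ)) * (p : ℝ) ^ Fintype.card (RamCov.IxG d × Fin e) :=
        mul_le_mul_of_nonneg_right h2 hpN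
    _ ≤ ((1 - 1 / 20) * (Nat.card (RF v) : ℝ)) * (p : ℝ) ^ Fintype.card (RamCov.IxG d × Fin e) := by
        refine mul_le_mul_of_nonneg_right (mul_le_mul_of_nonneg_right (by norm_num) hF0.le) hpN
    _ = _ := by ring

private theorem PG_cf {K F : Type} [Field K] [NumberField K] [Field F] {p : ℕ} [CharP F p] (π : PF K F)
    {τ : Type} {e : ℕ} (ω : Fin e → 𝓞 K) (c : τ × Fin e → ℤ) (t : τ) :
    Rf π (cf ω c t) (∑ k, (ZMod.cast (((c (t, k) : ℤ)) : ZMod p) : F) * rf π ((ω k : 𝓞 K) : K)) := by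
  have h1 := el_rf π ω (fun k => c (t, k))
  have h2 : (∑ k, (ZMod.cast (((c (t, k) : ℤ)) : ZMod p) : F) * rf π ((ω k : 𝓞 K) : K))
      = ∑ k, ((c (t, k) : ℤ) : F) * rf π ((ω k : 𝓞 K) : K) := by
    refine Finset.sum_congr rfl fun k _ => ?_
    rw [ZMod.cast_intCast']
  rw [h2]
  exact h1

private theorem PG_pow {K F : Type} [Field K] [Field F] {π : PF K F} {q : ℕ} (hq : 1 ≤ q) {γ w v₀ : K} {γ' v : F}
    (hγ : Rf π γ γ') (hγ0 : γ' ≠ 0) (hv : Rf π v₀ v) (h : γ * w ^ q = v₀) : ∃ s : F, γ' * s ^ q = v := by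
  by_cases hw : w ∈ π.V
  · have h1 := rf_res hw
    have h2 := hγ.mul (h1.pow q)
    rw [h] at h2
    exact ⟨_, h2.unique hv⟩
  · have hw0 : w ≠ 0 := by
      intro h1
      rw [h1] at hw
      exact hw π.V.zero_mem
    have h1 : w⁻¹ ∈ π.V := (π.V.mem_or_inv_mem w).resolve_left hw
    have h2 : Rf π w⁻¹ 0 := ⟨h1, π.ker ⟨w⁻¹, h1⟩ (by
      show (w⁻¹)⁻¹ ∉ π.V
      rw [inv_inv]
      exact hw)⟩
    have h3 := hv.mul (h2.pow q)
    rw [← h, mul_assoc, ← mul_pow, mul_inv_cancel₀ hw0, one_pow, mul_one, zero_pow (by omega), mul_zero] at h3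
    exact absurd (hγ.unique h3) hγ0

theorem adm_RAG {K : Type} [Field K] [NumberField K] {N0 q : ℕ} (hq : 1 ≤ q) {γ : 𝓞 K} (hγ : γ ≠ 0)
    (hN : Ideal.absNorm (Ideal.span {γ}) < N0) {g e : ℕ} {d : Fin g → ℕ}
    (hd : ∀ l, 1 ≤ d l) (hqd : ∀ l, q ∣ 2 * d l) (ω : Fin e → 𝓞 K) {A B : 𝓞 K} (c : RamCov.IxG d × Fin e → ℤ)
    (P : Fin g → Pt (A : K) (B : K)) (w : K)
    (h : ((γ : 𝓞 K) : K) * w ^ q = ∑ t : RamCov.IxG d, cf ω c t * ∏ l, RamCov.bas K (d l) (opP (P l)) (t l)) :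
    AdmV N0 (RAG q γ d ω) c P := by
  intro v p hp hc hpN
  have := hc
  obtain ⟨σ, -, hσ⟩ := bas_redG (pV v) (int_mem (pV v) A) (int_mem (pV v) B) hd hqd P
  have h1 : ((γ : 𝓞 K) : K) * (w * σ) ^ q = ∑ t : RamCov.IxG d,
      cf ω c t * (σ ^ q * ∏ l, RamCov.bas K (d l) (opP (P l)) (t l)) := by
    rw [mul_pow, ← mul_assoc, h, Finset.sum_mul]
    refine Finset.sum_congr rfl fun t _ => ?_
    ring
  have h2 : Rf (pV v) (∑ t : RamCov.IxG d,
      cf ω c t * (σ ^ q * ∏ l, RamCov.bas K (d l) (opP (P l)) (t l)))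
      (∑ t : RamCov.IxG d, (∑ k, (ZMod.cast (((c (t, k) : ℤ)) : ZMod p) : RF v) *
        rf (pV v) ((ω k : 𝓞 K) : K)) *
        ∏ l, RamCov.bas (RF v) (d l) (rdF (pV v) (P l)) (t l)) :=
    Rf.sum _ fun t _ => (PG_cf (pV v) ω c t).mul (hσ t)
  exact PG_pow hq (rf_res (int_mem (pV v) γ)) (unit_large hγ hp hc (by omega)) h2 h1

end FB
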