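import Mathlib

/-!
# Solutions of independent linear equations over a finite field (as `MP_17a322_ntCI/HA`)
-/

namespace FB

open Finset

private noncomputable def PH1_equiv {A B : Type} [AddCommGroup A] [AddCommGroup B] (f : A →+ B)
    (hf : Function.Surjective f) (S : Set B) : {c : A // f c ∈ S} ≃ S × f.ker where
  toFun c := (⟨f c.1, c.2⟩, ⟨c.1 - Function.surjInv hf (f c.1), by
    rw [AddMonoidHom.mem_ker, map_sub, Function.surjInv_eq hf, sub_self]⟩)
  invFun y := ⟨Function.surjInv hf y.1.1 + y.2.1, by
    rw [map_add, Function.surjInv_eq hf, AddMonoidHom.mem_ker.1 y.2.2, add_zero]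
    exact y.1.2⟩
  left_inv c := Subtype.ext (by
    show Function.surjInv hf (f c.1) + (c.1 - Function.surjInv hf (f c.1)) = c.1
    abel)
  right_inv y := by
    have h : f (Function.surjInv hf y.1.1 + y.2.1) = y.1.1 := by
      rw [map_add, Function.surjInv_eq hf, AddMonoidHom.mem_ker.1 y.2.2, add_zero]
    refine Prod.ext (Subtype.ext h) (Subtype.ext ?_)
    show Function.surjInv hf y.1.1 + y.2.1 - Function.surjInv hf (f (Function.surjInv hf y.1.1 + y.2.1)) = y.2.1
    rw [h]
    abel

theorem card_surjF {F : Type} [Field F] [Fintype F] {p : ℕ} (hpF : Fintype.card F = p) {κ ι : Type} [Fintype κ] [Fintype ι] (f : (ι → F) →+ (κ → F))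
    (hf : Function.Surjective f) (S : Set (κ → F)) :
    Nat.card {c : ι → F // f c ∈ S} * p ^ Fintype.card κ = Nat.card S * p ^ Fintype.card ι := by
  have h1 : ∀ T : Set (κ → F), Nat.card {c : ι → F // f c ∈ T} = Nat.card T * Nat.card f.ker := fun T => by
    rw [Nat.card_congr (PH1_equiv f hf T), Nat.card_prod]
  have h2 := h1 Set.univ
  have h3 : Nat.card {c : ι → F // f c ∈ (Set.univ : Set (κ → F))} = p ^ Fintype.card ι := by
    rw [Nat.card_congr (Equiv.subtypeUnivEquiv fun c => Set.mem_univ (f c)), Nat.card_fun, Nat.card_eq_fintype_card,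
      Nat.card_eq_fintype_card, hpF]
  have h4 : Nat.card (Set.univ : Set (κ → F)) = p ^ Fintype.card κ := by
    rw [Nat.card_univ, Nat.card_fun, Nat.card_eq_fintype_card, Nat.card_eq_fintype_card, hpF]
  rw [h3, h4] at h2
  rw [h1 S, h2]
  ring

theorem card_dualF {F : Type} [Field F] [Fintype F] {p : ℕ} (hpF : Fintype.card F = p) {κ ι : Type} [Fintype κ] [Fintype ι] [DecidableEq κ]
    (x w : κ → ι → F) (h : ∀ i j, ∑ e, w j e * x i e = if i = j then 1 else 0) :
    Nat.card {c : ι → F // ∀ i, ∑ e, c e * x i e = 0} * p ^ Fintype.card κ = p ^ Fintype.card ι := by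
  let f : (ι → F) →+ (κ → F) :=
    { toFun := fun c i => ∑ e, c e * x i e
      map_zero' := by
        funext i
        simp
      map_add' := fun a b => by
        funext i
        simp only [Pi.add_apply, add_mul, Finset.sum_add_distrib] }
  have hf : Function.Surjective f := by
    intro s
    refine ⟨∑ j, s j • w j, ?_⟩
    funext i
    show ∑ e, (∑ j, s j • w j) e * x i e = s i
    have h1 : ∀ e, (∑ j, s j • w j) e * x i e = ∑ j, s j * (w j e * x i e) := by
      intro e
      rw [Finset.sum_apply, Finset.sum_mul]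
      refine Finset.sum_congr rfl fun j _ => ?_
      rw [Pi.smul_apply, smul_eq_mul, mul_assoc]
    simp only [h1]
    rw [Finset.sum_comm]
    simp only [← Finset.mul_sum, h, mul_ite, mul_one, mul_zero]
    rw [Finset.sum_ite_eq]
    simp
  have h2 := card_surjF hpF f hf {0}
  have h3 : Nat.card {c : ι → F // f c ∈ ({0} : Set (κ → F))} =
      Nat.card {c : ι → F // ∀ i, ∑ e, c e * x i e = 0} := by
    refine Nat.card_congr (Equiv.subtypeEquivRight fun c => ?_)
    rw [Set.mem_singleton_iff]
    exact funext_iff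
  rw [h3] at h2
  rw [h2]
  simp

end FB
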