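import Pool.Agent.Lib.MP_17a322_ntFB.PH1
import Pool.Agent.Lib.MP_17a322_ntCI.HB

/-!
# The number of `r`-tuples of forms vanishing at one, two, three points (as `MP_17a322_ntCI/HD`)
-/

namespace FB

open Finset MWS

private theorem PH3_sum {F : Type} [Field F] {m r : ℕ} (n : Fin r → ℕ) (f : (Σ j, Mo m (n j)) → F)
    (j₀ : Fin r) (u : Fin (m + 1) → F) :
    ∑ t, f t * (if t.1 = j₀ then mo u t.2 else 0) = ∑ e, f ⟨j₀, e⟩ * mo u e := by
  rw [Fintype.sum_sigma, Finset.sum_eq_single j₀]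
  · simp
  · intro j _ hj
    simp [hj]
  · simp

private theorem PH3_dual {F : Type} [Field F] {m r : ℕ} (n : Fin r → ℕ) (j₀ : Fin r) (W : Mo m (n j₀) → F)
    (u : Fin (m + 1) → F) (j : Fin r) (hj : j = j₀) :
    ∑ e : Mo m (n j), (if h : j = j₀ then W (h ▸ e) else 0) * mo u e = ∑ e, W e * mo u e := by
  subst hj
  simp

private theorem PH3_main {F : Type} [Field F] [Fintype F] {p : ℕ} (hpF : Fintype.card F = p) {m r : ℕ} {K : Type} [Fintype K] [DecidableEq K] (n : Fin r → ℕ)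
    (J : K → Fin r) (U : K → Fin (m + 1) → F)
    (h : ∀ b, ∃ W : Mo m (n (J b)) → F, ∀ a, J a = J b → ∑ e, W e * mo (U a) e = if a = b then 1 else 0) :
    Nat.card {c : (Σ j, Mo m (n j)) → F // ∀ a, ∑ e, c ⟨J a, e⟩ * mo (U a) e = 0} * p ^ Fintype.card K =
      p ^ Fintype.card (Σ j, Mo m (n j)) := by
  choose W hW using h
  have h1 := card_dualF hpF (fun (a : K) (t : Σ j, Mo m (n j)) => if t.1 = J a then mo (U a) t.2 else 0)
    (fun (b : K) (t : Σ j, Mo m (n j)) => if h : t.1 = J b then W b (h ▸ t.2) else 0) (by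
      intro a b
      rw [PH3_sum n (fun t : Σ j, Mo m (n j) => if h : t.1 = J b then W b (h ▸ t.2) else 0) (J a) (U a)]
      by_cases hab : J a = J b
      · rw [← hW b a hab]
        exact PH3_dual n (J b) (W b) (U a) (J a) hab
      · have h2 : a ≠ b := fun h3 => hab (h3 ▸ rfl)
        rw [if_neg h2]
        refine Finset.sum_eq_zero fun e _ => ?_
        rw [dif_neg hab, zero_mul])
  rw [← h1]
  congr 1
  refine Nat.card_congr (Equiv.subtypeEquivRight fun c => forall_congr' fun a => ?_)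
  rw [PH3_sum n c (J a) (U a)]

private theorem PH3_symm {F : Type} [Field F] {m : ℕ} {u v : Fin (m + 1) → F} (h : LinearIndependent F ![u, v]) :
    LinearIndependent F ![v, u] := LinearIndependent.pair_symm_iff.1 h

private theorem PH3_two {F : Type} [Field F] {m n : ℕ} (hn : 1 ≤ n) {u v : Fin (m + 1) → F}
    (h : LinearIndependent F ![u, v]) (i : Fin 2) : ∃ w : Mo m n → F,
    ∀ i' : Fin 2, ∑ e, w e * mo (![u, v] i') e = if i' = i then 1 else 0 := by
  fin_cases i
  · obtain ⟨w, h1, h2⟩ := mo_two hn h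
    refine ⟨w, fun i' => ?_⟩
    fin_cases i'
    · simpa using h1
    · simpa using h2
  · obtain ⟨w, h1, h2⟩ := mo_two hn (PH3_symm h)
    refine ⟨w, fun i' => ?_⟩
    fin_cases i'
    · simpa using h2
    · simpa using h1

private theorem PH3_gen {F : Type} [Field F] {m n : ℕ} (hn : 1 ≤ n) {u v t : Fin (m + 1) → F}
    (h : LinearIndependent F ![u, v, t]) (i : Fin 3) : ∃ w : Mo m n → F,
    ∀ i' : Fin 3, ∑ e, w e * mo (![u, v, t] i') e = if i' = i then 1 else 0 := by
  have hv : LinearIndependent F ![v, u, t] := by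
    have h1 := h.comp ![1, 0, 2] (by decide)
    have h2 : ![u, v, t] ∘ ![1, 0, 2] = ![v, u, t] := by
      funext i
      fin_cases i <;> rfl
    rwa [h2] at h1
  have ht : LinearIndependent F ![t, u, v] := by
    have h1 := h.comp ![2, 0, 1] (by decide)
    have h2 : ![u, v, t] ∘ ![2, 0, 1] = ![t, u, v] := by
      funext i
      fin_cases i <;> rfl
    rwa [h2] at h1
  fin_cases i
  · obtain ⟨w, h1, h2, h3⟩ := mo_gen hn h
    refine ⟨w, fun i' => ?_⟩
    fin_cases i'
    · simpa using h1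
    · simpa using h2
    · simpa using h3
  · obtain ⟨w, h1, h2, h3⟩ := mo_gen hn hv
    refine ⟨w, fun i' => ?_⟩
    fin_cases i'
    · simpa using h2
    · simpa using h1
    · simpa using h3
  · obtain ⟨w, h1, h2, h3⟩ := mo_gen hn ht
    refine ⟨w, fun i' => ?_⟩
    fin_cases i'
    · simpa using h2
    · simpa using h3
    · simpa using h1

theorem cnt1F {F : Type} [Field F] [Fintype F] {p : ℕ} (hpF : Fintype.card F = p) {m r : ℕ} (n : Fin r → ℕ) {u : Fin (m + 1) → F} (hu : u ≠ 0) :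
    Nat.card {w : (Σ j, Mo m (n j)) → F // ∀ j, ∑ e, w ⟨j, e⟩ * mo u e = 0} * p ^ r =
      p ^ Fintype.card (Σ j, Mo m (n j)) := by
  have h1 := PH3_main hpF n (fun j : Fin r => j) (fun _ => u) (fun b => by
    obtain ⟨w, hw⟩ := mo_one (n := n b) hu
    refine ⟨w, fun a ha => ?_⟩
    have ha' : a = b := ha
    rw [if_pos ha']
    exact hw)
  rwa [Fintype.card_fin] at h1

theorem cnt2F {F : Type} [Field F] [Fintype F] {p : ℕ} (hpF : Fintype.card F = p) {m r : ℕ} (n : Fin r → ℕ) (hn : ∀ j, 1 ≤ n j) {u v : Fin (m + 1) → F}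
    (h : LinearIndependent F ![u, v]) :
    Nat.card {w : (Σ j, Mo m (n j)) → F // (∀ j, ∑ e, w ⟨j, e⟩ * mo u e = 0) ∧
      ∀ j, ∑ e, w ⟨j, e⟩ * mo v e = 0} * p ^ (2 * r) = p ^ Fintype.card (Σ j, Mo m (n j)) := by
  have h1 := PH3_main hpF n (fun a : Fin r × Fin 2 => a.1) (fun a => ![u, v] a.2) (fun b => by
    obtain ⟨w, hw⟩ := PH3_two (hn b.1) h b.2
    refine ⟨w, fun a ha => ?_⟩
    have ha' : a.1 = b.1 := ha
    rw [hw a.2]
    refine if_congr ?_ rfl rfl
    rw [Prod.ext_iff]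
    exact ⟨fun h2 => ⟨ha', h2⟩, fun h2 => h2.2⟩)
  rw [Fintype.card_prod, Fintype.card_fin, Fintype.card_fin, mul_comm r 2] at h1
  rw [← h1]
  congr 1
  refine Nat.card_congr (Equiv.subtypeEquivRight fun w => ?_)
  constructor
  · rintro ⟨h2, h3⟩ ⟨j, i⟩
    fin_cases i
    · exact h2 j
    · exact h3 j
  · intro h2
    exact ⟨fun j => h2 (j, 0), fun j => h2 (j, 1)⟩

theorem cnt3F {F : Type} [Field F] [Fintype F] {p : ℕ} (hpF : Fintype.card F = p) {m r : ℕ} (n : Fin r → ℕ) (hn : ∀ j, 1 ≤ n j) {u v t : Fin (m + 1) → F}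
    (h : LinearIndependent F ![u, v, t]) :
    Nat.card {w : (Σ j, Mo m (n j)) → F // (∀ j, ∑ e, w ⟨j, e⟩ * mo u e = 0) ∧
      (∀ j, ∑ e, w ⟨j, e⟩ * mo v e = 0) ∧ ∀ j, ∑ e, w ⟨j, e⟩ * mo t e = 0} * p ^ (3 * r) =
      p ^ Fintype.card (Σ j, Mo m (n j)) := by
  have h1 := PH3_main hpF n (fun a : Fin r × Fin 3 => a.1) (fun a => ![u, v, t] a.2) (fun b => by
    obtain ⟨w, hw⟩ := PH3_gen (hn b.1) h b.2
    refine ⟨w, fun a ha => ?_⟩
    have ha' : a.1 = b.1 := ha
    rw [hw a.2]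
    refine if_congr ?_ rfl rfl
    rw [Prod.ext_iff]
    exact ⟨fun h2 => ⟨ha', h2⟩, fun h2 => h2.2⟩)
  rw [Fintype.card_prod, Fintype.card_fin, Fintype.card_fin, mul_comm r 3] at h1
  rw [← h1]
  congr 1
  refine Nat.card_congr (Equiv.subtypeEquivRight fun w => ?_)
  constructor
  · rintro ⟨h2, h3, h4⟩ ⟨j, i⟩
    fin_cases i
    · exact h2 j
    · exact h3 j
    · exact h4 j
  · intro h2
    exact ⟨fun j => h2 (j, 0), fun j => h2 (j, 1), fun j => h2 (j, 2)⟩

theorem cnt3F' {F : Type} [Field F] [Fintype F] {p : ℕ} (hpF : Fintype.card F = p) {m r : ℕ} (n : Fin r → ℕ) (hn : ∀ j, 1 ≤ n j) (j₀ : Fin r) (h0 : 2 ≤ n j₀)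
    {u v t : Fin (m + 1) → F} (h1 : LinearIndependent F ![u, v])
    (h2 : LinearIndependent F ![u, t]) (h3 : LinearIndependent F ![v, t]) :
    Nat.card {w : (Σ j, Mo m (n j)) → F // (∀ j, ∑ e, w ⟨j, e⟩ * mo u e = 0) ∧
      (∀ j, ∑ e, w ⟨j, e⟩ * mo v e = 0) ∧ ∀ j, ∑ e, w ⟨j, e⟩ * mo t e = 0} * p ^ (2 * r + 1) ≤
      p ^ Fintype.card (Σ j, Mo m (n j)) := by
  classical
  have key : ∀ (k : ℕ) (hk : 2 ≤ k) (i : Fin 2), ∃ w : Mo m k → F,
      (∀ i' : Fin 2, ∑ e, w e * mo (![u, v] i') e = if i' = i then 1 else 0) ∧ ∑ e, w e * mo t e = 0 := by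
    intro k hk i
    fin_cases i
    · obtain ⟨w, a1, a2, a3⟩ := mo_three hk h1 h2
      refine ⟨w, fun i' => ?_, a3⟩
      fin_cases i'
      · simpa using a1
      · simpa using a2
    · obtain ⟨w, a1, a2, a3⟩ := mo_three hk (PH3_symm h1) h3
      refine ⟨w, fun i' => ?_, a3⟩
      fin_cases i'
      · simpa using a2
      · simpa using a1
  have h4 := PH3_main hpF n (Sum.elim (fun a : Fin r × Fin 2 => a.1) (fun _ : Unit => j₀))
    (Sum.elim (fun a : Fin r × Fin 2 => ![u, v] a.2) (fun _ : Unit => t)) (fun b => by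
      rcases b with ⟨j, i⟩ | b
      · by_cases hj : j = j₀
        · subst hj
          obtain ⟨w, hw, hwt⟩ := key (n j) h0 i
          refine ⟨w, fun a ha => ?_⟩
          rcases a with ⟨j', i'⟩ | a
          · have ha' : j' = j := ha
            refine (hw i').trans (if_congr ?_ rfl rfl)
            rw [Sum.inl.injEq, Prod.mk.injEq]
            exact ⟨fun h6 => ⟨ha', h6⟩, fun h6 => h6.2⟩
          · rw [if_neg Sum.inr_ne_inl]
            exact hwt
        · obtain ⟨w, hw⟩ := PH3_two (hn j) h1 i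
          refine ⟨w, fun a ha => ?_⟩
          rcases a with ⟨j', i'⟩ | a
          · have ha' : j' = j := ha
            refine (hw i').trans (if_congr ?_ rfl rfl)
            rw [Sum.inl.injEq, Prod.mk.injEq]
            exact ⟨fun h6 => ⟨ha', h6⟩, fun h6 => h6.2⟩
          · exact absurd (show j₀ = j from ha).symm hj
      · obtain ⟨w, a1, a2, a3⟩ := mo_three h0 (PH3_symm h2) (PH3_symm h3)
        refine ⟨w, fun a ha => ?_⟩
        rcases a with ⟨j', i'⟩ | a
        · rw [if_neg Sum.inl_ne_inr]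
          fin_cases i'
          · exact a2
          · exact a3
        · rw [if_pos (by rfl)]
          exact a1)
  rw [Fintype.card_sum, Fintype.card_prod, Fintype.card_fin, Fintype.card_fin, Fintype.card_unit, mul_comm r 2] at h4
  rw [← h4]
  refine Nat.mul_le_mul_right _ ?_
  refine Nat.card_le_card_of_injective (fun w => ⟨w.1, ?_⟩) ?_
  · rintro (⟨j, i⟩ | a)
    · fin_cases i
      · exact w.2.1 j
      · exact w.2.2.1 j
    · exact w.2.2.2 j₀
  · intro w w' hw
    exact Subtype.ext (congrArg (fun x => x.1) hw)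

end FB
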