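import Pool.Agent.Lib.MP_17a322_ntFB.PH2
import Pool.Agent.Lib.MP_17a322_ntFB.PH3
import Pool.Agent.Lib.MP_17a322_ntCI.HE

/-!
# Forms with a common zero over a finite field (as `MP_17a322_ntCI/HF`)
-/

namespace FB

open Finset MWS

private theorem PH4_mo_smul {F : Type} [Field F] {m n : ℕ} (s : F) (u : Fin (m + 1) → F) (e : Mo m n) :
    mo (s • u) e = s ^ n * mo u e := by
  unfold mo
  have h : ∀ i, (s • u) i ^ (e.1 i : ℕ) = s ^ (e.1 i : ℕ) * u i ^ (e.1 i : ℕ) := fun i => by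
    rw [Pi.smul_apply, smul_eq_mul, mul_pow]
  rw [Finset.prod_congr rfl fun i _ => h i, Finset.prod_mul_distrib, Finset.prod_pow_eq_pow_sum, e.2]

private theorem PH4_le_of_mul {c N : ℕ} {p k : ℕ} (hp : 0 < p) (h : c * p ^ k ≤ p ^ N) :
    (c : ℝ) ≤ (p : ℝ) ^ N / (p : ℝ) ^ k := by
  have hp' : (0 : ℝ) < p := by exact_mod_cast hp
  rw [le_div_iff₀ (by positivity)]
  exact_mod_cast h

private theorem PH4_eq_of_mul {c N : ℕ} {p k : ℕ} (hp : 0 < p) (h : c * p ^ k = p ^ N) :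
    (c : ℝ) = (p : ℝ) ^ N / (p : ℝ) ^ k := by
  have hp' : (0 : ℝ) < p := by exact_mod_cast hp
  rw [eq_div_iff (by positivity)]
  exact_mod_cast h

private theorem PH4_union {W P : Type} [Fintype W] (S : Finset P) (Z : W → P → Prop) (a : ℝ)
    (h1 : ∀ u ∈ S, (Nat.card {w // Z w u} : ℝ) ≤ a) :
    (Nat.card {w // ∃ u ∈ S, Z w u} : ℝ) ≤ S.card * a := by
  classical
  have h2 : Nat.card {w // ∃ u ∈ S, Z w u} ≤ ∑ u ∈ S, Nat.card {w // Z w u} := by
    have h3 : ∀ (Q : W → Prop) [DecidablePred Q], Nat.card {w // Q w} = (Finset.univ.filter Q).card := fun Q _ => by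
      rw [Nat.card_eq_fintype_card, Fintype.card_subtype]
    rw [h3 (fun w => ∃ u ∈ S, Z w u), Finset.sum_congr rfl fun u _ => h3 (fun w => Z w u)]
    refine le_trans (Finset.card_le_card (t := S.biUnion fun u => Finset.univ.filter fun w => Z w u) ?_)
      Finset.card_biUnion_le
    intro w hw
    rw [Finset.mem_filter] at hw
    obtain ⟨-, u, hu, hz⟩ := hw
    rw [Finset.mem_biUnion]
    exact ⟨u, hu, Finset.mem_filter.2 ⟨Finset.mem_univ _, hz⟩⟩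
  calc (Nat.card {w // ∃ u ∈ S, Z w u} : ℝ) ≤ ((∑ u ∈ S, Nat.card {w // Z w u} : ℕ) : ℝ) := by exact_mod_cast h2
    _ = ∑ u ∈ S, (Nat.card {w // Z w u} : ℝ) := by push_cast; rfl
    _ ≤ ∑ _u ∈ S, a := Finset.sum_le_sum h1
    _ = S.card * a := by rw [Finset.sum_const, nsmul_eq_mul]

theorem ci_densF {F : Type} [Field F] [Fintype F] (hF : 11 ≤ Fintype.card F) {m r : ℕ} (hm : m ≤ r) (n : Fin r → ℕ)
    (hn : ∀ j, 1 ≤ n j) (hK : m + 1 ≤ ∑ j, n j) :
    (Nat.card {w : (Σ j, Mo m (n j)) → F // ∃ u : Fin (m + 1) → F, u ≠ 0 ∧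
      ∀ j, ∑ e, w ⟨j, e⟩ * mo u e = 0} : ℝ) ≤
      (1 - 1 / 20) * (Fintype.card F : ℝ) ^ Fintype.card (Σ j, Mo m (n j)) := by
  obtain ⟨p, hpF⟩ : ∃ p, Fintype.card F = p := ⟨_, rfl⟩
  rw [hpF] at hF ⊢
  have hp := hF
  classical
  have hp0 : 0 < p := by omega
  have hpR : (11 : ℝ) ≤ p := by exact_mod_cast hp
  have hpR0 : (0 : ℝ) < p := by linarith
  obtain ⟨S, hS0, hSi, hSr, hSc⟩ := repsF hpF m
  have hN : (S.card : ℝ) * ((p : ℝ) - 1) + 1 = (p : ℝ) ^ (m + 1) := by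
    have h1 : ((S.card * (p - 1) + 1 : ℕ) : ℝ) = ((p ^ (m + 1) : ℕ) : ℝ) := by rw [hSc]
    rw [Nat.cast_add, Nat.cast_mul, Nat.cast_sub (by omega : 1 ≤ p), Nat.cast_one, Nat.cast_pow] at h1
    exact h1
  obtain ⟨M, hM⟩ : ∃ M : ℕ, M = Fintype.card (Σ j, Mo m (n j)) := ⟨_, rfl⟩
  have hq0 : (0 : ℝ) < (p : ℝ) ^ M := by positivity
  have hcard : Nat.card {w : (Σ j, Mo m (n j)) → F // ∃ u : Fin (m + 1) → F, u ≠ 0 ∧
      ∀ j, ∑ e, w ⟨j, e⟩ * mo u e = 0} =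
      Nat.card {w : (Σ j, Mo m (n j)) → F // ∃ u ∈ S, ∀ j, ∑ e, w ⟨j, e⟩ * mo u e = 0} := by
    refine Nat.card_congr (Equiv.subtypeEquivRight fun w => ?_)
    constructor
    · rintro ⟨u, hu, hz⟩
      obtain ⟨v, hv, s, hs, rfl⟩ := hSr u hu
      refine ⟨v, hv, fun j => ?_⟩
      have h1 := hz j
      have h2 : ∑ e, w ⟨j, e⟩ * mo (s • v) e = s ^ n j * ∑ e, w ⟨j, e⟩ * mo v e := by
        rw [Finset.mul_sum]
        refine Finset.sum_congr rfl fun e _ => ?_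
        rw [PH4_mo_smul]
        ring
      rw [h2] at h1
      exact (mul_eq_zero.1 h1).resolve_left (pow_ne_zero _ hs)
    · rintro ⟨u, hu, hz⟩
      exact ⟨u, hS0 u hu, hz⟩
  rw [hcard, ← hM]
  have b1 : ∀ u ∈ S, (Nat.card {w : (Σ j, Mo m (n j)) → F // ∀ j, ∑ e, w ⟨j, e⟩ * mo u e = 0} : ℝ) ≤
      (p : ℝ) ^ M / (p : ℝ) ^ r := fun u hu => by
    have h1 := cnt1F hpF n (hS0 u hu)
    rw [← hM] at h1
    exact PH4_le_of_mul hp0 h1.le
  rcases Nat.lt_or_ge m r with hlt | hge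
  · refine (PH4_union S _ _ b1).trans ?_
    have h2 := ci_num' (m := m) (r := r) hpR hlt hN
    calc (S.card : ℝ) * ((p : ℝ) ^ M / (p : ℝ) ^ r) = ((S.card : ℝ) / (p : ℝ) ^ r) * (p : ℝ) ^ M := by ring
      _ ≤ (19 / 20) * (p : ℝ) ^ M := mul_le_mul_of_nonneg_right h2 hq0.le
      _ = _ := by norm_num
  have hmr : r = m := le_antisymm hge hm
  subst hmr
  have hr1 : 1 ≤ r := by
    rcases Nat.eq_zero_or_pos r with h0 | h0
    · subst h0
      simp at hK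
    · exact h0
  obtain ⟨j₀, hj₀⟩ : ∃ j₀, 2 ≤ n j₀ := by
    by_contra hcon
    push Not at hcon
    have h1 : ∀ j, n j = 1 := fun j => le_antisymm (Nat.lt_succ_iff.1 (hcon j)) (hn j)
    rw [Finset.sum_congr rfl fun j _ => h1 j] at hK
    simp at hK
  have b2 : ∀ u ∈ S, ∀ v ∈ S, u ≠ v → (p : ℝ) ^ M / (p : ℝ) ^ (2 * r) ≤
      (Nat.card {w : (Σ j, Mo r (n j)) → F // (∀ j, ∑ e, w ⟨j, e⟩ * mo u e = 0) ∧
        ∀ j, ∑ e, w ⟨j, e⟩ * mo v e = 0} : ℝ) := fun u hu v hv huv => by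
    have h1 := cnt2F hpF n hn (hSi u hu v hv huv)
    rw [← hM] at h1
    exact (PH4_eq_of_mul hp0 h1).ge
  have b3 : ∀ u ∈ S, ∀ v ∈ S, u ≠ v →
      ∑ t ∈ (S.erase u).erase v, (Nat.card {w : (Σ j, Mo r (n j)) → F //
        (∀ j, ∑ e, w ⟨j, e⟩ * mo u e = 0) ∧ (∀ j, ∑ e, w ⟨j, e⟩ * mo v e = 0) ∧
        ∀ j, ∑ e, w ⟨j, e⟩ * mo t e = 0} : ℝ) ≤
      (p : ℝ) ^ M * (((p : ℝ) - 1) / (p : ℝ) ^ (2 * r + 1) + S.card / (p : ℝ) ^ (3 * r)) := by
    intro u hu v hv huv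
    rw [← Finset.sum_filter_add_sum_filter_not ((S.erase u).erase v)
      (fun t => LinearIndependent F ![u, v, t])]
    have s1 : ∑ t ∈ ((S.erase u).erase v).filter (fun t => LinearIndependent F ![u, v, t]),
        (Nat.card {w : (Σ j, Mo r (n j)) → F //
        (∀ j, ∑ e, w ⟨j, e⟩ * mo u e = 0) ∧ (∀ j, ∑ e, w ⟨j, e⟩ * mo v e = 0) ∧
        ∀ j, ∑ e, w ⟨j, e⟩ * mo t e = 0} : ℝ) ≤ S.card * ((p : ℝ) ^ M / (p : ℝ) ^ (3 * r)) := by
      calc _ ≤ ∑ _t ∈ ((S.erase u).erase v).filter (fun t => LinearIndependent F ![u, v, t]),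
            (p : ℝ) ^ M / (p : ℝ) ^ (3 * r) := by
            refine Finset.sum_le_sum fun t ht => ?_
            have h1 := cnt3F hpF n hn (Finset.mem_filter.1 ht).2
            rw [← hM] at h1
            exact (PH4_eq_of_mul hp0 h1).le
        _ = ((((S.erase u).erase v).filter (fun t => LinearIndependent F ![u, v, t])).card : ℝ) *
            ((p : ℝ) ^ M / (p : ℝ) ^ (3 * r)) := by rw [Finset.sum_const, nsmul_eq_mul]
        _ ≤ _ := by
            refine mul_le_mul_of_nonneg_right ?_ (by positivity)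
            have h2 : (((S.erase u).erase v).filter (fun t => LinearIndependent F ![u, v, t])).card ≤ S.card :=
              Finset.card_le_card ((Finset.filter_subset _ _).trans
                ((Finset.erase_subset _ _).trans (Finset.erase_subset _ _)))
            exact_mod_cast h2
    have s2 : ∑ t ∈ ((S.erase u).erase v).filter (fun t => ¬ LinearIndependent F ![u, v, t]),
        (Nat.card {w : (Σ j, Mo r (n j)) → F //
        (∀ j, ∑ e, w ⟨j, e⟩ * mo u e = 0) ∧ (∀ j, ∑ e, w ⟨j, e⟩ * mo v e = 0) ∧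
        ∀ j, ∑ e, w ⟨j, e⟩ * mo t e = 0} : ℝ) ≤ ((p : ℝ) - 1) * ((p : ℝ) ^ M / (p : ℝ) ^ (2 * r + 1)) := by
      calc _ ≤ ∑ _t ∈ ((S.erase u).erase v).filter (fun t => ¬ LinearIndependent F ![u, v, t]),
            (p : ℝ) ^ M / (p : ℝ) ^ (2 * r + 1) := by
            refine Finset.sum_le_sum fun t ht => ?_
            have h0 := (Finset.mem_filter.1 ht).1
            rw [Finset.mem_erase, Finset.mem_erase] at h0
            obtain ⟨htv, htu, htS⟩ := h0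
            have h1 := cnt3F' hpF n hn j₀ hj₀ (hSi u hu v hv huv) (hSi u hu t htS (Ne.symm htu))
              (hSi v hv t htS (Ne.symm htv))
            rw [← hM] at h1
            exact PH4_le_of_mul hp0 h1
        _ = ((((S.erase u).erase v).filter (fun t => ¬ LinearIndependent F ![u, v, t])).card : ℝ) *
            ((p : ℝ) ^ M / (p : ℝ) ^ (2 * r + 1)) := by rw [Finset.sum_const, nsmul_eq_mul]
        _ ≤ _ := by
            refine mul_le_mul_of_nonneg_right ?_ (by positivity)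
            have h2 := line_cardF hpF S hSi hu hv huv
            have h3 : ((((S.erase u).erase v).filter (fun t => ¬ LinearIndependent F ![u, v, t])).card : ℝ) ≤
                ((p - 1 : ℕ) : ℝ) := by exact_mod_cast h2
            rwa [Nat.cast_sub (by omega : 1 ≤ p), Nat.cast_one] at h3
    calc _ ≤ S.card * ((p : ℝ) ^ M / (p : ℝ) ^ (3 * r)) + ((p : ℝ) - 1) * ((p : ℝ) ^ M / (p : ℝ) ^ (2 * r + 1)) :=
          add_le_add s1 s2
      _ = _ := by ring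
  have hb := bonf3 S (fun (w : (Σ j, Mo r (n j)) → F) u => ∀ j, ∑ e, w ⟨j, e⟩ * mo u e = 0) _ _ _ b1 b2 b3
  have h2 := ci_num hpR hr1 hN
  refine hb.trans ?_
  calc _ = (p : ℝ) ^ M * (S.card / (p : ℝ) ^ r - S.card * (S.card - 1) / 2 / (p : ℝ) ^ (2 * r) +
        S.card * (S.card - 1) / 6 * (((p : ℝ) - 1) / (p : ℝ) ^ (2 * r + 1) + S.card / (p : ℝ) ^ (3 * r))) := by ring
    _ ≤ (p : ℝ) ^ M * (19 / 20) := mul_le_mul_of_nonneg_left h2 hq0.le
    _ = _ := by ring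

end FB
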