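import Pool.Agent.Lib.MP_17a322_ntCI.Stmt
import Pool.Agent.Lib.MP_10e784_agL.GL

/-!
# LEAF PK2: everywhere locally soluble double covers of the powers of a fixed elliptic curve over `ℚ`

PROOF.  As `loc_G` of `MP_10e784_agL/GL.lean` with `loc_fix` (file `SD`: the number `nE (d l₀) H A B` of everywhere locally soluble double covers of the FIXED curve is at least `η H ^ (2 d l₀)`, `H ≥ H0`) instead of `loc_all`, without the other curves: the map
`{a // nE-condition} × ({k : IxG d // k ∉ Set.range (up d l₀)} → {x : ℤ // |x| ≤ H}) → ..`, injective; `sub_sol` (GL).  `RamCov.Cov K (fun _ => (A, B)) d a` is `BLS.SolG K (fun _ => A) (fun _ => B) d a` (as private `cov_eqK` of `MP_17a322_ntVK/Hasse.lean`); `RamCov.Ix`, `BLS.Ix` are the same type.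
-/

namespace FB

open Finset

private theorem PK2_pt (K : Type) [Field K] (A B : ℤ) (P : Option (K × K)) :
    RamCov.IsPt K (A, B) P ↔ BLS.PtK K A B P := by
  rcases P with _ | z <;> exact Iff.rfl

private theorem PK2_bas (K : Type) [Field K] (d : ℕ) (P : Option (K × K)) (k : RamCov.Ix d) :
    RamCov.bas K d P k = BLS.basK K d P k := by
  rcases P with _ | z <;> rcases k with i | i <;> rfl

private theorem PK2_cov (K : Type) [Field K] {g : ℕ} (A B : ℤ) (d : Fin g → ℕ) (a : RamCov.IxG d → ℤ)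
    (h : BLS.SolG K (fun _ => A) (fun _ => B) d a) : RamCov.Cov K (fun _ => (A, B)) d a := by
  obtain ⟨P, h1, h2⟩ := h
  refine ⟨P, fun l => (PK2_pt K A B (P l)).2 (h1 l), ?_⟩
  simp only [PK2_bas]
  exact h2

private theorem PK2_up_same {g : ℕ} (d : Fin g → ℕ) (l₀ : Fin g) (k : BLS.Ix (d l₀)) :
    BLS.up d l₀ k l₀ = k := Function.update_self _ _ _

private theorem PK2_up_inj {g : ℕ} (d : Fin g → ℕ) (l₀ : Fin g) : Function.Injective (BLS.up d l₀) := by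
  intro k k' h
  rw [← PK2_up_same d l₀ k, h, PK2_up_same]

private theorem PK2_card_I (H : ℕ) : (H : ℝ) ≤ (Nat.card {x : ℤ // |x| ≤ (H : ℤ)} : ℝ) := by
  have h1 : Nat.card {x : ℤ // |x| ≤ (H : ℤ)} = (Icc (-(H : ℤ)) H).card := by
    rw [← Nat.card_eq_finsetCard]
    exact Nat.card_congr (Equiv.subtypeEquivRight fun x => by rw [mem_Icc, abs_le])
  rw [h1, Int.card_Icc]
  have h2 : (H : ℤ) + 1 - -(H : ℤ) = ((2 * H + 1 : ℕ) : ℤ) := by
    push_cast
    ring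
  rw [h2, Int.toNat_natCast]
  push_cast
  have h3 : (0 : ℝ) ≤ H := Nat.cast_nonneg H
  linarith

private theorem PK2_fin {ι : Type} [Fintype ι] (H : ℕ) (Q : (ι → ℤ) → Prop) :
    Finite {a : ι → ℤ // (∀ k, |a k| ≤ (H : ℤ)) ∧ Q a} := by
  let f : {a : ι → ℤ // (∀ k, |a k| ≤ (H : ℤ)) ∧ Q a} → (ι → (Icc (-(H : ℤ)) H : Finset ℤ)) :=
    fun a i => ⟨a.1 i, mem_Icc.2 (abs_le.1 (a.2.1 i))⟩
  have hf : Function.Injective f := by
    intro a b hab
    refine Subtype.ext (funext fun i => ?_)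
    exact congrArg (fun w => (w i : ℤ)) hab
  exact Finite.of_injective f hf

theorem locQ {A B : ℤ} (h : 4 * A ^ 3 + 27 * B ^ 2 ≠ 0) {g : ℕ} (d : Fin g → ℕ) (hd : ∀ l, 1 ≤ d l)
    (hd2 : ∃ l, 2 ≤ d l) : ∃ (η : ℝ) (H0 : ℕ), 0 < η ∧ ∀ H : ℕ, H0 ≤ H → η * (H : ℝ) ^ Fintype.card (RamCov.IxG d) ≤
      (Nat.card {a : RamCov.IxG d → ℤ // (∀ k, |a k| ≤ (H : ℤ)) ∧ RamCov.Cov ℝ (fun _ => (A, B)) d a ∧
        ∀ (p : ℕ) [Fact p.Prime], RamCov.Cov ℚ_[p] (fun _ => (A, B)) d a} : ℝ) := by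
  classical
  obtain ⟨l₀, h2⟩ := hd2
  obtain ⟨η, H0, hη, hX⟩ := BLS.loc_fix (d l₀) h2 A B h
  refine ⟨η, max H0 1, hη, fun H hH => ?_⟩
  have hH0 : H0 ≤ H := (le_max_left _ _).trans hH
  have hH1 : 1 ≤ H := (le_max_right _ _).trans hH
  have hX' := hX H hH0
  set X := {a : BLS.Ix (d l₀) → ℤ // (∀ k, |a k| ≤ (H : ℤ)) ∧
      BLS.Sol ℝ A B (d l₀) a ∧ ∀ (p : ℕ) [Fact p.Prime], BLS.Sol ℚ_[p] A B (d l₀) a} with hXdef
  have hXc : BLS.nE (d l₀) H A B = Nat.card X := rfl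
  rw [hXc] at hX'
  set I := {x : ℤ // |x| ≤ (H : ℤ)} with hIdef
  have hsol : ∀ (K : Type) [Field K] (a : BLS.Ix (d l₀) → ℤ)
      (w : {k : BLS.IxG d // k ∉ Set.range (BLS.up d l₀)} → I), BLS.Sol K A B (d l₀) a →
      RamCov.Cov K (fun _ => (A, B)) d
        (fun k => if h : k ∈ Set.range (BLS.up d l₀) then a (k l₀) else (w ⟨k, h⟩).1) := by
    intro K _ a w h
    refine PK2_cov K A B d _ (BLS.sub_sol K _ _ d l₀ _ ?_)
    have e1 : (fun k => (fun k : BLS.IxG d => if h : k ∈ Set.range (BLS.up d l₀) then a (k l₀)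
        else (w ⟨k, h⟩).1) (BLS.up d l₀ k)) = a := by
      funext k
      show (if h : BLS.up d l₀ k ∈ Set.range (BLS.up d l₀) then a (BLS.up d l₀ k l₀)
        else (w ⟨BLS.up d l₀ k, h⟩).1) = a k
      rw [dif_pos ⟨k, rfl⟩, PK2_up_same]
    rw [e1]
    exact h
  let F : X × ({k : BLS.IxG d // k ∉ Set.range (BLS.up d l₀)} → I) →
      {a : RamCov.IxG d → ℤ // (∀ k, |a k| ≤ (H : ℤ)) ∧ RamCov.Cov ℝ (fun _ => (A, B)) d a ∧
        ∀ (p : ℕ) [Fact p.Prime], RamCov.Cov ℚ_[p] (fun _ => (A, B)) d a} :=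
    fun s => ⟨fun k => if h : k ∈ Set.range (BLS.up d l₀) then s.1.1 (k l₀) else (s.2 ⟨k, h⟩).1, by
      refine ⟨fun k => ?_, hsol ℝ _ _ s.1.2.2.1, fun p _ => hsol ℚ_[p] _ _ (s.1.2.2.2 p)⟩
      show |(if h : k ∈ Set.range (BLS.up d l₀) then s.1.1 (k l₀) else (s.2 ⟨k, h⟩).1)| ≤ (H : ℤ)
      by_cases h : k ∈ Set.range (BLS.up d l₀)
      · rw [dif_pos h]
        exact s.1.2.1 _
      · rw [dif_neg h]
        exact (s.2 ⟨k, h⟩).2⟩
  have hF : Function.Injective F := by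
    rintro ⟨x, w⟩ ⟨x', w'⟩ h
    have h4 : ∀ k, (if h : k ∈ Set.range (BLS.up d l₀) then x.1 (k l₀) else (w ⟨k, h⟩).1) =
        (if h : k ∈ Set.range (BLS.up d l₀) then x'.1 (k l₀) else (w' ⟨k, h⟩).1) :=
      fun k => congrFun (congrArg Subtype.val h) k
    have h5 : x = x' := by
      refine Subtype.ext (funext fun k => ?_)
      have := h4 (BLS.up d l₀ k)
      rw [dif_pos ⟨k, rfl⟩, dif_pos ⟨k, rfl⟩, PK2_up_same] at this
      exact this
    have h7 : w = w' := by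
      funext k
      have := h4 k.1
      rw [dif_neg k.2, dif_neg k.2] at this
      exact Subtype.ext this
    rw [h5, h7]
  have hfin := PK2_fin H (fun a : RamCov.IxG d → ℤ => RamCov.Cov ℝ (fun _ => (A, B)) d a ∧
        ∀ (p : ℕ) [Fact p.Prime], RamCov.Cov ℚ_[p] (fun _ => (A, B)) d a)
  have h8 := Nat.card_le_card_of_injective F hF
  rw [Nat.card_prod, Nat.card_fun] at h8
  have hIx : Fintype.card (BLS.Ix (d l₀)) = 2 * d l₀ := by
    rw [Fintype.card_sum, Fintype.card_fin, Fintype.card_fin]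
    omega
  have h10 : 2 * d l₀ + Nat.card {k : BLS.IxG d // k ∉ Set.range (BLS.up d l₀)} =
      Fintype.card (RamCov.IxG d) := by
    have e1 : Nat.card {k : BLS.IxG d // k ∈ Set.range (BLS.up d l₀)} = 2 * d l₀ := by
      rw [← hIx, ← Nat.card_eq_fintype_card]
      exact Nat.card_range_of_injective (PK2_up_inj d l₀)
    rw [← e1, ← Nat.card_eq_fintype_card, ← Nat.card_sum]
    exact Nat.card_congr (Equiv.sumCompl (fun k : BLS.IxG d => k ∈ Set.range (BLS.up d l₀)))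
  have h11 : (1 : ℝ) ≤ H := by exact_mod_cast hH1
  have h12 : ((Nat.card X * Nat.card I ^ Nat.card {k : BLS.IxG d // k ∉ Set.range (BLS.up d l₀)} : ℕ) : ℝ) ≤
      (Nat.card {a : RamCov.IxG d → ℤ // (∀ k, |a k| ≤ (H : ℤ)) ∧ RamCov.Cov ℝ (fun _ => (A, B)) d a ∧
        ∀ (p : ℕ) [Fact p.Prime], RamCov.Cov ℚ_[p] (fun _ => (A, B)) d a} : ℝ) := by
    exact_mod_cast h8
  refine le_trans ?_ h12
  push_cast
  rw [← h10, pow_add, ← mul_assoc]
  exact mul_le_mul hX' (pow_le_pow_left₀ (by positivity) (PK2_card_I H) _) (by positivity) (by positivity)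

end FB
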