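import Pool.Agent.Lib.MP_17a322_ntFB.PK1
import Pool.Agent.Lib.MP_17a322_ntFB.PK2

/-!
# LEAF PK: the failure of the Hasse principle for double covers of the powers of a fixed elliptic curve over `ℚ`

PROOF.  As `hp_G` of `MP_10e784_agL/GL.lean` (private `GL_diff` there): the soluble ones of `locQ` are at least `η H ^ N`, those with a rational point at most `C H ^ N exp (-(c (log log H) ^ 2)) ≤ (η / 2) H ^ N` for `H ≥ H2` (`log (log H) → ∞`: as `exp_small` of `SE`).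
-/

namespace FB

open Finset VK

private theorem PK_fin {ι : Type} [Finite ι] (H : ℕ) (Q : (ι → ℤ) → Prop) :
    Finite {a : ι → ℤ // (∀ k, |a k| ≤ (H : ℤ)) ∧ Q a} := by
  let f : {a : ι → ℤ // (∀ k, |a k| ≤ (H : ℤ)) ∧ Q a} → (ι → (Icc (-(H : ℤ)) H : Finset ℤ)) :=
    fun a => fun i => ⟨a.1 i, mem_Icc.2 (abs_le.1 (a.2.1 i))⟩
  refine Finite.of_injective f fun a b hab => Subtype.ext ?_
  funext i
  exact congrArg (fun w => (w i : ℤ)) hab

/-- a density argument -/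
private theorem PK_diff {α : Type} (P Q R : α → Prop) [Finite {a // P a ∧ Q a}] [Finite {a // P a ∧ R a}] :
    (Nat.card {a // P a ∧ Q a} : ℝ) ≤ Nat.card {a // P a ∧ R a} + Nat.card {a // P a ∧ Q a ∧ ¬ R a} := by
  classical
  have hf : Finite {a // P a ∧ Q a ∧ ¬ R a} :=
    Finite.of_injective (fun a => (⟨a.1, a.2.1, a.2.2.1⟩ : {a // P a ∧ Q a})) fun a b h =>
      Subtype.ext (congrArg (fun z => z.1) h)
  let f : {a // P a ∧ Q a} → {a // P a ∧ R a} ⊕ {a // P a ∧ Q a ∧ ¬ R a} := fun a =>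
    if h : R a.1 then .inl ⟨a.1, a.2.1, h⟩ else .inr ⟨a.1, a.2.1, a.2.2, h⟩
  have hinj : Function.Injective f := by
    intro a b hab
    by_cases ha : R a.1 <;> by_cases hb : R b.1
    · have h1 := hab
      simp only [f, dif_pos ha, dif_pos hb, Sum.inl.injEq, Subtype.mk.injEq] at h1
      exact Subtype.ext h1
    · have h1 := hab
      simp only [f, dif_pos ha, dif_neg hb, reduceCtorEq] at h1
    · have h1 := hab
      simp only [f, dif_neg ha, dif_pos hb, reduceCtorEq] at h1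
    · have h1 := hab
      simp only [f, dif_neg ha, dif_neg hb, Sum.inr.injEq, Subtype.mk.injEq] at h1
      exact Subtype.ext h1
  have h1 := Nat.card_le_card_of_injective f hinj
  rw [Nat.card_sum] at h1
  exact_mod_cast h1

private theorem PK_small {c C ε : ℝ} (hc : 0 < c) (hε : 0 < ε) : ∃ H0 : ℕ, ∀ H : ℕ, H0 ≤ H →
    C * Real.exp (-(c * (Real.log (Real.log H)) ^ 2)) ≤ ε := by
  have h1 : Filter.Tendsto (fun H : ℕ => C * Real.exp (-(c * (Real.log (Real.log (H : ℝ))) ^ 2)))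
      Filter.atTop (nhds (C * 0)) := by
    refine Filter.Tendsto.const_mul C (Real.tendsto_exp_atBot.comp ?_)
    refine Filter.tendsto_neg_atTop_atBot.comp ?_
    refine Filter.Tendsto.const_mul_atTop hc ?_
    exact (Filter.tendsto_pow_atTop two_ne_zero).comp
      (Real.tendsto_log_atTop.comp (Real.tendsto_log_atTop.comp tendsto_natCast_atTop_atTop))
  rw [mul_zero] at h1
  have h2 := h1.eventually (gt_mem_nhds hε)
  obtain ⟨H0, h3⟩ := Filter.eventually_atTop.1 h2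
  exact ⟨H0, fun H hH => (h3 H hH).le⟩

theorem hasseQ {A B : ℤ} (h : 4 * A ^ 3 + 27 * B ^ 2 ≠ 0) (hr : Module.finrank ℤ (Pt (A : ℚ) (B : ℚ)) ≤ 1)
    (g : ℕ) (d : Fin g → ℕ) (hd : ∀ l, 1 ≤ d l) (hd2 : ∃ l, 2 ≤ d l) :
    ∃ (η : ℝ) (H0 : ℕ), 0 < η ∧ ∀ H : ℕ, H0 ≤ H → η * (H : ℝ) ^ Fintype.card (RamCov.IxG d) ≤
      (Nat.card {a : RamCov.IxG d → ℤ // (∀ k, |a k| ≤ (H : ℤ)) ∧ RamCov.Cov ℝ (fun _ => (A, B)) d a ∧
        (∀ (p : ℕ) [Fact p.Prime], RamCov.Cov ℚ_[p] (fun _ => (A, B)) d a) ∧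
        ¬ RamCov.Cov ℚ (fun _ => (A, B)) d a} : ℝ) := by
  obtain ⟨η, H1, hη, h1⟩ := locQ h d hd hd2
  obtain ⟨c, hc, hX⟩ := upQ h hr
  obtain ⟨C, hC⟩ := hX g d hd
  obtain ⟨H2, h3⟩ := PK_small (C := C) hc (half_pos hη)
  refine ⟨η / 2, max H1 (max H2 1), half_pos hη, fun H hH => ?_⟩
  have a1 : H1 ≤ H := (le_max_left _ _).trans hH
  have a2 : H2 ≤ H := (le_max_left _ _).trans ((le_max_right _ _).trans hH)
  have a3 : 1 ≤ H := (le_max_right _ _).trans ((le_max_right _ _).trans hH)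
  have := fun Q => PK_fin (ι := RamCov.IxG d) H Q
  have h4 := PK_diff (fun a : RamCov.IxG d → ℤ => ∀ k, |a k| ≤ (H : ℤ))
    (fun a => RamCov.Cov ℝ (fun _ => (A, B)) d a ∧
      ∀ (p : ℕ) [Fact p.Prime], RamCov.Cov ℚ_[p] (fun _ => (A, B)) d a)
    (fun a => RamCov.Cov ℚ (fun _ => (A, B)) d a)
  have e1 : Nat.card {a : RamCov.IxG d → ℤ // (∀ k, |a k| ≤ (H : ℤ)) ∧
      (RamCov.Cov ℝ (fun _ => (A, B)) d a ∧
        ∀ (p : ℕ) [Fact p.Prime], RamCov.Cov ℚ_[p] (fun _ => (A, B)) d a) ∧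
      ¬ RamCov.Cov ℚ (fun _ => (A, B)) d a} =
      Nat.card {a : RamCov.IxG d → ℤ // (∀ k, |a k| ≤ (H : ℤ)) ∧
        RamCov.Cov ℝ (fun _ => (A, B)) d a ∧
        (∀ (p : ℕ) [Fact p.Prime], RamCov.Cov ℚ_[p] (fun _ => (A, B)) d a) ∧
        ¬ RamCov.Cov ℚ (fun _ => (A, B)) d a} :=
    Nat.card_congr (Equiv.subtypeEquivRight fun a =>
      ⟨fun h => ⟨h.1, h.2.1.1, h.2.1.2, h.2.2⟩, fun h => ⟨h.1, ⟨h.2.1, h.2.2.1⟩, h.2.2.2⟩⟩)
  rw [e1] at h4
  have h5 := h1 H a1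
  have h6 := hC H a3
  have h7 := h3 H a2
  have h8 : C * (H : ℝ) ^ Fintype.card (RamCov.IxG d) *
      Real.exp (-(c * (Real.log (Real.log H)) ^ 2)) ≤
      η / 2 * (H : ℝ) ^ Fintype.card (RamCov.IxG d) := by
    calc C * (H : ℝ) ^ Fintype.card (RamCov.IxG d) *
          Real.exp (-(c * (Real.log (Real.log H)) ^ 2)) =
          C * Real.exp (-(c * (Real.log (Real.log H)) ^ 2)) *
            (H : ℝ) ^ Fintype.card (RamCov.IxG d) := by ring
      _ ≤ η / 2 * (H : ℝ) ^ Fintype.card (RamCov.IxG d) :=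
        mul_le_mul_of_nonneg_right h7 (by positivity)
  linarith

end FB
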