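import Pool.Agent.Lib.MP_17a322_ntFB.PMain

/-!
# LEAF PK1: double covers of the powers of a fixed elliptic curve over `ℚ`

PROOF.  `main` (PMain) with `K = ℚ`, `Γ = ⊤` (`finrank ℤ ⊤ = finrank ℤ (Pt ..)`: `AddSubgroup.topEquiv` / `Submodule.topEquiv`, `LinearEquiv.finrank_eq`), `r = q = 2`, `ζ = -1` (`IsPrimitiveRoot.neg_one`), `e = 1` and the basis `ω 0 = 1` of `𝓞 ℚ` (from `Rat.ringOfIntegersEquiv : 𝓞 ℚ ≃+* ℤ` and `Module.Basis.singleton (Fin 1) ℤ` mapped with `Module.Basis.map`, so that `cf ω a t = a (t, 0)`).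
`A`, `B : ℤ` are cast to `𝓞 ℚ`.  A point `P l : Option (ℚ × ℚ)` with `IsPt` is `opP` of a point of the group (nonsingular because `4 A ^ 3 + 27 B ^ 2 ≠ 0`; `EK_eqn` of `MP_17a322_ntVK/EA` and the lemma `WeierstrassCurve.Affine.equation_iff_nonsingular` for elliptic curves).  Relabel `IxG d × Fin 1 ≃ IxG d`.
-/

namespace FB

open Finset NumberField VK

theorem upQ {A B : ℤ} (h : 4 * A ^ 3 + 27 * B ^ 2 ≠ 0) (hr : Module.finrank ℤ (Pt (A : ℚ) (B : ℚ)) ≤ 1) :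
    ∃ c : ℝ, 0 < c ∧ ∀ (g : ℕ) (d : Fin g → ℕ), (∀ l, 1 ≤ d l) → ∃ C : ℝ, ∀ H : ℕ, 1 ≤ H →
      (Nat.card {a : RamCov.IxG d → ℤ // (∀ k, |a k| ≤ (H : ℤ)) ∧ RamCov.Cov ℚ (fun _ => (A, B)) d a} : ℝ) ≤
        C * (H : ℝ) ^ Fintype.card (RamCov.IxG d) * Real.exp (-(c * (Real.log (Real.log H)) ^ 2)) := by
  classical
  have eA : (((A : ℤ) : 𝓞 ℚ) : ℚ) = (A : ℚ) := map_intCast (algebraMap (𝓞 ℚ) ℚ) A
  have eB : (((B : ℤ) : 𝓞 ℚ) : ℚ) = (B : ℚ) := map_intCast (algebraMap (𝓞 ℚ) ℚ) B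
  have hdQ : ds (A : ℚ) (B : ℚ) ≠ 0 := by
    unfold ds
    exact_mod_cast h
  have hd : ds ((A : ℤ) : 𝓞 ℚ) ((B : ℤ) : 𝓞 ℚ) ≠ 0 := by
    intro h0
    unfold ds at h0
    apply h
    exact_mod_cast h0
  have hfr : Module.finrank ℤ (⊤ : AddSubgroup (Pt (((A : ℤ) : 𝓞 ℚ) : ℚ) (((B : ℤ) : 𝓞 ℚ) : ℚ))) ≤ 1 := by
    rw [(AddSubgroup.topEquiv (G := Pt (((A : ℤ) : 𝓞 ℚ) : ℚ) (((B : ℤ) : 𝓞 ℚ) : ℚ))).toIntLinearEquiv.finrank_eq,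
      eA, eB]
    exact hr
  obtain ⟨c, hc, hmain, -⟩ := main hd ⊤ hfr
  refine ⟨c, hc, fun g d hd1 => ?_⟩
  obtain ⟨ω, hω⟩ : ∃ ω : Module.Basis (Fin 1) ℤ (𝓞 ℚ), ω 0 = 1 := by
    refine ⟨(Module.Basis.singleton (Fin 1) ℤ).map
      Rat.ringOfIntegersEquiv.symm.toAddEquiv.toIntLinearEquiv, ?_⟩
    rw [Module.Basis.map_apply, Module.Basis.singleton_apply]
    exact map_one Rat.ringOfIntegersEquiv.symm
  obtain ⟨C, hC⟩ := hmain 2 2 (-1) Nat.prime_two (dvd_refl 2) (IsPrimitiveRoot.neg_one 0 (by norm_num))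
    g d hd1 (fun l => dvd_mul_right 2 (d l)) 1 ω
  refine ⟨C, fun H hH => ?_⟩
  have h1 := hC H hH
  rw [Fintype.card_prod, Fintype.card_fin, mul_one] at h1
  refine le_trans ?_ h1
  have hf : Finite {a : RamCov.IxG d × Fin 1 → ℤ // (∀ i, |a i| ≤ (H : ℤ)) ∧
      ∃ P : Fin g → Pt (((A : ℤ) : 𝓞 ℚ) : ℚ) (((B : ℤ) : 𝓞 ℚ) : ℚ),
        (∀ l, P l ∈ (⊤ : AddSubgroup (Pt (((A : ℤ) : 𝓞 ℚ) : ℚ) (((B : ℤ) : 𝓞 ℚ) : ℚ)))) ∧ ∃ w : ℚ,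
          w ^ 2 = ∑ t : RamCov.IxG d, cf ω a t * ∏ l, RamCov.bas ℚ (d l) (opP (P l)) (t l)} := by
    have h2 : Finite {a : RamCov.IxG d × Fin 1 → ℤ // ∀ i, |a i| ≤ (H : ℤ)} := by
      have h3 : Set.Finite {a : RamCov.IxG d × Fin 1 → ℤ | ∀ i, |a i| ≤ (H : ℤ)} := by
        refine Set.Finite.subset (Set.Finite.pi (fun _ => Set.finite_Icc (-(H : ℤ)) H)) fun a ha i _ => ?_
        exact Set.mem_Icc.2 (abs_le.1 (ha i))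
      exact h3
    exact Finite.of_injective (β := {a : RamCov.IxG d × Fin 1 → ℤ // ∀ i, |a i| ≤ (H : ℤ)})
      (fun a => ⟨a.1, a.2.1⟩) fun a b hab => Subtype.ext (congrArg (fun x => x.1) hab)
  have hpt : ∀ z : Option (ℚ × ℚ), RamCov.IsPt ℚ (A, B) z →
      ∃ Q : Pt (((A : ℤ) : 𝓞 ℚ) : ℚ) (((B : ℤ) : 𝓞 ℚ) : ℚ), opP Q = z := by
    rw [eA, eB]
    intro z hz
    rcases z with _ | z
    · exact ⟨.zero, rfl⟩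
    · have h2 : (EK (A : ℚ) (B : ℚ)).toAffine.Nonsingular z.1 z.2 :=
        (EK_nons (A : ℚ) (B : ℚ) (by norm_num) hdQ z.1 z.2).2 hz
      exact ⟨.some z.1 z.2 h2, rfl⟩
  have hmap : ∀ a : {a : RamCov.IxG d → ℤ // (∀ k, |a k| ≤ (H : ℤ)) ∧ RamCov.Cov ℚ (fun _ => (A, B)) d a},
      (∀ i : RamCov.IxG d × Fin 1, |a.1 i.1| ≤ (H : ℤ)) ∧
      ∃ P : Fin g → Pt (((A : ℤ) : 𝓞 ℚ) : ℚ) (((B : ℤ) : 𝓞 ℚ) : ℚ),
        (∀ l, P l ∈ (⊤ : AddSubgroup (Pt (((A : ℤ) : 𝓞 ℚ) : ℚ) (((B : ℤ) : 𝓞 ℚ) : ℚ)))) ∧ ∃ w : ℚ,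
          w ^ 2 = ∑ t : RamCov.IxG d, cf ω (fun i : RamCov.IxG d × Fin 1 => a.1 i.1) t *
            ∏ l, RamCov.bas ℚ (d l) (opP (P l)) (t l) := by
    rintro ⟨a, ha, P, hP, w, hw⟩
    refine ⟨fun i => ha i.1, ?_⟩
    choose Q hQ using fun l => hpt (P l) (hP l)
    refine ⟨Q, fun l => AddSubgroup.mem_top _, w, ?_⟩
    rw [sq, ← hw]
    refine Finset.sum_congr rfl fun t _ => ?_
    have h3 : cf ω (fun i : RamCov.IxG d × Fin 1 => a i.1) t = (a t : ℚ) := by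
      unfold cf el
      rw [Fin.sum_univ_one, hω, mul_one]
      exact map_intCast (algebraMap (𝓞 ℚ) ℚ) (a t)
    rw [h3]
    refine congrArg _ (Finset.prod_congr rfl fun l _ => ?_)
    rw [hQ]
  have h2 := Nat.card_le_card_of_injective
    (fun a : {a : RamCov.IxG d → ℤ // (∀ k, |a k| ≤ (H : ℤ)) ∧ RamCov.Cov ℚ (fun _ => (A, B)) d a} =>
      (⟨fun i => a.1 i.1, hmap a⟩ : {a : RamCov.IxG d × Fin 1 → ℤ // (∀ i, |a i| ≤ (H : ℤ)) ∧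
      ∃ P : Fin g → Pt (((A : ℤ) : 𝓞 ℚ) : ℚ) (((B : ℤ) : 𝓞 ℚ) : ℚ),
        (∀ l, P l ∈ (⊤ : AddSubgroup (Pt (((A : ℤ) : 𝓞 ℚ) : ℚ) (((B : ℤ) : 𝓞 ℚ) : ℚ)))) ∧ ∃ w : ℚ,
          w ^ 2 = ∑ t : RamCov.IxG d, cf ω a t * ∏ l, RamCov.bas ℚ (d l) (opP (P l)) (t l)}))
    (fun a b hab => Subtype.ext (funext fun k => congrFun (congrArg (fun x => x.1) hab) (k, 0)))
  exact_mod_cast h2

end FB
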