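import Pool.Agent.Lib.MP_17a322_ntFB.PV

/-!
# The local conditions of the two families
-/

namespace FB

open Finset NumberField VK IsDedekindDomain

/-- the local condition for the covers `w ^ q = F` -/
def RAV {K : Type} [Field K] [NumberField K] (q : ℕ) {g e : ℕ} (d : Fin g → ℕ) (ω : Fin e → 𝓞 K) :
    LocV K g (RamCov.IxG d × Fin e) := fun v _ z =>
  {c | ∃ s : RF v, s ^ q = ∑ t : RamCov.IxG d,
    (∑ k, (ZMod.cast (c (t, k)) : RF v) * rf (pV v) ((ω k : 𝓞 K) : K)) * ∏ l, RamCov.bas (RF v) (d l) (z l) (t l)}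

/-- the local condition for the common zeros of `s` sections on the product with `ℙ^m` -/
def RBV {K : Type} [Field K] [NumberField K] {m g s e : ℕ} (ν : Fin s → ℕ) (d : Fin s → Fin g → ℕ) (ω : Fin e → 𝓞 K) :
    LocV K g (RamCov.IxC m ν d × Fin e) := fun v _ z =>
  {c | ∃ y : Fin (m + 1) → RF v, y ≠ 0 ∧ ∀ j, ∑ t : MWS.Mo m (ν j) × RamCov.IxG (d j),
    (∑ k, (ZMod.cast (c (⟨j, t⟩, k)) : RF v) * rf (pV v) ((ω k : 𝓞 K) : K)) *
      (MWS.mo y t.1 * ∏ l, RamCov.bas (RF v) (d j l) (z l) (t.2 l)) = 0}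

end FB
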