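import Pool.Agent.Lib.MP_17a322_ntFB.PL0
import Pool.Agent.Lib.MP_17a322_ntFB.PV2
import Pool.Agent.Lib.MP_17a322_ntFB.PF1
import Pool.Agent.Lib.MP_17a322_ntFB.PH4

/-!
# LEAF PL1: the densities of the two families

PROOF.  `f c = ∑ t, (∑ k, cast (c (t, k)) * w k) * b t` (`w k = rf (pV v) (ω k)`, `b t = ∏ l, bas ..`) is additive (`ZMod.castHom (dvd_refl p) (RF v)`) and surjective (`w_surj`, some `b t ≠ 0`); `card_surjA` and `pow_dens` / `ci_densF`.
-/

namespace FB

open Finset NumberField VK IsDedekindDomain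

/-- some element of the basis is not zero at the point -/
theorem bas_neG {F : Type} [Field F] {g : ℕ} (d : Fin g → ℕ) (z : Fin g → Option (F × F)) :
    ∃ t : RamCov.IxG d, ∏ l, RamCov.bas F (d l) (z l) (t l) ≠ 0 := by
  obtain ⟨t, ht⟩ := VK.bas_ne d z
  exact ⟨t, by rw [ht]; exact one_ne_zero⟩

private theorem PL1_root {K F : Type} [Field K] [Field F] [Finite F] (π : PF K F) {q p : ℕ} (hq : q.Prime)
    (hqp : q < p) (hc : CharP F p) {ζ : K} (hζ : IsPrimitiveRoot ζ q) : q ∣ Nat.card F - 1 := by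
  classical
  have hmem : ζ ∈ π.V := by
    refine mem_pow π (n := q) hq.one_lt.le ?_
    rw [hζ.pow_eq_one]
    exact π.V.one_mem
  have h1 : Rf π ζ (rf π ζ) := rf_res hmem
  have h2 : rf π ζ ^ q = 1 := by
    have h3 := h1.pow q
    rw [hζ.pow_eq_one] at h3
    exact h3.unique Rf.one
  have h4 : rf π ζ ≠ 1 := by
    intro h5
    have h6 : Rf π (∑ i ∈ Finset.range q, ζ ^ i) (∑ i ∈ Finset.range q, rf π ζ ^ i) :=
      Rf.sum _ fun i _ => h1.pow i
    rw [hζ.geom_sum_eq_zero hq.one_lt, h5] at h6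
    have h7 := h6.unique Rf.zero
    rw [Finset.sum_congr rfl fun i _ => one_pow (M := F) i, Finset.sum_const, Finset.card_range, nsmul_eq_mul,
      mul_one] at h7
    have h8 : p ∣ q := (CharP.cast_eq_zero_iff F p q).1 h7
    exact absurd (Nat.le_of_dvd hq.pos h8) (not_le.2 hqp)
  have h0 : rf π ζ ≠ 0 := by
    intro h5
    rw [h5, zero_pow hq.ne_zero] at h2
    exact zero_ne_one h2
  have hF : Fintype F := Fintype.ofFinite F
  let u : Fˣ := Units.mk0 (rf π ζ) h0
  have hu : u ^ q = 1 := Units.ext h2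
  have hu1 : u ≠ 1 := fun h => h4 (congrArg Units.val h)
  have hq' : Fact q.Prime := ⟨hq⟩
  have ho : orderOf u = q := orderOf_eq_prime hu hu1
  have hd := orderOf_dvd_card (x := u)
  rw [ho, Fintype.card_units, ← Nat.card_eq_fintype_card] at hd
  exact hd

private theorem PL1_le {F : Type} [Field F] [Finite F] {p : ℕ} (hp : p.Prime) (hc : CharP F p) : p ≤ Nat.card F := by
  have : Fact p.Prime := ⟨hp⟩
  have h := Nat.card_le_card_of_injective (ZMod.castHom (dvd_refl p) F) (ZMod.castHom (dvd_refl p) F).injective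
  rwa [Nat.card_zmod] at h

theorem dens_RAV {K : Type} [Field K] [NumberField K] {q : ℕ} (hq : q.Prime) {ζ : K} (hζ : IsPrimitiveRoot ζ q)
    {g e : ℕ} (d : Fin g → ℕ) (ω : Module.Basis (Fin e) ℤ (𝓞 K)) : DensV (q + 3) (RAV q d ω) (1 / 20) := by
  classical
  intro v p hpp hc hp z
  have hfp : Fact p.Prime := ⟨hpp⟩
  have hfin : Finite (RF v) := finite_RF v
  have hdiv : q ∣ Nat.card (RF v) - 1 := PL1_root (pV v) hq (by omega : q < p) hc hζ
  obtain ⟨t₀, ht₀⟩ := bas_neG d z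
  let w : Fin e → RF v := fun k => rf (pV v) ((ω k : 𝓞 K) : K)
  let b : RamCov.IxG d → RF v := fun t => ∏ l, RamCov.bas (RF v) (d l) (z l) (t l)
  let f : (RamCov.IxG d × Fin e → ZMod p) →+ RF v :=
    { toFun := fun c => ∑ t : RamCov.IxG d, (∑ k, (ZMod.cast (c (t, k)) : RF v) * w k) * b t
      map_zero' := by
        refine Finset.sum_eq_zero fun t _ => ?_
        have h1 : ∑ k, (ZMod.cast ((0 : RamCov.IxG d × Fin e → ZMod p) (t, k)) : RF v) * w k = 0 := by
          refine Finset.sum_eq_zero fun k _ => ?_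
          rw [Pi.zero_apply, ZMod.cast_zero, zero_mul]
        rw [h1, zero_mul]
      map_add' := fun c c' => by
        rw [← Finset.sum_add_distrib]
        refine Finset.sum_congr rfl fun t _ => ?_
        rw [← add_mul, ← Finset.sum_add_distrib]
        congr 1
        refine Finset.sum_congr rfl fun k _ => ?_
        rw [Pi.add_apply, ← add_mul]
        congr 1
        exact map_add (ZMod.castHom (dvd_refl p) (RF v)) _ _ }
  have hf : ∀ c, f c = ∑ t : RamCov.IxG d, (∑ k, (ZMod.cast (c (t, k)) : RF v) * w k) * b t := fun c => rfl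
  have hs : Function.Surjective f := by
    intro x
    obtain ⟨a, ha⟩ := w_surj hc ω (x * (b t₀)⁻¹)
    refine ⟨fun tk => if tk.1 = t₀ then a tk.2 else 0, ?_⟩
    rw [hf, Finset.sum_eq_single t₀]
    · have h1 : ∑ k, (ZMod.cast (if (t₀, k).1 = t₀ then a (t₀, k).2 else (0 : ZMod p)) : RF v) * w k =
          x * (b t₀)⁻¹ := by
        rw [← ha]
        refine Finset.sum_congr rfl fun k _ => ?_
        rw [if_pos rfl]
      rw [h1, mul_assoc, inv_mul_cancel₀ ht₀, mul_one]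
    · intro t _ ht
      have h1 : ∑ k, (ZMod.cast (if (t, k).1 = t₀ then a (t, k).2 else (0 : ZMod p)) : RF v) * w k = 0 := by
        refine Finset.sum_eq_zero fun k _ => ?_
        rw [if_neg ht, ZMod.cast_zero, zero_mul]
      rw [h1, zero_mul]
    · intro h
      exact absurd (Finset.mem_univ _) h
  have h1 := card_surjA f hs {x | ∃ s : RF v, s ^ q = x}
  have h2 := pow_dens hq hdiv
  have h3 : Nat.card (RAV q d ω v p z) =
      Nat.card {c : RamCov.IxG d × Fin e → ZMod p // f c ∈ {x | ∃ s : RF v, s ^ q = x}} := rfl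
  have h4 : Nat.card ({x | ∃ s : RF v, s ^ q = x} : Set (RF v)) = Nat.card {x : RF v // ∃ s : RF v, s ^ q = x} := rfl
  have h5 : Nat.card (RamCov.IxG d × Fin e → ZMod p) = p ^ Fintype.card (RamCov.IxG d × Fin e) := by
    rw [Nat.card_eq_fintype_card, Fintype.card_fun, ZMod.card]
  rw [← h3, h4, h5] at h1
  have hF0 : (0 : ℝ) < Nat.card (RF v) := by exact_mod_cast Nat.card_pos
  have h6 : (Nat.card (RAV q d ω v p z) : ℝ) * Nat.card (RF v) =
      (Nat.card {x : RF v // ∃ s : RF v, s ^ q = x} : ℝ) * (p : ℝ) ^ Fintype.card (RamCov.IxG d × Fin e) := by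
    exact_mod_cast h1
  have hpN : (0 : ℝ) ≤ (p : ℝ) ^ Fintype.card (RamCov.IxG d × Fin e) := by positivity
  refine le_of_mul_le_mul_right ?_ hF0
  rw [h6]
  calc _ ≤ ((1 - 1 / 3) * (Nat.card (RF v) : ℝ)) * (p : ℝ) ^ Fintype.card (RamCov.IxG d × Fin e) :=
        mul_le_mul_of_nonneg_right h2 hpN
    _ ≤ ((1 - 1 / 20) * (Nat.card (RF v) : ℝ)) * (p : ℝ) ^ Fintype.card (RamCov.IxG d × Fin e) := by
        refine mul_le_mul_of_nonneg_right (mul_le_mul_of_nonneg_right (by norm_num) hF0.le) hpN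
    _ = _ := by ring

theorem dens_RBV {K : Type} [Field K] [NumberField K] {m g s e : ℕ} (hm : m ≤ s) (ν : Fin s → ℕ) (hν : ∀ j, 1 ≤ ν j)
    (hs : m + 1 ≤ ∑ j, ν j) (d : Fin s → Fin g → ℕ) (ω : Module.Basis (Fin e) ℤ (𝓞 K)) :
    DensV 11 (RBV (m := m) ν d ω) (1 / 20) := by
  classical
  intro v p hpp hc hp z
  have hfp : Fact p.Prime := ⟨hpp⟩
  have hfin : Finite (RF v) := finite_RF v
  have hFt : Fintype (RF v) := Fintype.ofFinite (RF v)
  have hcF : 11 ≤ Fintype.card (RF v) := by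
    have h1 := PL1_le (F := RF v) hpp hc
    rw [Nat.card_eq_fintype_card] at h1
    omega
  choose t₀ ht₀ using fun j => bas_neG (d j) z
  let w : Fin e → RF v := fun k => rf (pV v) ((ω k : 𝓞 K) : K)
  let b : (j : Fin s) → RamCov.IxG (d j) → RF v := fun j t => ∏ l, RamCov.bas (RF v) (d j l) (z l) (t l)
  let f : (RamCov.IxC m ν d × Fin e → ZMod p) →+ ((Σ j, MWS.Mo m (ν j)) → RF v) :=
    { toFun := fun c t => ∑ r : RamCov.IxG (d t.1),
        (∑ k, (ZMod.cast (c (⟨t.1, (t.2, r)⟩, k)) : RF v) * w k) * b t.1 r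
      map_zero' := by
        funext t
        refine Finset.sum_eq_zero fun r _ => ?_
        have h1 : ∑ k, (ZMod.cast ((0 : RamCov.IxC m ν d × Fin e → ZMod p) (⟨t.1, (t.2, r)⟩, k)) : RF v) * w k = 0 := by
          refine Finset.sum_eq_zero fun k _ => ?_
          rw [Pi.zero_apply, ZMod.cast_zero, zero_mul]
        rw [h1, zero_mul]
      map_add' := fun c c' => by
        funext t
        rw [Pi.add_apply]
        rw [← Finset.sum_add_distrib]
        refine Finset.sum_congr rfl fun r _ => ?_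
        rw [← add_mul, ← Finset.sum_add_distrib]
        congr 1
        refine Finset.sum_congr rfl fun k _ => ?_
        rw [Pi.add_apply, ← add_mul]
        congr 1
        exact map_add (ZMod.castHom (dvd_refl p) (RF v)) _ _ }
  have hf : ∀ c t, f c t = ∑ r : RamCov.IxG (d t.1),
        (∑ k, (ZMod.cast (c (⟨t.1, (t.2, r)⟩, k)) : RF v) * w k) * b t.1 r := fun c t => rfl
  have hs' : Function.Surjective f := by
    intro y
    choose a ha using fun t : (Σ j, MWS.Mo m (ν j)) => w_surj hc ω (y t * (b t.1 (t₀ t.1))⁻¹)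
    refine ⟨fun tk => if tk.1.2.2 = t₀ tk.1.1 then a ⟨tk.1.1, tk.1.2.1⟩ tk.2 else 0, ?_⟩
    funext t
    rw [hf, Finset.sum_eq_single (t₀ t.1)]
    · have h1 : ∑ k, (ZMod.cast (if t₀ t.1 = t₀ t.1 then a ⟨t.1, t.2⟩ k else (0 : ZMod p)) : RF v) * w k =
          y t * (b t.1 (t₀ t.1))⁻¹ := by
        rw [← ha t]
        refine Finset.sum_congr rfl fun k _ => ?_
        rw [if_pos rfl]
      have h2 : b t.1 (t₀ t.1) ≠ 0 := ht₀ t.1
      change (∑ k, (ZMod.cast (if t₀ t.1 = t₀ t.1 then a ⟨t.1, t.2⟩ k else (0 : ZMod p)) : RF v) * w k) *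
        b t.1 (t₀ t.1) = y t
      rw [h1, mul_assoc, inv_mul_cancel₀ h2, mul_one]
    · intro r _ hr
      have h1 : ∑ k, (ZMod.cast (if r = t₀ t.1 then a ⟨t.1, t.2⟩ k else (0 : ZMod p)) : RF v) * w k = 0 := by
        refine Finset.sum_eq_zero fun k _ => ?_
        rw [if_neg hr, ZMod.cast_zero, zero_mul]
      change (∑ k, (ZMod.cast (if r = t₀ t.1 then a ⟨t.1, t.2⟩ k else (0 : ZMod p)) : RF v) * w k) * b t.1 r = 0
      rw [h1, zero_mul]
    · intro h
      exact absurd (Finset.mem_univ _) h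
  have h1 := card_surjA f hs' {w | ∃ y : Fin (m + 1) → RF v, y ≠ 0 ∧ ∀ j, ∑ a, w ⟨j, a⟩ * MWS.mo y a = 0}
  have h2 := ci_densF hcF hm ν hν hs
  have hval : ∀ (c : RamCov.IxC m ν d × Fin e → ZMod p) (y : Fin (m + 1) → RF v) (j : Fin s),
      ∑ t : MWS.Mo m (ν j) × RamCov.IxG (d j), (∑ k, (ZMod.cast (c (⟨j, t⟩, k)) : RF v) * w k) *
        (MWS.mo y t.1 * b j t.2) = ∑ a, f c ⟨j, a⟩ * MWS.mo y a := by
    intro c y j
    rw [Fintype.sum_prod_type]
    refine Finset.sum_congr rfl fun a _ => ?_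
    rw [hf, Finset.sum_mul]
    refine Finset.sum_congr rfl fun r _ => ?_
    ring
  have h3 : Nat.card (RBV (m := m) ν d ω v p z) = Nat.card {c : RamCov.IxC m ν d × Fin e → ZMod p // f c ∈
      {w : (Σ j, MWS.Mo m (ν j)) → RF v | ∃ y : Fin (m + 1) → RF v, y ≠ 0 ∧
        ∀ j, ∑ a, w ⟨j, a⟩ * MWS.mo y a = 0}} := by
    refine Nat.card_congr (Equiv.subtypeEquivRight fun c => ?_)
    constructor
    · rintro ⟨y, hy, h⟩
      exact ⟨y, hy, fun j => (hval c y j).symm.trans (h j)⟩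
    · rintro ⟨y, hy, h⟩
      exact ⟨y, hy, fun j => (hval c y j).trans (h j)⟩
  have h5 : Nat.card (RamCov.IxC m ν d × Fin e → ZMod p) = p ^ Fintype.card (RamCov.IxC m ν d × Fin e) := by
    rw [Nat.card_eq_fintype_card, Fintype.card_fun, ZMod.card]
  have h6 : Nat.card ((Σ j, MWS.Mo m (ν j)) → RF v) = Fintype.card (RF v) ^ Fintype.card (Σ j, MWS.Mo m (ν j)) := by
    rw [Nat.card_eq_fintype_card, Fintype.card_fun]
  rw [← h3, h5, h6] at h1
  have hF0 : (0 : ℝ) < (Fintype.card (RF v) : ℝ) ^ Fintype.card (Σ j, MWS.Mo m (ν j)) := by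
    have : (0 : ℝ) < Fintype.card (RF v) := by
      have h7 : 0 < Fintype.card (RF v) := by omega
      exact_mod_cast h7
    positivity
  have h8 : (Nat.card (RBV (m := m) ν d ω v p z) : ℝ) * (Fintype.card (RF v) : ℝ) ^ Fintype.card (Σ j, MWS.Mo m (ν j)) =
      (Nat.card {w : (Σ j, MWS.Mo m (ν j)) → RF v // ∃ y : Fin (m + 1) → RF v, y ≠ 0 ∧
        ∀ j, ∑ a, w ⟨j, a⟩ * MWS.mo y a = 0} : ℝ) * (p : ℝ) ^ Fintype.card (RamCov.IxC m ν d × Fin e) := by
    exact_mod_cast h1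
  refine le_of_mul_le_mul_right ?_ hF0
  rw [h8]
  calc _ ≤ ((1 - 1 / 20) * (Fintype.card (RF v) : ℝ) ^ Fintype.card (Σ j, MWS.Mo m (ν j))) *
          (p : ℝ) ^ Fintype.card (RamCov.IxC m ν d × Fin e) :=
        mul_le_mul_of_nonneg_right h2 (by positivity)
    _ = _ := by ring

end FB
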