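import Pool.Agent.Lib.MP_17a322_ntFB.PV2
import Pool.Agent.Lib.MP_10e784_agBS.S3
import Pool.Agent.Lib.MP_10e784_agV.VM

/-!
# LEAF PL3: the sieve, given the classes and the places

PROOF.  As `fixedK` (`MP_17a322_ntVK/SF1`), without the torus: `rdF (pV v) (r i + Q) = rdF (pV v) (r i)` by `rdF_add` (PS3, `int_mem`); `VM_union` over `Fin g → Fin N` (`finFunctionFinEquiv`), `box_crt`.
-/

namespace FB

open Finset NumberField VK IsDedekindDomain

theorem sieveF {K : Type} [Field K] [NumberField K] [DecidableEq K] {N0 : ℕ} {ι : Type} [Fintype ι] [DecidableEq ι]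
    {g : ℕ} {A B : 𝓞 K} {κ : ℝ} (h0 : 0 ≤ κ) (h1 : κ ≤ 1) {R : LocV K g ι} (hR : DensV N0 R κ)
    {Γ : AddSubgroup (Pt (A : K) (B : K))} {N : ℕ} (r : Fin N → Pt (A : K) (B : K)) (S : Finset ℕ)
    (v : ℕ → HeightOneSpectrum (𝓞 K)) (hS : ∀ p ∈ S, p.Prime ∧ N0 ≤ p ∧ CharP (RF (v p)) p)
    (hr : ∀ P ∈ Γ, ∃ i, ∃ Q, P = r i + Q ∧ ∀ p ∈ S, inK (VR (v p)) Q) {H : ℕ} (hq : ∏ p ∈ S, p ≤ H) :
    (Nat.card {c : ι → ℤ // (∀ i, |c i| ≤ (H : ℤ)) ∧ ∃ P : Fin g → Pt (A : K) (B : K), (∀ l, P l ∈ Γ) ∧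
      AdmV N0 R c P} : ℝ) ≤ (N : ℝ) ^ g * ((4 * (H : ℝ)) ^ Fintype.card ι * (1 - κ) ^ S.card) := by
  classical
  let e : (Fin g → Fin N) ≃ Fin (N ^ g) := finFunctionFinEquiv
  let W : Fin (N ^ g) → (p : ℕ) → Set (ι → ZMod p) := fun i p =>
    {b | b ∈ R (v p) p (fun l => rdF (pV (v p)) (r (e.symm i l)))}
  have hU := MWS.VM_union (ι := ι) (H := H) (N := N ^ g)
    (fun c => ∃ P : Fin g → Pt (A : K) (B : K), (∀ l, P l ∈ Γ) ∧ AdmV N0 R c P)
    (fun i c => ∀ p ∈ S, (fun j => ((c j : ℤ) : ZMod p)) ∈ W i p)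
    (by
      rintro c - ⟨P, hP1, hP⟩
      choose j Q hj hQ using fun l => hr (P l) (hP1 l)
      refine ⟨e j, fun p hp => ?_⟩
      obtain ⟨g1, g2, g3⟩ := hS p hp
      have k1 := hP (v p) p g1 g3 g2
      have k3 : (fun l => rdF (pV (v p)) (P l)) = fun l => rdF (pV (v p)) (r (j l)) := by
        funext l
        rw [hj l]
        exact (rdF_add (pV (v p)) (int_mem (pV (v p)) A) (int_mem (pV (v p)) B) (hQ l p hp)).1
      rw [k3] at k1
      change (fun j => ((c j : ℤ) : ZMod p)) ∈ R (v p) p (fun l => rdF (pV (v p)) (r (e.symm (e j) l)))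
      rw [Equiv.symm_apply_apply]
      exact k1)
    1 ((4 * (H : ℝ)) ^ Fintype.card ι * (1 - κ) ^ S.card) zero_le_one
    (fun i => by
      rw [mul_one, MWS.VM_card]
      have hb := MWS.box_crt (ι := ι) S (fun p hp => (hS p hp).1) (fun _ => H) (fun _ => hq)
        (fun p b => if b ∈ W i p then (1 : ℝ) else 0)
        (fun p b => by split_ifs <;> norm_num) (fun _ => 1 - κ)
        (fun p hp hne => by
          obtain ⟨g1, g2, g3⟩ := hS p hp
          have h3 := hR (v p) p g1 g3 g2 (fun l => rdF (pV (v p)) (r (e.symm i l)))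
          rw [sum_boole]
          refine le_trans (le_of_eq ?_) h3
          rw [Nat.card_eq_fintype_card, Fintype.card_subtype]
          rfl)
      rw [prod_const, prod_const, card_univ] at hb
      refine le_trans (le_of_eq ?_) hb
      rw [card_filter]
      push_cast
      refine sum_congr rfl fun c _ => ?_
      rw [prod_boole])
  rw [mul_one, Nat.cast_pow] at hU
  exact hU

end FB
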