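import Pool.Agent.Lib.MP_17a322_ntFB.PR

/-! Reduction of elements and of collinear points at a place (as `MP_17a322_ntVK/SR1`). -/

namespace FB

open VK

theorem mem_pow {K F : Type} [Field K] [Field F] (π : PF K F) {x : K} {n : ℕ} (hn : 1 ≤ n) (h : x ^ n ∈ π.V) : x ∈ π.V := by
  by_contra hx
  have hi : x⁻¹ ∈ π.V := (π.V.mem_or_inv_mem x).resolve_left hx
  have hx0 : x ≠ 0 := by
    rintro rfl
    exact hx π.V.zero_mem
  obtain ⟨m, rfl⟩ : ∃ m, n = m + 1 := ⟨n - 1, by omega⟩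
  apply hx
  have e : x = x ^ (m + 1) * (x⁻¹) ^ m := by
    rw [pow_succ, mul_assoc, mul_comm x, ← mul_assoc, ← mul_pow, mul_inv_cancel₀ hx0, one_pow, one_mul]
  rw [e]
  exact π.V.mul_mem _ _ h (pow_mem hi m)

theorem res_zero {K F : Type} [Field K] [Field F] (π : PF K F) {x : K} (hx : x ∈ π.V) :
    rf π x = 0 ↔ x = 0 ∨ x⁻¹ ∉ π.V := by
  constructor
  · intro h
    by_cases hx0 : x = 0
    · exact Or.inl hx0
    · refine Or.inr fun hi => ?_
      exact rf_ne hx0 hx hi h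
  · rintro (rfl | hi)
    · exact (rf_res hx).unique Rf.zero
    · obtain ⟨h1, h2⟩ := rf_res hx
      rw [← h2]
      exact π.ker ⟨x, h1⟩ hi

theorem int_mem {K F : Type} [Field K] [Field F] [NumberField K] (π : PF K F) (x : NumberField.RingOfIntegers K) :
    (x : K) ∈ π.V := by
  have h0 : IsIntegral ℤ (x : K) := NumberField.RingOfIntegers.isIntegral_coe x
  have h1 : IsIntegral π.V (x : K) := h0.tower_top
  obtain ⟨y, hy⟩ := IsIntegrallyClosed.isIntegral_iff.mp h1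
  rw [← hy]
  exact y.2

theorem res_eq {K F : Type} [Field K] [Field F] {π : PF K F} {x : K} {a : F} (h : Rf π x a) :
    rf π x = a := by
  obtain ⟨h1, h2⟩ := h
  exact (rf_res h1).unique ⟨h1, h2⟩

theorem den_xyK {K F : Type} [Field K] [Field F] (π : PF K F) {A B : K} (hA : A ∈ π.V) (hB : B ∈ π.V) {x y : K}
    (h : y ^ 2 = x ^ 3 + A * x + B) : x ∈ π.V ↔ y ∈ π.V := by
  constructor
  · intro hx
    have h1 : y ^ 2 ∈ π.V := by
      rw [h]
      exact π.V.add_mem _ _ (π.V.add_mem _ _ (pow_mem hx 3) (π.V.mul_mem _ _ hA hx)) hB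
    exact mem_pow π one_le_two h1
  · intro hy
    by_contra hx
    have hi : x⁻¹ ∈ π.V := (π.V.mem_or_inv_mem x).resolve_left hx
    have hx0 : x ≠ 0 := by
      rintro rfl
      exact hx π.V.zero_mem
    have hz : Rf π x⁻¹ 0 := by
      refine ⟨hi, π.ker ⟨x⁻¹, hi⟩ ?_⟩
      simpa using hx
    have e : y ^ 2 * x⁻¹ ^ 3 = 1 + A * x⁻¹ ^ 2 + B * x⁻¹ ^ 3 := by
      rw [h]
      field_simp
    have h1 : Rf π (y ^ 2 * x⁻¹ ^ 3) (rf π y ^ 2 * 0 ^ 3) := ((rf_res hy).pow 2).mul (hz.pow 3)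
    have h2 : Rf π (1 + A * x⁻¹ ^ 2 + B * x⁻¹ ^ 3) (1 + rf π A * 0 ^ 2 + rf π B * 0 ^ 3) :=
      (Rf.one.add ((rf_res hA).mul (hz.pow 2))).add ((rf_res hB).mul (hz.pow 3))
    rw [e] at h1
    have h3 := h1.unique h2
    simp at h3

theorem red_linK {K F : Type} [Field K] [Field F] (π : PF K F) {A B : K} (hA : A ∈ π.V) (hB : B ∈ π.V)
    {l n x₁ y₁ x₂ y₂ x₃ y₃ : K} (h : Lin A B l n x₁ y₁ x₂ y₂ x₃ y₃) (h1 : x₁ ∈ π.V) (h2 : x₂ ∈ π.V) (h3 : x₃ ∈ π.V)
    (g1 : y₁ ∈ π.V) :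
    Lin (rf π A) (rf π B) (rf π l) (rf π n) (rf π x₁) (rf π y₁) (rf π x₂) (rf π y₂) (rf π x₃) (rf π y₃) := by
  have hl : l ∈ π.V := mem_pow π one_le_two (by rw [h.e1]; exact π.V.add_mem _ _ (π.V.add_mem _ _ h1 h2) h3)
  have hn : n ∈ π.V := by
    have e : n = y₁ - l * x₁ := by rw [h.y1]; ring
    rw [e]
    exact sub_mem g1 (π.V.mul_mem _ _ hl h1)
  have rl := rf_res hl
  have rn := rf_res hn
  have r1 := rf_res h1
  have r2 := rf_res h2
  have r3 := rf_res h3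
  have line : ∀ {x y : K}, x ∈ π.V → y = l * x + n → rf π y = rf π l * rf π x + rf π n := by
    intro x y hx e
    rw [e]
    exact res_eq ((rl.mul (rf_res hx)).add rn)
  refine ⟨line h1 h.y1, line h2 h.y2, line h3 h.y3, ?_, ?_, ?_⟩
  · have e : l * l = x₁ + x₂ + x₃ := by rw [← h.e1]; ring
    have a := rl.mul rl
    rw [e] at a
    have b := a.unique ((r1.add r2).add r3)
    rw [← b]
    ring
  · have e : A = x₁ * x₂ + x₁ * x₃ + x₂ * x₃ + ((2 : ℤ) : K) * l * n := by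
      rw [← h.e2]
      push_cast
      ring
    have a := ((((r1.mul r2).add (r1.mul r3)).add (r2.mul r3)).add (((Rf.int (π := π) 2).mul rl).mul rn))
    rw [← e] at a
    have b := (rf_res hA).unique a
    rw [b]
    push_cast
    ring
  · have e : B + x₁ * x₂ * x₃ = n * n := by
      have := h.e3
      linear_combination this
    have a := (rf_res hB).add ((r1.mul r2).mul r3)
    rw [e] at a
    have b := a.unique (rn.mul rn)
    linear_combination b



end FB
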