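import Pool.Agent.Lib.MP_17a322_ntFB.PS1

/-! A point of the kernel of reduction on the line (as `MP_17a322_ntVK/SR2`). -/

namespace FB

open VK

section

variable {K F : Type} [Field K] [Field F]

private theorem PS2_zero (π : PF K F) {x : K} (h : π.V.valuation x < 1) : Rf π x 0 := by
  have h1 : x ∈ π.V := (π.V.valuation_le_one_iff x).1 h.le
  have h2 : rf π x = 0 := by
    rw [res_zero π h1]
    rcases eq_or_ne x 0 with h0 | h0
    · exact Or.inl h0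
    · refine Or.inr fun h3 => ?_
      have h4 := (π.V.valuation_le_one_iff x⁻¹).2 h3
      have h5 : π.V.valuation x * π.V.valuation x⁻¹ = 1 := by
        rw [← map_mul, mul_inv_cancel₀ h0, map_one]
      have h6 : π.V.valuation x * π.V.valuation x⁻¹ ≤ π.V.valuation x := mul_le_of_le_one_right' h4
      rw [h5] at h6
      exact absurd h (not_lt.2 h6)
  have h3 := rf_res h1
  rw [h2] at h3
  exact h3

end

theorem red_unitK {K F : Type} [Field K] [Field F] (π : PF K F) {A B : K} (hA : A ∈ π.V) (hB : B ∈ π.V)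
    {l n x₁ y₁ x₂ y₂ x₃ y₃ : K} (h : Lin A B l n x₁ y₁ x₂ y₂ x₃ y₃) (f1 : y₁ ^ 2 = x₁ ^ 3 + A * x₁ + B)
    (f2 : y₂ ^ 2 = x₂ ^ 3 + A * x₂ + B) (f3 : y₃ ^ 2 = x₃ ^ 3 + A * x₃ + B) (h1 : x₁ ∉ π.V) (h2 : x₂ ∈ π.V) :
    x₃ ∈ π.V ∧ rf π x₃ = rf π x₂ ∧ rf π y₃ = - rf π y₂ := by
  obtain ⟨v, hv0⟩ : ∃ v, v = π.V.valuation := ⟨_, rfl⟩
  have hv : ∀ x, v x ≤ 1 ↔ x ∈ π.V := by
    intro x
    rw [hv0]
    exact π.V.valuation_le_one_iff x
  have vsub : ∀ {x y : K}, 1 < v x → v y ≤ 1 → v (x - y) = v x := by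
    intro x y hx hy
    exact v.map_sub_eq_of_lt_left (lt_of_le_of_lt hy hx)
  have vmul : ∀ {x y : K}, v x ≤ 1 → v y ≤ 1 → v (x * y) ≤ 1 := by
    intro x y hx hy
    rw [map_mul]
    exact mul_le_one' hx hy
  have vmullt : ∀ {x y : K}, v x < 1 → v y ≤ 1 → v (x * y) < 1 := by
    intro x y hx hy
    rw [map_mul]
    exact lt_of_le_of_lt (mul_le_of_le_one_right' hy) hx
  have a1 : 1 < v x₁ := by
    rw [← not_le, hv]
    exact h1
  have a2 : v x₂ ≤ 1 := (hv _).2 h2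
  have iα : v A ≤ 1 := (hv _).2 hA
  have iβ : v B ≤ 1 := (hv _).2 hB
  have hy2 : y₂ ∈ π.V := (den_xyK π hA hB f2).1 h2
  have b2 : v y₂ ≤ 1 := (hv _).2 hy2
  have b1 : v y₁ ^ 2 = v x₁ ^ 3 := by
    rw [← map_pow, f1, add_assoc]
    have e1 : v (A * x₁ + B) ≤ v x₁ := by
      refine v.map_add_le ?_ (iβ.trans a1.le)
      rw [map_mul]
      exact mul_le_of_le_one_left' iα
    have e2 : v x₁ < v x₁ ^ 3 := lt_self_pow₀ a1 (by norm_num)
    rw [v.map_add_eq_of_lt_left, map_pow]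
    rw [map_pow]
    exact lt_of_le_of_lt e1 e2
  have c2 : 1 < v y₁ := by
    have e1 : 1 < v y₁ ^ 2 := by
      rw [b1]
      exact one_lt_pow₀ a1 (by norm_num)
    exact (one_lt_pow_iff two_ne_zero).1 e1
  have c4 : y₁ - y₂ = l * (x₁ - x₂) := by rw [h.y1, h.y2]; ring
  have c4' : y₃ - y₂ = l * (x₃ - x₂) := by rw [h.y3, h.y2]; ring
  have c5 : v y₁ = v l * v x₁ := by
    rw [← vsub c2 b2, c4, map_mul, vsub a1 a2]
  have hx0 : v x₁ ≠ 0 := (lt_trans zero_lt_one a1).ne'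
  have c6 : v l ^ 2 = v x₁ := by
    have e1 : v x₁ ^ 2 ≠ 0 := pow_ne_zero 2 hx0
    apply mul_right_cancel₀ e1
    rw [← mul_pow, ← c5, b1, pow_succ' (v x₁) 2]
  have c7 : 1 < v l := by
    have e1 : 1 < v l ^ 2 := by rw [c6]; exact a1
    exact (one_lt_pow_iff two_ne_zero).1 e1
  have hl0 : l ≠ 0 := by
    intro e
    rw [e, map_zero] at c7
    exact absurd c7 (not_lt.2 zero_le_one)
  obtain ⟨t, ht⟩ : ∃ t, t = l⁻¹ := ⟨_, rfl⟩
  have htl : t * l = 1 := by rw [ht]; exact inv_mul_cancel₀ hl0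
  have ht1 : v t * v l = 1 := by
    rw [← map_mul, htl, map_one]
  have ht2 : v t < 1 := by
    rw [ht, map_inv₀]
    exact inv_lt_one_of_one_lt₀ c7
  have e_sum : t ^ 3 * ((y₁ - y₂) + (y₃ - y₂)) = 1 - 3 * x₂ * t ^ 2 := by
    have e1 : (y₁ - y₂) + (y₃ - y₂) = l * (l ^ 2 - 3 * x₂) := by
      rw [c4, c4', h.e1]; ring
    rw [e1]
    have e2 : t ^ 3 * (l * (l ^ 2 - 3 * x₂)) = (t * l) ^ 3 - 3 * x₂ * t ^ 2 * (t * l) := by ring
    rw [e2, htl]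
    ring
  have e_prod : t ^ 3 * (y₁ - y₂) * (y₃ - y₂) = (3 * x₂ ^ 2 + A) * t - 2 * y₂ := by
    have e1 : (y₁ - y₂) * (y₃ - y₂) = l ^ 2 * (3 * x₂ ^ 2 + A - 2 * l * y₂) := by
      have e2 : (x₁ - x₂) * (x₃ - x₂) = 3 * x₂ ^ 2 + A - 2 * l * y₂ := by
        have g1 := h.e1
        have g2 := h.e2
        have g3 := h.y2
        rw [g3]
        linear_combination (-1 : K) * g2 + 2 * x₂ * g1
      rw [c4, c4', ← e2]
      ring
    rw [mul_assoc, e1]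
    have e3 : t ^ 3 * (l ^ 2 * (3 * x₂ ^ 2 + A - 2 * l * y₂)) =
        (t * l) ^ 2 * (3 * x₂ ^ 2 + A) * t - 2 * (t * l) ^ 3 * y₂ := by ring
    rw [e3, htl]
    ring
  have d1 : v (t ^ 3 * (y₁ - y₂)) = 1 := by
    rw [map_mul, map_pow, vsub c2 b2, c5, ← c6, ← pow_succ', ← mul_pow, ht1, one_pow]
  have i3 : v (3 : K) ≤ 1 := (hv _).2 (by exact_mod_cast natCast_mem π.V 3)
  have i2 : v (2 : K) ≤ 1 := (hv _).2 (by exact_mod_cast natCast_mem π.V 2)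
  have i22 : v (x₂ ^ 2) ≤ 1 := by
    rw [pow_two]
    exact vmul a2 a2
  have i4 : v (3 * x₂ ^ 2 + A) ≤ 1 := v.map_add_le (vmul i3 i22) iα
  have i5 : v ((3 * x₂ ^ 2 + A) * t) < 1 := by
    rw [mul_comm]
    exact vmullt ht2 i4
  have d2 : v (y₃ - y₂) ≤ 1 := by
    have e1 : v (y₃ - y₂) = v (t ^ 3 * (y₁ - y₂) * (y₃ - y₂)) := by
      rw [map_mul v (t ^ 3 * (y₁ - y₂)), d1, one_mul]
    rw [e1, e_prod]
    exact v.map_sub_le i5.le (vmul i2 b2)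
  have d3 : x₃ - x₂ = t * (y₃ - y₂) := by
    rw [c4', ← mul_assoc, htl, one_mul]
  have d4 : v (x₃ - x₂) < 1 := by
    rw [d3]
    exact vmullt ht2 d2
  have d5 : v (y₃ + y₂) < 1 := by
    have e1 : y₃ + y₂ = (t * (3 * x₂ * t) + t * (t ^ 2 * (y₃ - y₂))) * (y₃ - y₂)
        + (3 * x₂ ^ 2 + A) * t := by
      linear_combination e_prod - (y₃ - y₂) * e_sum
    rw [e1]
    have e2 : v (t ^ 2 * (y₃ - y₂)) ≤ 1 := by
      refine vmul ?_ d2
      rw [pow_two]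
      exact vmul ht2.le ht2.le
    exact v.map_add_lt (vmullt (v.map_add_lt (vmullt ht2 (vmul (vmul i3 a2) ht2.le))
      (vmullt ht2 e2)) d2) i5
  rw [hv0] at d4 d5
  have g1 := PS2_zero π d4
  have g2 := PS2_zero π d5
  have k1 := (rf_res h2).add g1
  rw [add_sub_cancel, add_zero] at k1
  have k2 : Rf π ((-1 : ℤ) : K) ((-1 : ℤ) : F) := Rf.int (-1)
  have k3 := g2.add (k2.mul (rf_res hy2))
  have k4 : y₃ + y₂ + ((-1 : ℤ) : K) * y₂ = y₃ := by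
    push_cast
    ring
  have k5 : (0 : F) + ((-1 : ℤ) : F) * rf π y₂ = - rf π y₂ := by
    push_cast
    ring
  rw [k4, k5] at k3
  exact ⟨k1.choose, res_eq k1, res_eq k3⟩



end FB
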