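import Pool.Agent.Lib.MP_17a322_ntFB.PDefs

/-!
# Covers of the powers of a fixed elliptic curve and complete intersections in them: the definitions of the statement
-/

namespace FB

open Finset NumberField VK

/-- the number of the integral vectors with coordinates at most `H` in absolute value and the property `Q` -/
noncomputable def cnt {ι : Type} (H : ℕ) (Q : (ι → ℤ) → Prop) : ℕ :=
  Nat.card {a : ι → ℤ // (∀ i, |a i| ≤ (H : ℤ)) ∧ Q a}

/-- some cover `γ w ^ r = F` of `E^g`, `γ ∈ G`, has a point with `P_l ∈ Γ`, `w ∈ K`; `F` is the section with the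
coefficients `cf ω a`, `E` the curve `y² = x³ + A x + B` -/
def CovF {K : Type} [Field K] [NumberField K] [DecidableEq K] {A B : K} {e g : ℕ} (ω : Fin e → 𝓞 K)
    (Γ : AddSubgroup (Pt A B)) (G : Subgroup Kˣ) (r : ℕ) {d : Fin g → ℕ}
    (a : RamCov.IxG d × Fin e → ℤ) : Prop :=
  ∃ P : Fin g → Pt A B, (∀ l, P l ∈ Γ) ∧ ∃ γ ∈ G, ∃ w : K,
    (γ : K) * w ^ r = ∑ t : RamCov.IxG d, cf ω a t * ∏ l, RamCov.bas K (d l) (opP (P l)) (t l)

/-- the common zeros of the sections `F_1, .., F_s` (with the coefficients `cf ω a`) in `E^g × ℙ^m` contain a point with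
`P_l ∈ Γ`, `u ∈ ℙ^m(K)` -/
def ComF {K : Type} [Field K] [NumberField K] [DecidableEq K] {A B : K} {e g m s : ℕ} (ω : Fin e → 𝓞 K)
    (Γ : AddSubgroup (Pt A B)) {ν : Fin s → ℕ} {d : Fin s → Fin g → ℕ}
    (a : RamCov.IxC m ν d × Fin e → ℤ) : Prop :=
  ∃ P : Fin g → Pt A B, (∀ l, P l ∈ Γ) ∧ ∃ u : Fin (m + 1) → K, u ≠ 0 ∧
    ∀ j, ∑ t : MWS.Mo m (ν j) × RamCov.IxG (d j), cf ω a ⟨j, t⟩ *
      (MWS.mo u t.1 * ∏ l, RamCov.bas K (d j l) (opP (P l)) (t.2 l)) = 0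

end FB
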